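import Pool.Agent.Y661.PP.Par

/-!
The final assembly.
-/

set_option autoImplicit false

open scoped BigOperators ENNReal NNReal Topology
open MeasureTheory Filter

namespace Pool.Agent.Y661.PP

open Pool.Agent.H695R3.PP

noncomputable def cl (x : ℝ) : ℝ := max (-1) (min 1 x)

theorem cl_abs (x : ℝ) : |cl x| ≤ 1 := by
  rw [abs_le]
  exact ⟨le_max_left _ _, max_le (by norm_num) (min_le_left _ _)⟩

theorem cl_eq (x : ℝ) (h : |x| ≤ 1) : cl x = x := by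
  have := abs_le.1 h
  unfold cl
  rw [min_eq_right this.2, max_eq_right this.1]

theorem cl_cont : Continuous cl := by
  unfold cl
  fun_prop

theorem transfer (Q : Type) [Fintype Q] (q : ℤ → Q) (L : ℕ) (W : ℤ → ℝ) (ε : ℝ)
    (B : Set (ℤ → ℝ)) (hq : Set.InjOn q (Set.Icc (-(L : ℤ)) L)) (hB : MeasurableSet B)
    (hloc : ∀ V V' : ℤ → ℝ, (∀ n, -(L : ℤ) ≤ n → n ≤ L → V n = V' n) → (V ∈ B ↔ V' ∈ B)) :
    Measure.pi (fun _ : Q => U) {η | (fun n => W n + ε * cl (η (q n))) ∈ B} ≤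
      PZ {x | (fun n => W n + ε * x n) ∈ B} := by
  rw [← taskTransfer Q q L W ε B hq hB hloc]
  refine measure_mono_ae ?_
  have : ∀ᵐ η ∂(Measure.pi (fun _ : Q => U)), ∀ j, |η j| ≤ 1 := by
    rw [ae_all_iff]
    intro j
    have h1 := (measurePreserving_eval (fun _ : Q => U) j).quasiMeasurePreserving.ae U_supp
    filter_upwards [h1] with x hx
    exact abs_le.2 hx
  filter_upwards [this] with η hη h
  have h2 : (fun n => W n + ε * cl (η (q n))) = fun n => W n + ε * η (q n) := by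
    funext n
    rw [cl_eq _ (hη _)]
  have h3 : (fun n => W n + ε * cl (η (q n))) ∈ B := h
  rw [h2] at h3
  exact h3

section main

variable (Q : ℕ → Type) [∀ k, Fintype (Q k)]

/-- the law of the parameters -/
noncomputable def PQ : Measure (∀ k, Q k → ℝ) :=
  Measure.infinitePi fun k => Measure.pi fun _ : Q k => U

instance : IsProbabilityMeasure (PQ Q) := by unfold PQ; infer_instance

theorem resampleQ (k : ℕ) (A : Set (∀ k, Q k → ℝ)) (hA : MeasurableSet A) :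
    PQ Q A = ∫⁻ η, Measure.pi (fun _ : Q k => U) {s | Function.update η k s ∈ A} ∂(PQ Q) := by
  have h := Pool.Agent.H853R3.PP.Resample.taskResample ℕ (fun k => Q k → ℝ)
    (fun k => Measure.pi fun _ : Q k => U) k
  have hm := Pool.Agent.H853R3.PP.Resample.measurable_upd (X := fun k => Q k → ℝ) k
  have h2 : PQ Q = Measure.map (fun p : (∀ k, Q k → ℝ) × (Q k → ℝ) => Function.update p.1 k p.2)
      ((PQ Q).prod (Measure.pi fun _ : Q k => U)) := by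
    unfold PQ
    exact h.symm
  conv_lhs => rw [h2]
  rw [Measure.map_apply hm hA, Measure.prod_apply (hm hA)]
  rfl

variable {Ω : Type} [AddCommGroup Ω] [TopologicalSpace Ω] [IsTopologicalAddGroup Ω]
  [CompactSpace Ω] [MeasurableSpace Ω] [BorelSpace Ω]
  (π : ∀ k, Ω → Q k) (f₀ : C(Ω, ℝ)) (e₀ : ℝ)

/-- the random potential -/
noncomputable def FF (η : ∀ k, Q k → ℝ) (ω : Ω) : ℝ :=
  f₀ ω + ∑' k, e₀ / 2 ^ k * cl (η k (π k ω))

theorem geo_sum (e₀ : ℝ) : HasSum (fun k : ℕ => e₀ / 2 ^ k) (2 * e₀) := by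
  have h := (hasSum_geometric_two).mul_left e₀
  rw [mul_comm e₀ 2] at h
  refine h.congr_fun ?_
  intro k
  rw [one_div, inv_pow, div_eq_mul_inv]

omit [∀ k, Fintype (Q k)] [AddCommGroup Ω] [TopologicalSpace Ω] [IsTopologicalAddGroup Ω]
  [CompactSpace Ω] [MeasurableSpace Ω] [BorelSpace Ω] in
theorem term_bound (he : 0 ≤ e₀) (η : ∀ k, Q k → ℝ) (ω : Ω) (k : ℕ) :
    ‖e₀ / 2 ^ k * cl (η k (π k ω))‖ ≤ e₀ / 2 ^ k := by
  rw [Real.norm_eq_abs, abs_mul, abs_of_nonneg (by positivity : 0 ≤ e₀ / 2 ^ k)]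
  exact mul_le_of_le_one_right (by positivity) (cl_abs _)

omit [∀ k, Fintype (Q k)] [AddCommGroup Ω] [TopologicalSpace Ω] [IsTopologicalAddGroup Ω]
  [CompactSpace Ω] [MeasurableSpace Ω] [BorelSpace Ω] in
theorem term_summable (he : 0 ≤ e₀) (η : ∀ k, Q k → ℝ) (ω : Ω) :
    Summable fun k : ℕ => e₀ / 2 ^ k * cl (η k (π k ω)) :=
  Summable.of_norm_bounded (geo_sum e₀).summable (term_bound Q π e₀ he η ω)

omit [∀ k, Fintype (Q k)] [AddCommGroup Ω] [IsTopologicalAddGroup Ω]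
  [CompactSpace Ω] [MeasurableSpace Ω] [BorelSpace Ω] in
theorem FF_cont (he : 0 ≤ e₀) (hπ : ∀ k, ∀ g : Q k → ℝ, Continuous fun ω => g (π k ω))
    (η : ∀ k, Q k → ℝ) : Continuous (FF Q π f₀ e₀ η) := by
  unfold FF
  refine f₀.continuous.add ?_
  exact continuous_tsum (fun k => continuous_const.mul (cl_cont.comp (hπ k (η k))))
    (geo_sum e₀).summable (fun k ω => term_bound Q π e₀ he η ω k)

omit [AddCommGroup Ω] [IsTopologicalAddGroup Ω] [CompactSpace Ω] in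
theorem eval_meas (hπ : ∀ k, ∀ g : Q k → ℝ, Continuous fun ω => g (π k ω)) (k : ℕ) :
    Measurable fun p : (∀ k, Q k → ℝ) × Ω => p.1 k (π k p.2) := by
  classical
  have h1 : (fun p : (∀ k, Q k → ℝ) × Ω => p.1 k (π k p.2)) = fun p =>
      ∑ q : Q k, (if q = π k p.2 then (1 : ℝ) else 0) * p.1 k q := by
    funext p
    simp [ite_mul]
  rw [h1]
  refine Finset.measurable_sum _ fun q _ => ?_
  have h2 : Measurable fun p : (∀ k, Q k → ℝ) × Ω => (if q = π k p.2 then (1 : ℝ) else 0) :=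
    (hπ k fun q' => if q = q' then (1 : ℝ) else 0).measurable.comp measurable_snd
  exact h2.mul (by fun_prop)

omit [AddCommGroup Ω] [IsTopologicalAddGroup Ω] [CompactSpace Ω] in
theorem FF_meas (he : 0 ≤ e₀) (hπ : ∀ k, ∀ g : Q k → ℝ, Continuous fun ω => g (π k ω)) :
    Measurable fun p : (∀ k, Q k → ℝ) × Ω => FF Q π f₀ e₀ p.1 p.2 := by
  unfold FF
  refine (f₀.continuous.measurable.comp measurable_snd).add ?_
  refine measurable_of_tendsto_metrizable (f := fun n (p : (∀ k, Q k → ℝ) × Ω) =>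
    ∑ k ∈ Finset.range n, e₀ / 2 ^ k * cl (p.1 k (π k p.2))) ?_ ?_
  · intro n
    refine Finset.measurable_sum _ fun k _ => ?_
    exact measurable_const.mul (cl_cont.measurable.comp (eval_meas Q π hπ k))
  · rw [tendsto_pi_nhds]
    intro p
    exact (term_summable Q π e₀ he p.1 p.2).hasSum.tendsto_sum_nat

omit [∀ k, Fintype (Q k)] [AddCommGroup Ω] [IsTopologicalAddGroup Ω]
  [MeasurableSpace Ω] [BorelSpace Ω] in
theorem FF_split (he : 0 ≤ e₀) (k : ℕ) (η : ∀ k, Q k → ℝ) :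
    ∃ w : Ω → ℝ, (∀ ω, |w ω| ≤ ‖f₀‖ + 2 * e₀) ∧ ∀ (s : Q k → ℝ) (ω : Ω),
      FF Q π f₀ e₀ (Function.update η k s) ω = w ω + e₀ / 2 ^ k * cl (s (π k ω)) := by
  refine ⟨fun ω => f₀ ω + ∑' j, (if j = k then 0 else e₀ / 2 ^ j * cl (η j (π j ω))), ?_, ?_⟩
  · intro ω
    refine (abs_add_le _ _).trans (add_le_add (f₀.norm_coe_le_norm ω) ?_)
    rw [← (geo_sum e₀).tsum_eq, ← Real.norm_eq_abs]
    refine tsum_of_norm_bounded (geo_sum e₀).summable.hasSum fun j => ?_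
    by_cases hj : j = k
    · rw [if_pos hj, norm_zero]
      positivity
    · rw [if_neg hj]
      exact term_bound Q π e₀ he η ω j
  · intro s ω
    unfold FF
    rw [(term_summable Q π e₀ he (Function.update η k s) ω).tsum_eq_add_tsum_ite k,
      Function.update_self]
    have h1 : (fun j => if j = k then 0 else
        e₀ / 2 ^ j * cl (Function.update η k s j (π j ω))) = fun j => if j = k then 0 else
        e₀ / 2 ^ j * cl (η j (π j ω)) := by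
      funext j
      by_cases hj : j = k
      · rw [if_pos hj, if_pos hj]
      · rw [if_neg hj, if_neg hj, Function.update_of_ne hj]
    rw [h1]
    ring

omit [AddCommGroup Ω] [IsTopologicalAddGroup Ω] in
/-- probability of an event in a window -/
theorem window_prob (he : 0 ≤ e₀) (he2 : e₀ ≤ 1 / 2)
    (hπ : ∀ k, ∀ g : Q k → ℝ, Continuous fun ω => g (π k ω)) (k L : ℕ)
    (v : ℤ → Ω) (hv : Set.InjOn (fun n => π k (v n)) (Set.Icc (-(L : ℤ)) L))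
    (B : Set (ℤ → ℝ)) (hB : MeasurableSet B)
    (hloc : ∀ V V' : ℤ → ℝ, (∀ n, -(L : ℤ) ≤ n → n ≤ L → V n = V' n) → (V ∈ B ↔ V' ∈ B))
    (b : ℝ≥0∞) (hb : ∀ W : ℤ → ℝ, (∀ n, |W n| ≤ ‖f₀‖ + 1) →
      PZ {x | (fun n => W n + e₀ / 2 ^ k * x n) ∈ B} ≤ b) :
    PQ Q {η | (fun n => FF Q π f₀ e₀ η (v n)) ∈ B} ≤ b := by
  have hm : Measurable fun (η : ∀ k, Q k → ℝ) (n : ℤ) => FF Q π f₀ e₀ η (v n) := by
    refine measurable_pi_lambda _ fun n => ?_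
    exact (FF_meas Q π f₀ e₀ he hπ).comp (measurable_id.prodMk measurable_const)
  have h0 := resampleQ Q k _ (hm hB)
  have h00 : PQ Q {η | (fun n => FF Q π f₀ e₀ η (v n)) ∈ B} =
    PQ Q ((fun (η : ∀ k, Q k → ℝ) (n : ℤ) => FF Q π f₀ e₀ η (v n)) ⁻¹' B) := rfl
  rw [h00, h0]
  have h1 : ∀ η : ∀ k, Q k → ℝ, Measure.pi (fun _ : Q k => U)
      {s | Function.update η k s ∈ (fun (η : ∀ k, Q k → ℝ) (n : ℤ) => FF Q π f₀ e₀ η (v n)) ⁻¹' B}
      ≤ b := by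
    intro η
    obtain ⟨w, hw1, hw2⟩ := FF_split Q π f₀ e₀ he k η
    have h2 : {s | Function.update η k s ∈
        (fun (η : ∀ k, Q k → ℝ) (n : ℤ) => FF Q π f₀ e₀ η (v n)) ⁻¹' B} =
        {s : Q k → ℝ | (fun n => w (v n) + e₀ / 2 ^ k * cl (s (π k (v n)))) ∈ B} := by
      ext s
      show (fun n => FF Q π f₀ e₀ (Function.update η k s) (v n)) ∈ B ↔ _
      simp only [hw2]
      rfl
    rw [h2]
    refine (transfer (Q k) (fun n => π k (v n)) L (fun n => w (v n)) _ B hv hB hloc).trans ?_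
    exact hb _ fun n => (hw1 _).trans (by linarith)
  calc _ ≤ ∫⁻ _ : (∀ k, Q k → ℝ), b ∂(PQ Q) := lintegral_mono h1
    _ = b := by rw [lintegral_const, measure_univ, mul_one]

end main

theorem bad1_loc (L : ℕ) (a τ : ℝ) (V V' : ℤ → ℝ)
    (h : ∀ n, -(L : ℤ) ≤ n → n ≤ L → V n = V' n) :
    V ∈ {V | Bad1 L a τ V} ↔ V' ∈ {V | Bad1 L a τ V} := by
  constructor
  · rintro ⟨E, ψ, h1, h2⟩
    exact ⟨E, ψ, eig_congr h1 h, h2⟩
  · rintro ⟨E, ψ, h1, h2⟩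
    exact ⟨E, ψ, eig_congr h1 fun n a b => (h n a b).symm, h2⟩

theorem bad2_loc (L : ℕ) (d : ℝ) (V V' : ℤ → ℝ)
    (h : ∀ n, -(L : ℤ) ≤ n → n ≤ L → V n = V' n) :
    V ∈ {V | Bad2 L d V} ↔ V' ∈ {V | Bad2 L d V} := by
  constructor
  · rintro ⟨E, ψ, E', ψ', h1, h2, h3⟩
    exact ⟨E, ψ, E', ψ', eig_congr h1 h, eig_congr h2 h, h3⟩
  · rintro ⟨E, ψ, E', ψ', h1, h2, h3⟩
    exact ⟨E, ψ, E', ψ', eig_congr h1 fun n a b => (h n a b).symm,
      eig_congr h2 fun n a b => (h n a b).symm, h3⟩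

theorem bc {X : Type} [MeasurableSpace X] (μ : Measure X) (A : ℕ → Set X) (b : ℕ → ℝ)
    (hb : Summable b) (hb0 : ∀ k, 0 ≤ b k) (h : ∀ k, μ (A k) ≤ ENNReal.ofReal (b k)) :
    ∀ᵐ x ∂μ, ∀ᶠ k in atTop, x ∉ A k := by
  refine ae_eventually_notMem ?_
  refine ne_top_of_le_ne_top ?_ (ENNReal.tsum_le_tsum h)
  rw [← ENNReal.ofReal_tsum_of_nonneg hb0 hb]
  exact ENNReal.ofReal_ne_top

theorem main_abs {Ω : Type} [AddCommGroup Ω] [TopologicalSpace Ω] [IsTopologicalAddGroup Ω]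
    [CompactSpace Ω] [MeasurableSpace Ω] [BorelSpace Ω] (μ : Measure Ω) [IsFiniteMeasure μ]
    (α : Ω) (Q : ℕ → Type) [∀ k, Fintype (Q k)] (π : ∀ k, Ω → Q k)
    (hπ : ∀ k, ∀ g : Q k → ℝ, Continuous fun ω => g (π k ω))
    (hinj : ∀ (k : ℕ) (ω : Ω) (m : ℤ), Set.InjOn (fun n : ℤ => π k (ω + (m + n) • α))
      (Set.Icc (-((16 ^ k : ℕ) : ℤ)) ((16 ^ k : ℕ) : ℤ)))
    (f₀ : C(Ω, ℝ)) (δ : ℝ) (hδ : 0 < δ) :
    ∃ f : C(Ω, ℝ), ‖f - f₀‖ < δ ∧
      ∀ᵐ ω ∂μ, (EigSpan fun n => f (ω + n • α)).topologicalClosure = ⊤ := by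
  obtain ⟨c, C, hc, hc2, hC, hG1⟩ := taskG1
  obtain ⟨C₂, hC₂, hG2⟩ := taskG2
  set e₀ : ℝ := min (1 / 2) (δ / 4) with he₀
  have he : 0 < e₀ := lt_min (by norm_num) (by positivity)
  have he2 : e₀ ≤ 1 / 2 := min_le_left _ _
  have heδ : e₀ ≤ δ / 4 := min_le_right _ _
  set κ : ℝ := c * e₀ ^ 2 with hκdef
  have hκ : 0 < κ := by positivity
  set R : ℝ := ‖f₀‖ + 1 with hR
  have hR1 : 1 ≤ R := by
    rw [hR]
    linarith [norm_nonneg f₀]
  have hekpos : ∀ k : ℕ, 0 < e₀ / 2 ^ k := fun k => by positivity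
  have hek1 : ∀ k : ℕ, e₀ / 2 ^ k ≤ 1 := fun k => by
    rw [div_le_one (by positivity)]
    exact (he2.trans (by norm_num)).trans (one_le_pow₀ (by norm_num))
  -- the events
  have hB1 : ∀ (ω : Ω) (m : ℤ), ∀ᵐ η ∂(PQ Q), ∀ᶠ k : ℕ in atTop,
      ¬ Bad1 (16 ^ k) (Real.exp (-(κ / 8 * 4 ^ k))) (Real.exp (-(κ / 2 * 4 ^ k)))
        (fun n => FF Q π f₀ e₀ η (ω + (m + n) • α)) := by
    intro ω m
    refine bc (PQ Q) (fun k => {η | (fun n => FF Q π f₀ e₀ η (ω + (m + n) • α)) ∈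
      {V | Bad1 (16 ^ k) (Real.exp (-(κ / 8 * 4 ^ k))) (Real.exp (-(κ / 2 * 4 ^ k))) V}})
      (fun k => C * R ^ 2 / e₀ ^ 3 * (8 ^ k * Real.exp (-(κ / 4 * 4 ^ k)))) ?_ ?_ ?_
    · exact (taskNum (κ / 4) 8 (by positivity) (by norm_num)).1.mul_left _
    · intro k
      positivity
    · intro k
      refine window_prob Q π f₀ e₀ he.le he2 hπ k (16 ^ k) (fun n => ω + (m + n) • α)
        (hinj k ω m) _ (taskMeas.1 _ _ _) (bad1_loc _ _ _) _ ?_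
      intro W hW
      refine (hG1 (e₀ / 2 ^ k) R _ _ W (16 ^ k) (hekpos k) (hek1 k) hR1 hW
        (Real.exp_pos _) (Real.exp_pos _) (Nat.one_le_pow _ _ (by norm_num))).trans ?_
      exact ENNReal.ofReal_le_ofReal
        (bound1 c C R e₀ hc hc2 hC he (he2.trans (by norm_num)) k)
  have hB2 : ∀ (ω : Ω) (m : ℤ), ∀ᵐ η ∂(PQ Q), ∀ᶠ k : ℕ in atTop,
      ¬ Bad2 (16 ^ k) (Real.exp (-(κ / 16 * 4 ^ k)))
        (fun n => FF Q π f₀ e₀ η (ω + (m + n) • α)) := by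
    intro ω m
    refine bc (PQ Q) (fun k => {η | (fun n => FF Q π f₀ e₀ η (ω + (m + n) • α)) ∈
      {V | Bad2 (16 ^ k) (Real.exp (-(κ / 16 * 4 ^ k))) V}})
      (fun k => 16 * C₂ / e₀ * (131072 ^ k * Real.exp (-(κ / 16 * 4 ^ k)))) ?_ ?_ ?_
    · exact (taskNum (κ / 16) 131072 (by positivity) (by norm_num)).1.mul_left _
    · intro k
      positivity
    · intro k
      refine window_prob Q π f₀ e₀ he.le he2 hπ k (16 ^ k) (fun n => ω + (m + n) • α)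
        (hinj k ω m) _ (taskMeas.2 _ _) (bad2_loc _ _) _ ?_
      intro W _
      refine (hG2 (e₀ / 2 ^ k) _ W (16 ^ k) (hekpos k) (Real.exp_pos _)).trans ?_
      exact ENNReal.ofReal_le_ofReal (bound2 κ C₂ e₀ hC₂ he k)
  -- the good event
  set G : Set ((∀ k, Q k → ℝ) × Ω) := {p | ∀ m : ℤ,
    (∀ᶠ k : ℕ in atTop, ¬ Bad1 (16 ^ k) (Real.exp (-(κ / 8 * 4 ^ k)))
      (Real.exp (-(κ / 2 * 4 ^ k))) (fun n => FF Q π f₀ e₀ p.1 (p.2 + (m + n) • α))) ∧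
    ∀ᶠ k : ℕ in atTop, ¬ Bad2 (16 ^ k) (Real.exp (-(κ / 16 * 4 ^ k)))
      (fun n => FF Q π f₀ e₀ p.1 (p.2 + (m + n) • α))} with hG
  have hFm : ∀ m : ℤ, Measurable fun (p : (∀ k, Q k → ℝ) × Ω) (n : ℤ) =>
      FF Q π f₀ e₀ p.1 (p.2 + (m + n) • α) := by
    intro m
    refine measurable_pi_lambda _ fun n => ?_
    have h1 : Measurable fun ω : Ω => ω + (m + n) • α :=
      (continuous_id.add continuous_const).measurable
    exact (FF_meas Q π f₀ e₀ he.le hπ).comp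
      (measurable_fst.prodMk (h1.comp measurable_snd))
  have hev : ∀ A : ℕ → Set ((∀ k, Q k → ℝ) × Ω), (∀ k, MeasurableSet (A k)) →
      MeasurableSet {p | ∀ᶠ k : ℕ in atTop, ¬ p ∈ A k} := by
    intro A hA
    have h1 : {p | ∀ᶠ k : ℕ in atTop, ¬ p ∈ A k} = ⋃ K : ℕ, ⋂ k : ℕ, ⋂ _ : K ≤ k, (A k)ᶜ := by
      ext p
      simp [eventually_atTop]
    rw [h1]
    exact MeasurableSet.iUnion fun K => MeasurableSet.iInter fun k =>
      MeasurableSet.iInter fun _ => (hA k).compl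
  have hGm : MeasurableSet G := by
    have h1 : G = ⋂ m : ℤ, ({p : (∀ k, Q k → ℝ) × Ω | ∀ᶠ k : ℕ in atTop, ¬ p ∈
        (fun (p : (∀ k, Q k → ℝ) × Ω) (n : ℤ) => FF Q π f₀ e₀ p.1 (p.2 + (m + n) • α)) ⁻¹'
        {V | Bad1 (16 ^ k) (Real.exp (-(κ / 8 * 4 ^ k))) (Real.exp (-(κ / 2 * 4 ^ k))) V}} ∩
        {p : (∀ k, Q k → ℝ) × Ω | ∀ᶠ k : ℕ in atTop, ¬ p ∈
        (fun (p : (∀ k, Q k → ℝ) × Ω) (n : ℤ) => FF Q π f₀ e₀ p.1 (p.2 + (m + n) • α)) ⁻¹'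
        {V | Bad2 (16 ^ k) (Real.exp (-(κ / 16 * 4 ^ k))) V}}) := by
      ext p
      simp only [Set.mem_iInter]
      rfl
    rw [h1]
    exact MeasurableSet.iInter fun m => (hev _ fun k => hFm m (taskMeas.1 _ _ _)).inter
      (hev _ fun k => hFm m (taskMeas.2 _ _))
  have hae : ∀ᵐ ω ∂μ, ∀ᵐ η ∂(PQ Q), (η, ω) ∈ G := by
    refine Eventually.of_forall fun ω => ?_
    have h1 : ∀ᵐ η ∂(PQ Q), ∀ m : ℤ, (∀ᶠ k : ℕ in atTop,
      ¬ Bad1 (16 ^ k) (Real.exp (-(κ / 8 * 4 ^ k))) (Real.exp (-(κ / 2 * 4 ^ k)))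
        (fun n => FF Q π f₀ e₀ η (ω + (m + n) • α))) := ae_all_iff.2 (hB1 ω)
    have h2 : ∀ᵐ η ∂(PQ Q), ∀ m : ℤ, (∀ᶠ k : ℕ in atTop,
      ¬ Bad2 (16 ^ k) (Real.exp (-(κ / 16 * 4 ^ k)))
        (fun n => FF Q π f₀ e₀ η (ω + (m + n) • α))) := ae_all_iff.2 (hB2 ω)
    filter_upwards [h1, h2] with η g1 g2
    exact fun m => ⟨g1 m, g2 m⟩
  have hae2 : ∀ᵐ η ∂(PQ Q), ∀ᵐ ω ∂μ, (η, ω) ∈ G :=
    (Measure.ae_ae_comm (μ := PQ Q) (ν := μ) (p := fun η ω => (η, ω) ∈ G) hGm).2 hae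
  obtain ⟨η, hη⟩ := hae2.exists
  refine ⟨⟨FF Q π f₀ e₀ η, FF_cont Q π f₀ e₀ he.le hπ η⟩, ?_, ?_⟩
  · refine lt_of_le_of_lt (b := 2 * e₀) ?_ (by linarith)
    refine (ContinuousMap.norm_le _ (by positivity)).2 fun ω => ?_
    have h1 : (⟨FF Q π f₀ e₀ η, FF_cont Q π f₀ e₀ he.le hπ η⟩ - f₀ : C(Ω, ℝ)) ω =
        ∑' k, e₀ / 2 ^ k * cl (η k (π k ω)) := by
      show f₀ ω + _ - f₀ ω = _
      ring
    rw [h1, ← (geo_sum e₀).tsum_eq]
    exact tsum_of_norm_bounded (geo_sum e₀).summable.hasSum fun j => term_bound Q π e₀ he.le η ω j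
  · filter_upwards [hη] with ω hω
    refine taskTop _ fun m => ?_
    exact params κ hκ _ (hω m).1 (hω m).2

end Pool.Agent.Y661.PP
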