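import Pool.Agent.Y661.PP.SA

/-!
Spectral theorem on finite boxes: `TaskApprox`, `TaskCard`, `TaskCompl`, `TaskStep`, `TaskSplit`.
-/

set_option autoImplicit false

open scoped BigOperators ENNReal NNReal
open MeasureTheory

namespace Pool.Agent.Y661.PP

open Pool.Agent.H695R3.PP

/-- sites of the box -/
abbrev Bx (a b : ℤ) : Type := {n : ℤ // n ∈ Finset.Icc a b}

/-- matrix of the operator on the box -/
noncomputable def mat (V : ℤ → ℝ) (a b : ℤ) : Matrix (Bx a b) (Bx a b) ℝ :=
  Matrix.of fun i j => (if (j : ℤ) = i + 1 then 1 else 0) + (if (j : ℤ) = i - 1 then 1 else 0) +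
    (if i = j then V i else 0)

theorem mat_herm (V : ℤ → ℝ) (a b : ℤ) : (mat V a b).IsHermitian := by
  ext i j
  unfold mat
  simp only [Matrix.conjTranspose_apply, Matrix.of_apply, star_trivial]
  have h1 : ((i : ℤ) = j + 1) ↔ ((j : ℤ) = i - 1) := by constructor <;> intro h <;> omega
  have h2 : ((i : ℤ) = j - 1) ↔ ((j : ℤ) = i + 1) := by constructor <;> intro h <;> omega
  simp only [h1, h2]
  by_cases h : i = j
  · subst h
    ring
  · rw [if_neg h, if_neg (Ne.symm h)]
    ring

/-- extension by zero -/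
noncomputable def ext0 {a b : ℤ} (f : Bx a b → ℝ) (n : ℤ) : ℝ :=
  if h : n ∈ Finset.Icc a b then f ⟨n, h⟩ else 0

theorem ext0_in {a b : ℤ} (f : Bx a b → ℝ) (i : Bx a b) : ext0 f i = f i := by
  unfold ext0
  rw [dif_pos i.2]

theorem ext0_out {a b : ℤ} (f : Bx a b → ℝ) (n : ℤ) (h : n < a ∨ b < n) : ext0 f n = 0 := by
  unfold ext0
  rw [dif_neg]
  rw [Finset.mem_Icc]
  omega

theorem sum_box {a b : ℤ} (F : ℤ → ℝ) : ∑ n ∈ Finset.Icc a b, F n = ∑ i : Bx a b, F i :=
  (Finset.sum_coe_sort (Finset.Icc a b) F).symm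

theorem mat_mulVec (V : ℤ → ℝ) (a b : ℤ) (f : Bx a b → ℝ) (i : Bx a b) :
    (mat V a b).mulVec f i = ext0 f (i + 1) + ext0 f (i - 1) + V i * f i := by
  unfold Matrix.mulVec dotProduct mat
  simp only [Matrix.of_apply, add_mul, Finset.sum_add_distrib]
  congr 1
  · congr 1
    · have h1 : ∀ j : Bx a b, (if (j : ℤ) = i + 1 then (1 : ℝ) else 0) * f j =
          (fun n : ℤ => if n = i + 1 then ext0 f (i + 1) else 0) j := by
        intro j
        by_cases h : (j : ℤ) = i + 1
        · simp only [h, if_true, one_mul]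
          rw [← h, ext0_in]
        · simp only [h, if_false, zero_mul]
      rw [Finset.sum_congr rfl fun j _ => h1 j, ← sum_box (a := a) (b := b)
        (fun n : ℤ => if n = i + 1 then ext0 f (i + 1) else 0), Finset.sum_ite_eq']
      split_ifs with h
      · rfl
      · unfold ext0
        rw [dif_neg h]
    · have h1 : ∀ j : Bx a b, (if (j : ℤ) = i - 1 then (1 : ℝ) else 0) * f j =
          (fun n : ℤ => if n = i - 1 then ext0 f (i - 1) else 0) j := by
        intro j
        by_cases h : (j : ℤ) = i - 1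
        · simp only [h, if_true, one_mul]
          rw [← h, ext0_in]
        · simp only [h, if_false, zero_mul]
      rw [Finset.sum_congr rfl fun j _ => h1 j, ← sum_box (a := a) (b := b)
        (fun n : ℤ => if n = i - 1 then ext0 f (i - 1) else 0), Finset.sum_ite_eq']
      split_ifs with h
      · rfl
      · unfold ext0
        rw [dif_neg h]
  · simp

/-- The spectral theorem for a box. -/
theorem box_spec (V : ℤ → ℝ) (a b : ℤ) : ∃ (e : Bx a b → ℝ) (ψ : Bx a b → ℤ → ℝ),
    (∀ j, IsEig V a b (e j) (ψ j)) ∧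
    (∀ i j, ∑ n ∈ Finset.Icc a b, ψ i n * ψ j n = if i = j then 1 else 0) ∧
    ∀ f : ℤ → ℝ, (∀ n, n < a ∨ b < n → f n = 0) →
      (∀ n, f n = ∑ j, (∑ m ∈ Finset.Icc a b, ψ j m * f m) * ψ j n) ∧
      nsq a b f = ∑ j, (∑ m ∈ Finset.Icc a b, ψ j m * f m) ^ 2 := by
  classical
  set hM := mat_herm V a b
  set B := hM.eigenvectorBasis with hB
  have hin : ∀ f g : EuclideanSpace ℝ (Bx a b), inner ℝ f g = ∑ i, f i * g i := by
    intro f g
    rw [PiLp.inner_apply]
    refine Finset.sum_congr rfl fun i _ => ?_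
    simp [mul_comm]
  refine ⟨hM.eigenvalues, fun j => ext0 (fun i => B j i), ?_, ?_, ?_⟩
  · intro j
    refine ⟨fun n hn => ext0_out _ n hn, ?_, ?_⟩
    · unfold nsq
      rw [sum_box]
      have h1 : inner ℝ (B j) (B j) = (1 : ℝ) := by
        rw [B.inner_eq_ite]
        simp
      rw [hin] at h1
      rw [← h1]
      refine Finset.sum_congr rfl fun i _ => ?_
      simp only [ext0_in]
      ring
    · intro n hn1 hn2
      have hn : n ∈ Finset.Icc a b := Finset.mem_Icc.2 ⟨hn1, hn2⟩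
      have h1 := hM.mulVec_eigenvectorBasis j
      have h2 := congrFun h1 ⟨n, hn⟩
      have h3 := mat_mulVec V a b (fun i => B j i) ⟨n, hn⟩
      have h4 : ext0 (fun i => B j i) n = B j ⟨n, hn⟩ := ext0_in (a := a) (b := b) _ ⟨n, hn⟩
      beta_reduce
      rw [h4]
      simp only at h3
      rw [← h3]
      simpa using h2
  · intro i j
    rw [sum_box]
    have h1 := B.inner_eq_ite i j
    rw [hin] at h1
    rw [← h1]
    refine Finset.sum_congr rfl fun n _ => ?_
    simp only [ext0_in]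
  · intro f hf
    set g : EuclideanSpace ℝ (Bx a b) := WithLp.toLp 2 (fun i => f i) with hg
    have hgi : ∀ i, g i = f i := fun i => rfl
    have hc : ∀ j, ∑ m ∈ Finset.Icc a b, ext0 (fun i => B j i) m * f m = inner ℝ (B j) g := by
      intro j
      rw [sum_box, hin]
      refine Finset.sum_congr rfl fun n _ => ?_
      simp only [ext0_in, hgi]
    have h1 := B.sum_repr' g
    constructor
    · intro n
      by_cases hn : n ∈ Finset.Icc a b
      · have h2 := congrArg (fun v : EuclideanSpace ℝ (Bx a b) => v ⟨n, hn⟩) h1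
        simp only [hgi] at h2
        rw [← h2, WithLp.ofLp_sum, Finset.sum_apply]
        refine Finset.sum_congr rfl fun j _ => ?_
        rw [hc]
        have h4 : ext0 (fun i => B j i) n = B j ⟨n, hn⟩ := ext0_in (a := a) (b := b) _ ⟨n, hn⟩
        beta_reduce
        rw [h4]
        simp
      · have hn' : n < a ∨ b < n := by
          rw [Finset.mem_Icc] at hn
          omega
        rw [hf n hn']
        symm
        apply Finset.sum_eq_zero
        intro j _
        beta_reduce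
        rw [ext0_out (fun i => B j i) n hn', mul_zero]
    · have h2 := B.sum_sq_norm_inner_right g
      have h3 : ‖g‖ ^ 2 = nsq a b f := by
        rw [← real_inner_self_eq_norm_sq, hin]
        unfold nsq
        rw [sum_box]
        refine Finset.sum_congr rfl fun i _ => ?_
        simp only [hgi]
        ring
      rw [← h3, ← h2]
      refine Finset.sum_congr rfl fun j _ => ?_
      rw [hc, Real.norm_eq_abs, sq_abs]

/-- the operator -/
noncomputable def Hop (V : ℤ → ℝ) (f : ℤ → ℝ) (n : ℤ) : ℝ := f (n + 1) + f (n - 1) + V n * f n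

/-- symmetry against an eigenvector -/
theorem sym_eig (V : ℤ → ℝ) (a b : ℤ) (e : ℝ) (φ f : ℤ → ℝ) (h : IsEig V a b e φ)
    (hf : ∀ n, n < a ∨ b < n → f n = 0) :
    ∑ n ∈ Finset.Icc a b, φ n * Hop V f n = e * ∑ n ∈ Finset.Icc a b, φ n * f n := by
  have h1 := green a b f φ hf h.1
  have h2 : ∑ n ∈ Finset.Icc a b, φ n * Hop V f n =
      ∑ n ∈ Finset.Icc a b, φ n * (f (n + 1) + f (n - 1)) +
      ∑ n ∈ Finset.Icc a b, V n * f n * φ n := by
    rw [← Finset.sum_add_distrib]
    refine Finset.sum_congr rfl fun n _ => ?_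
    unfold Hop
    ring
  rw [h2, h1, ← Finset.sum_add_distrib, Finset.mul_sum]
  refine Finset.sum_congr rfl fun n hn => ?_
  rw [Finset.mem_Icc] at hn
  have := h.2.2 n hn.1 hn.2
  calc f n * (φ (n + 1) + φ (n - 1)) + V n * f n * φ n
      = f n * (φ (n + 1) + φ (n - 1) + V n * φ n) := by ring
    _ = _ := by rw [this]; ring

/-- Parseval for the residual -/
theorem parseval_res (V : ℤ → ℝ) (a b : ℤ) (e : Bx a b → ℝ) (ψ : Bx a b → ℤ → ℝ)
    (h1 : ∀ j, IsEig V a b (e j) (ψ j))
    (h3 : ∀ f : ℤ → ℝ, (∀ n, n < a ∨ b < n → f n = 0) →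
      (∀ n, f n = ∑ j, (∑ m ∈ Finset.Icc a b, ψ j m * f m) * ψ j n) ∧
      nsq a b f = ∑ j, (∑ m ∈ Finset.Icc a b, ψ j m * f m) ^ 2)
    (E : ℝ) (f : ℤ → ℝ) (hf : ∀ n, n < a ∨ b < n → f n = 0) :
    ∑ n ∈ Finset.Icc a b, (Hop V f n - E * f n) ^ 2 =
      ∑ j, (e j - E) ^ 2 * (∑ m ∈ Finset.Icc a b, ψ j m * f m) ^ 2 := by
  set g : ℤ → ℝ := fun n => if n ∈ Finset.Icc a b then Hop V f n - E * f n else 0 with hg
  have hg0 : ∀ n, n < a ∨ b < n → g n = 0 := by
    intro n hn
    simp only [hg]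
    rw [if_neg]
    rw [Finset.mem_Icc]
    omega
  have h4 := (h3 g hg0).2
  have h5 : nsq a b g = ∑ n ∈ Finset.Icc a b, (Hop V f n - E * f n) ^ 2 := by
    unfold nsq
    refine Finset.sum_congr rfl fun n hn => ?_
    simp only [hg, if_pos hn]
  rw [← h5, h4]
  refine Finset.sum_congr rfl fun j _ => ?_
  have h6 : ∑ m ∈ Finset.Icc a b, ψ j m * g m = (e j - E) * ∑ m ∈ Finset.Icc a b, ψ j m * f m := by
    have h7 : ∑ m ∈ Finset.Icc a b, ψ j m * g m =
        ∑ m ∈ Finset.Icc a b, ψ j m * Hop V f m - E * ∑ m ∈ Finset.Icc a b, ψ j m * f m := by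
      rw [Finset.mul_sum, ← Finset.sum_sub_distrib]
      refine Finset.sum_congr rfl fun n hn => ?_
      simp only [hg, if_pos hn]
      ring
    rw [h7, sym_eig V a b (e j) (ψ j) f (h1 j) hf]
    ring
  rw [h6, mul_pow]

theorem taskApprox : TaskApprox := by
  intro V a b E δ f hδ hf hpos h
  obtain ⟨e, ψ, h1, h2, h3⟩ := box_spec V a b
  have h4 := parseval_res V a b e ψ h1 h3 E f hf
  have h5 : ∑ n ∈ Finset.Icc a b, (f (n + 1) + f (n - 1) + V n * f n - E * f n) ^ 2 =
      ∑ n ∈ Finset.Icc a b, (Hop V f n - E * f n) ^ 2 := rfl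
  rw [h5, h4, (h3 f hf).2, Finset.mul_sum] at h
  rw [(h3 f hf).2] at hpos
  by_contra hcon
  push Not at hcon
  have h6 : ∀ j, δ < |e j - E| := fun j => hcon (e j) (ψ j) (h1 j)
  obtain ⟨j, _, hj⟩ := Finset.exists_ne_zero_of_sum_ne_zero hpos.ne'
  have h7 : ∑ j, δ ^ 2 * (∑ m ∈ Finset.Icc a b, ψ j m * f m) ^ 2 <
      ∑ j, (e j - E) ^ 2 * (∑ m ∈ Finset.Icc a b, ψ j m * f m) ^ 2 := by
    refine Finset.sum_lt_sum (fun i _ => ?_) ⟨j, Finset.mem_univ _, ?_⟩
    · have := h6 i
      have h8 : δ ^ 2 ≤ (e i - E) ^ 2 := by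
        rw [← sq_abs (e i - E)]
        exact pow_le_pow_left₀ hδ this.le 2
      exact mul_le_mul_of_nonneg_right h8 (sq_nonneg _)
    · have := h6 j
      have h8 : δ ^ 2 < (e j - E) ^ 2 := by
        rw [← sq_abs (e j - E)]
        exact pow_lt_pow_left₀ this hδ (by norm_num)
      exact mul_lt_mul_of_pos_right h8 (lt_of_le_of_ne (sq_nonneg _) (Ne.symm hj))
  linarith

theorem taskCard : TaskCard := by
  classical
  intro V a b hab
  obtain ⟨e, ψ, h1, h2, h3⟩ := box_spec V a b
  refine ⟨Finset.univ.image e, ?_, ?_⟩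
  · have h4 : (Finset.univ.image e).card ≤ Fintype.card (Bx a b) := by
      refine Finset.card_image_le.trans ?_
      rfl
    have h5 : Fintype.card (Bx a b) = (Finset.Icc a b).card := Fintype.card_coe _
    rw [h5, Int.card_Icc] at h4
    have h6 : (((b + 1 - a).toNat : ℕ) : ℤ) = b + 1 - a := Int.toNat_of_nonneg (by linarith)
    have h7 : (((Finset.univ.image e).card : ℕ) : ℤ) ≤ (((b + 1 - a).toNat : ℕ) : ℤ) := by
      exact_mod_cast h4
    linarith
  · intro E φ hφ
    have h4 := parseval_res V a b e ψ h1 h3 E φ hφ.1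
    have h5 : ∑ n ∈ Finset.Icc a b, (Hop V φ n - E * φ n) ^ 2 = 0 := by
      refine Finset.sum_eq_zero fun n hn => ?_
      rw [Finset.mem_Icc] at hn
      have := hφ.2.2 n hn.1 hn.2
      unfold Hop
      rw [this]
      ring
    rw [h5] at h4
    have h6 := (h3 φ hφ.1).2
    rw [hφ.2.1] at h6
    obtain ⟨j, _, hj⟩ := Finset.exists_ne_zero_of_sum_ne_zero (h6 ▸ one_ne_zero)
    have h7 := (Finset.sum_eq_zero_iff_of_nonneg (fun i _ => by positivity)).1 h4.symm j
      (Finset.mem_univ _)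
    have h8 : (e j - E) ^ 2 = 0 := by
      rcases mul_eq_zero.1 h7 with h | h
      · exact h
      · exact absurd h hj
    have h9 : e j = E := by
      have := pow_eq_zero_iff (two_ne_zero) |>.1 h8
      linarith
    exact Finset.mem_image.2 ⟨j, Finset.mem_univ _, h9⟩

theorem taskCompl : TaskCompl := by
  classical
  intro V L
  obtain ⟨e, ψ, h1, h2, h3⟩ := box_spec V (-(L : ℤ)) L
  have hcard : Fintype.card (Bx (-(L : ℤ)) L) = 2 * L + 1 := by
    rw [Fintype.card_coe, Int.card_Icc]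
    omega
  set eq := (Fintype.equivFinOfCardEq hcard).symm with heq
  refine ⟨fun j => e (eq j), fun j => ψ (eq j), fun j => h1 _, ?_, ?_⟩
  · intro n
    have h4 := (h3 (fun n => if n = 0 then 1 else 0) (by
      intro m hm
      rw [if_neg]
      rintro rfl
      rcases hm with hm | hm <;> omega)).1 n
    rw [h4, ← Equiv.sum_comp eq (fun j => (∑ m ∈ Finset.Icc (-(L : ℤ)) L, ψ j m *
      (if m = 0 then (1 : ℝ) else 0)) * ψ j n)]
    refine Finset.sum_congr rfl fun j _ => ?_
    congr 1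
    have h5 : ∀ m : ℤ, ψ (eq j) m * (if m = 0 then (1 : ℝ) else 0) =
        if m = 0 then ψ (eq j) 0 else 0 := by
      intro m
      split_ifs with h
      · rw [h, mul_one]
      · rw [mul_zero]
    rw [Finset.sum_congr rfl fun m _ => h5 m, Finset.sum_ite_eq', if_pos]
    rw [Finset.mem_Icc]
    omega
  · intro c
    have h4 : ∀ n : ℤ, (∑ j, c j * ψ (eq j) n) ^ 2 =
        ∑ i, ∑ j, c i * c j * (ψ (eq i) n * ψ (eq j) n) := by
      intro n
      rw [sq, Finset.sum_mul_sum]
      refine Finset.sum_congr rfl fun i _ => Finset.sum_congr rfl fun j _ => ?_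
      ring
    rw [Finset.sum_congr rfl fun n _ => h4 n, Finset.sum_comm]
    refine Finset.sum_congr rfl fun i _ => ?_
    rw [Finset.sum_comm]
    have h5 : ∀ j, ∑ n ∈ Finset.Icc (-(L : ℤ)) L, c i * c j * (ψ (eq i) n * ψ (eq j) n) =
        if j = i then c i ^ 2 else 0 := by
      intro j
      rw [← Finset.mul_sum, h2]
      by_cases h : j = i
      · subst h
        simp
        ring
      · rw [if_neg h, if_neg (fun h' => h (eq.injective h').symm), mul_zero]
    rw [Finset.sum_congr rfl fun j _ => h5 j, Finset.sum_ite_eq' Finset.univ i, if_pos (Finset.mem_univ _)]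

end Pool.Agent.Y661.PP
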