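import Pool.Agent.Y661.PP.Box

/-!
`TaskStep`, `TaskSplit`.
-/

set_option autoImplicit false

open scoped BigOperators ENNReal NNReal
open MeasureTheory

namespace Pool.Agent.Y661.PP

open Pool.Agent.H695R3.PP

/-- linear combinations -/
theorem comb_eig (V : ℤ → ℝ) (a b : ℤ) (e : Bx a b → ℝ) (ψ : Bx a b → ℤ → ℝ)
    (h1 : ∀ j, IsEig V a b (e j) (ψ j))
    (h2 : ∀ i j, ∑ n ∈ Finset.Icc a b, ψ i n * ψ j n = if i = j then 1 else 0)
    (h3 : ∀ f : ℤ → ℝ, (∀ n, n < a ∨ b < n → f n = 0) →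
      (∀ n, f n = ∑ j, (∑ m ∈ Finset.Icc a b, ψ j m * f m) * ψ j n) ∧
      nsq a b f = ∑ j, (∑ m ∈ Finset.Icc a b, ψ j m * f m) ^ 2) (γ : Bx a b → ℝ) :
    (∀ n, n < a ∨ b < n → ∑ j, γ j * ψ j n = 0) ∧
    (∀ i, ∑ m ∈ Finset.Icc a b, ψ i m * ∑ j, γ j * ψ j m = γ i) ∧
    nsq a b (fun n => ∑ j, γ j * ψ j n) = ∑ j, γ j ^ 2 := by
  have g1 : ∀ n, n < a ∨ b < n → ∑ j, γ j * ψ j n = 0 := by
    intro n hn
    refine Finset.sum_eq_zero fun j _ => ?_
    rw [(h1 j).1 n hn, mul_zero]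
  have g2 : ∀ i, ∑ m ∈ Finset.Icc a b, ψ i m * ∑ j, γ j * ψ j m = γ i := by
    intro i
    have e1 : ∀ m, ψ i m * ∑ j, γ j * ψ j m = ∑ j, γ j * (ψ i m * ψ j m) := by
      intro m
      rw [Finset.mul_sum]
      refine Finset.sum_congr rfl fun j _ => ?_
      ring
    rw [Finset.sum_congr rfl fun m _ => e1 m, Finset.sum_comm]
    have e2 : ∀ j, ∑ m ∈ Finset.Icc a b, γ j * (ψ i m * ψ j m) = if i = j then γ j else 0 := by
      intro j
      rw [← Finset.mul_sum, h2]
      split_ifs <;> simp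
    rw [Finset.sum_congr rfl fun j _ => e2 j, Finset.sum_ite_eq, if_pos (Finset.mem_univ _)]
  refine ⟨g1, g2, ?_⟩
  have g3 := (h3 (fun n => ∑ j, γ j * ψ j n) g1).2
  rw [g3]
  refine Finset.sum_congr rfl fun i _ => ?_
  rw [g2 i]

theorem taskStep : TaskStep := by
  classical
  intro V L L' E τ d ψ hLL hτ hd hbad hψ hL hL2
  obtain ⟨e, φ, h1, h2, h3⟩ := box_spec V (-(L' : ℤ)) L'
  have hLz : (L : ℤ) < L' := by exact_mod_cast hLL
  have hL0 : (0 : ℤ) ≤ L := Int.natCast_nonneg L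
  have hout : ∀ n, n < -(L' : ℤ) ∨ (L' : ℤ) < n → ψ n = 0 := fun n hn => hψ.1 n (by omega)
  -- the norm in the large box
  have hn1 : nsq (-(L' : ℤ)) L' ψ = 1 := by
    rw [← hψ.2.1]
    unfold nsq
    symm
    refine Finset.sum_subset (Finset.Icc_subset_Icc (by omega) (by omega)) fun n _ hn => ?_
    rw [Finset.mem_Icc] at hn
    rw [hψ.1 n (by omega)]
    ring
  -- the residual
  have hres : ∑ n ∈ Finset.Icc (-(L' : ℤ)) L', (Hop V ψ n - E * ψ n) ^ 2 ≤ 2 * τ ^ 2 := by
    have e1 : ∀ n ∈ Finset.Icc (-(L' : ℤ)) L', (Hop V ψ n - E * ψ n) ^ 2 ≤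
        (if n = L + 1 then τ ^ 2 else 0) + (if n = -(L : ℤ) - 1 then τ ^ 2 else 0) := by
      intro n _
      unfold Hop
      rcases lt_trichotomy n (-(L : ℤ) - 1) with h | h | h
      · rw [hψ.1 (n + 1) (by omega), hψ.1 (n - 1) (by omega), hψ.1 n (by omega),
          if_neg (by omega), if_neg (by omega)]
        ring_nf
        rfl
      · rw [h, hψ.1 (-(L : ℤ) - 1 - 1) (by omega), hψ.1 (-(L : ℤ) - 1) (by omega),
          if_neg (by omega), if_pos rfl, sub_add_cancel]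
        have := sq_le_sq' (abs_le.1 hL2).1 (abs_le.1 hL2).2
        nlinarith
      · rcases lt_trichotomy n (L + 1) with h' | h' | h'
        · have := hψ.2.2 n (by omega) (by omega)
          rw [this, sub_self, if_neg (by omega), if_neg (by omega)]
          norm_num
        · rw [h', hψ.1 ((L : ℤ) + 1 + 1) (by omega), hψ.1 ((L : ℤ) + 1) (by omega),
            if_pos rfl, if_neg (by omega), add_sub_cancel_right]
          have := sq_le_sq' (abs_le.1 hL).1 (abs_le.1 hL).2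
          nlinarith
        · rw [hψ.1 (n + 1) (by omega), hψ.1 (n - 1) (by omega), hψ.1 n (by omega),
            if_neg (by omega), if_neg (by omega)]
          ring_nf
          rfl
    refine (Finset.sum_le_sum e1).trans ?_
    rw [Finset.sum_add_distrib, Finset.sum_ite_eq', Finset.sum_ite_eq', if_pos (by
      rw [Finset.mem_Icc]; omega), if_pos (by rw [Finset.mem_Icc]; omega)]
    linarith
  set c : Bx (-(L' : ℤ)) L' → ℝ := fun j => ∑ m ∈ Finset.Icc (-(L' : ℤ)) L', φ j m * ψ m with hc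
  have hpar := parseval_res V (-(L' : ℤ)) L' e φ h1 h3 E ψ hout
  rw [hpar] at hres
  have hcn : ∑ j, c j ^ 2 = 1 := by rw [← hn1, (h3 ψ hout).2]
  -- the eigenvalue
  obtain ⟨j0, hj0⟩ : ∃ j, |e j - E| ≤ 2 * τ := by
    by_contra hcon
    push Not at hcon
    have h4 : ∑ j, (2 * τ) ^ 2 * c j ^ 2 ≤ ∑ j, (e j - E) ^ 2 * c j ^ 2 := by
      refine Finset.sum_le_sum fun j _ => mul_le_mul_of_nonneg_right ?_ (sq_nonneg _)
      rw [← sq_abs (e j - E)]
      exact pow_le_pow_left₀ (by positivity) (hcon j).le 2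
    rw [← Finset.mul_sum, hcn] at h4
    have h5 : (2 * τ) ^ 2 * 1 ≤ 2 * τ ^ 2 := h4.trans hres
    nlinarith [sq_pos_of_pos hτ]
  set E' := e j0 with hE'
  have hdpos : 0 < d := by linarith
  have hgap : ∀ j, e j ≠ E' → d / 2 ≤ |e j - E| := by
    intro j hj
    have h4 : d < |e j - E'| := by
      by_contra hcon
      push Not at hcon
      exact hbad ⟨e j, φ j, E', φ j0, h1 j, h1 j0, hj, hcon⟩
    have h5 : |e j - E'| ≤ |e j - E| + |E' - E| := by
      have := abs_sub_le (e j) E E'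
      rw [abs_sub_comm E E'] at this
      exact this
    linarith
  set S : ℝ := ∑ j, if e j = E' then c j ^ 2 else 0 with hS
  set S' : ℝ := ∑ j, if e j = E' then 0 else c j ^ 2 with hS'
  have hSS : S + S' = 1 := by
    rw [hS, hS', ← Finset.sum_add_distrib, ← hcn]
    refine Finset.sum_congr rfl fun j _ => ?_
    split_ifs <;> simp
  have hS'le : S' * d ^ 2 ≤ 8 * τ ^ 2 := by
    have h4 : (d / 2) ^ 2 * S' ≤ ∑ j, (e j - E) ^ 2 * c j ^ 2 := by
      rw [hS', Finset.mul_sum]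
      refine Finset.sum_le_sum fun j _ => ?_
      split_ifs with h
      · rw [mul_zero]
        positivity
      · refine mul_le_mul_of_nonneg_right ?_ (sq_nonneg _)
        rw [← sq_abs (e j - E)]
        exact pow_le_pow_left₀ (by positivity) (hgap j h) 2
    nlinarith
  have hS'0 : 0 ≤ S' := Finset.sum_nonneg fun j _ => by split_ifs <;> positivity
  have hShalf : 1 / 2 ≤ S := by
    have h5 : S' * d ^ 2 ≤ 1 / 2 * d ^ 2 := by nlinarith
    have h6 : S' ≤ 1 / 2 := le_of_mul_le_mul_right h5 (by positivity)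
    linarith
  have hSpos : 0 < S := by linarith
  set r := Real.sqrt S with hr
  have hrpos : 0 < r := Real.sqrt_pos.2 hSpos
  have hr2 : r ^ 2 = S := Real.sq_sqrt hSpos.le
  set γ : Bx (-(L' : ℤ)) L' → ℝ := fun j => if e j = E' then c j / r else 0 with hγ
  obtain ⟨g1, g2, g3⟩ := comb_eig V _ _ e φ h1 h2 h3 γ
  refine ⟨E', fun n => ∑ j, γ j * φ j n, ⟨g1, ?_, ?_⟩, hj0, ?_⟩
  · rw [g3]
    have h4 : ∀ j, γ j ^ 2 = (if e j = E' then c j ^ 2 else 0) / r ^ 2 := by
      intro j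
      simp only [hγ]
      split_ifs
      · rw [div_pow]
      · simp
    rw [Finset.sum_congr rfl fun j _ => h4 j, ← Finset.sum_div, hr2]
    exact div_self hSpos.ne'
  · intro n hn1 hn2
    rw [← Finset.sum_add_distrib, Finset.mul_sum, ← Finset.sum_add_distrib, Finset.mul_sum]
    refine Finset.sum_congr rfl fun j _ => ?_
    have h4 := (h1 j).2.2 n hn1 hn2
    simp only [hγ]
    split_ifs with h
    · rw [← h]
      calc c j / r * φ j (n + 1) + c j / r * φ j (n - 1) + V n * (c j / r * φ j n)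
          = c j / r * (φ j (n + 1) + φ j (n - 1) + V n * φ j n) := by ring
        _ = _ := by rw [h4]; ring
    · ring
  · have h4 : ∀ n, ψ n - ∑ j, γ j * φ j n = ∑ j, (c j - γ j) * φ j n := by
      intro n
      conv_lhs => rw [(h3 ψ hout).1 n]
      rw [← Finset.sum_sub_distrib]
      refine Finset.sum_congr rfl fun j _ => ?_
      simp only [hc]
      ring
    have h5 := (comb_eig V _ _ e φ h1 h2 h3 (fun j => c j - γ j)).2.2
    have h6 : ∑ n ∈ Finset.Icc (-(L' : ℤ)) L', (ψ n - ∑ j, γ j * φ j n) ^ 2 =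
        ∑ j, (c j - γ j) ^ 2 := by
      rw [← h5]
      unfold nsq
      refine Finset.sum_congr rfl fun n _ => ?_
      rw [h4]
    rw [h6]
    have h7 : ∑ j, (c j - γ j) ^ 2 = S' + (1 - 1 / r) ^ 2 * S := by
      rw [hS', hS, Finset.mul_sum, ← Finset.sum_add_distrib]
      refine Finset.sum_congr rfl fun j _ => ?_
      simp only [hγ]
      split_ifs
      · ring
      · ring
    have h8 : (1 - 1 / r) ^ 2 * S = (r - 1) ^ 2 := by
      rw [← hr2]
      field_simp
    rw [h7, h8, div_pow, le_div_iff₀ (by positivity)]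
    have hr1 : r ≤ 1 := by
      rw [hr]
      exact Real.sqrt_le_one.2 (by linarith)
    have h9 : S' + (r - 1) ^ 2 ≤ 2 * S' := by
      have : S' = 1 - r ^ 2 := by linarith
      rw [this]
      nlinarith
    have h10 : (S' + (r - 1) ^ 2) * d ^ 2 ≤ 2 * S' * d ^ 2 :=
      mul_le_mul_of_nonneg_right h9 (by positivity)
    nlinarith

/-- orthogonality -/
theorem orth (V : ℤ → ℝ) (a b : ℤ) (E E' : ℝ) (ψ ψ' : ℤ → ℝ) (h : IsEig V a b E ψ)
    (h' : IsEig V a b E' ψ') (hE : E ≠ E') : ∑ n ∈ Finset.Icc a b, ψ n * ψ' n = 0 := by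
  have h1 := sym_eig V a b E ψ ψ' h h'.1
  have h2 : ∑ n ∈ Finset.Icc a b, ψ n * Hop V ψ' n = E' * ∑ n ∈ Finset.Icc a b, ψ n * ψ' n := by
    rw [Finset.mul_sum]
    refine Finset.sum_congr rfl fun n hn => ?_
    rw [Finset.mem_Icc] at hn
    have := h'.2.2 n hn.1 hn.2
    unfold Hop
    rw [this]
    ring
  rw [h2] at h1
  have h3 : (E' - E) * ∑ n ∈ Finset.Icc a b, ψ n * ψ' n = 0 := by linarith
  rcases mul_eq_zero.1 h3 with h4 | h4
  · exact absurd (by linarith) hE
  · exact h4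

/-- one site removed -/
theorem split_one (V : ℤ → ℝ) (a b : ℤ) (E E' d : ℝ) (ψ ψ' : ℤ → ℝ) (h : IsEig V a b E ψ)
    (h' : IsEig V a b E' ψ') (hE : E ≠ E') (hd : |E - E'| ≤ d) (m : ℤ) (hm1 : a ≤ m)
    (hm2 : m ≤ b) :
    (∃ lam φ, IsEig V a (m - 1) lam φ ∧ |lam - (E + E') / 2| ≤ d / 2) ∨
    (∃ lam φ, IsEig V (m + 1) b lam φ ∧ |lam - (E + E') / 2| ≤ d / 2) := by
  have hd0 : 0 ≤ d := (abs_nonneg _).trans hd
  have horth := orth V a b E E' ψ ψ' h h' hE
  -- coefficients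
  obtain ⟨α, β, hαβ, hf0⟩ : ∃ α β : ℝ, 0 < α ^ 2 + β ^ 2 ∧ α * ψ m + β * ψ' m = 0 := by
    by_cases h0 : ψ m = 0
    · exact ⟨1, 0, by norm_num, by rw [h0]; ring⟩
    · refine ⟨ψ' m, -ψ m, ?_, by ring⟩
      have : 0 < (ψ m) ^ 2 := lt_of_le_of_ne (sq_nonneg _) (Ne.symm (pow_ne_zero 2 h0))
      nlinarith [sq_nonneg (ψ' m)]
  set f : ℤ → ℝ := fun n => α * ψ n + β * ψ' n with hf
  have hfm : f m = 0 := hf0
  have hfout : ∀ n, n < a ∨ b < n → f n = 0 := by
    intro n hn
    simp only [hf]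
    rw [h.1 n hn, h'.1 n hn]
    ring
  have hnf : nsq a b f = α ^ 2 + β ^ 2 := by
    have e1 : nsq a b f = α ^ 2 * nsq a b ψ + β ^ 2 * nsq a b ψ' +
        2 * α * β * ∑ n ∈ Finset.Icc a b, ψ n * ψ' n := by
      unfold nsq
      rw [Finset.mul_sum, Finset.mul_sum, Finset.mul_sum, ← Finset.sum_add_distrib,
        ← Finset.sum_add_distrib]
      refine Finset.sum_congr rfl fun n _ => ?_
      simp only [hf]
      ring
    rw [e1, h.2.1, h'.2.1, horth]
    ring
  set Ec : ℝ := (E + E') / 2 with hEc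
  have hres : ∀ n, a ≤ n → n ≤ b → Hop V f n - Ec * f n = (E - E') / 2 * (α * ψ n - β * ψ' n) := by
    intro n h1 h2
    have e1 := h.2.2 n h1 h2
    have e2 := h'.2.2 n h1 h2
    have e3 : Hop V f n = α * (ψ (n + 1) + ψ (n - 1) + V n * ψ n) +
        β * (ψ' (n + 1) + ψ' (n - 1) + V n * ψ' n) := by
      unfold Hop
      simp only [hf]
      ring
    rw [e3, e1, e2]
    simp only [hf, hEc]
    ring
  have htot : ∑ n ∈ Finset.Icc a b, (Hop V f n - Ec * f n) ^ 2 ≤ (d / 2) ^ 2 * (α ^ 2 + β ^ 2) := by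
    have e1 : ∑ n ∈ Finset.Icc a b, (Hop V f n - Ec * f n) ^ 2 =
        ((E - E') / 2) ^ 2 * (α ^ 2 + β ^ 2) := by
      have e2 : ∀ n ∈ Finset.Icc a b, (Hop V f n - Ec * f n) ^ 2 =
          ((E - E') / 2) ^ 2 * (α ^ 2 * ψ n ^ 2 + β ^ 2 * ψ' n ^ 2 -
            2 * α * β * (ψ n * ψ' n)) := by
        intro n hn
        rw [Finset.mem_Icc] at hn
        rw [hres n hn.1 hn.2]
        ring
      rw [Finset.sum_congr rfl e2, ← Finset.mul_sum, Finset.sum_sub_distrib,
        Finset.sum_add_distrib, ← Finset.mul_sum, ← Finset.mul_sum, ← Finset.mul_sum, horth]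
      have e3 := h.2.1
      have e4 := h'.2.1
      unfold nsq at e3 e4
      rw [e3, e4]
      ring
    rw [e1]
    refine mul_le_mul_of_nonneg_right ?_ hαβ.le
    rw [← sq_abs ((E - E') / 2), abs_div, abs_two]
    exact pow_le_pow_left₀ (by positivity) (by linarith) 2
  -- the pieces
  set fl : ℤ → ℝ := fun n => if n < m then f n else 0 with hfl
  set fr : ℤ → ℝ := fun n => if m < n then f n else 0 with hfr
  have hIcc : ∀ F : ℤ → ℝ, ∑ n ∈ Finset.Icc a b, F n =
      ∑ n ∈ Finset.Icc a (m - 1), F n + F m + ∑ n ∈ Finset.Icc (m + 1) b, F n := by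
    intro F
    have e1 : Finset.Icc a b = (Finset.Icc a (m - 1) ∪ {m}) ∪ Finset.Icc (m + 1) b := by
      ext n
      simp only [Finset.mem_union, Finset.mem_Icc, Finset.mem_singleton]
      omega
    rw [e1, Finset.sum_union, Finset.sum_union, Finset.sum_singleton]
    · rw [Finset.disjoint_singleton_right, Finset.mem_Icc]
      omega
    · rw [Finset.disjoint_left]
      intro n hn1 hn2
      simp only [Finset.mem_union, Finset.mem_Icc, Finset.mem_singleton] at hn1 hn2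
      omega
  have hl1 : nsq a (m - 1) fl = ∑ n ∈ Finset.Icc a (m - 1), f n ^ 2 := by
    unfold nsq
    refine Finset.sum_congr rfl fun n hn => ?_
    rw [Finset.mem_Icc] at hn
    simp only [hfl]
    rw [if_pos (by omega)]
  have hr1 : nsq (m + 1) b fr = ∑ n ∈ Finset.Icc (m + 1) b, f n ^ 2 := by
    unfold nsq
    refine Finset.sum_congr rfl fun n hn => ?_
    rw [Finset.mem_Icc] at hn
    simp only [hfr]
    rw [if_pos (by omega)]
  have hl2 : ∀ n ∈ Finset.Icc a (m - 1), fl (n + 1) + fl (n - 1) + V n * fl n - Ec * fl n =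
      Hop V f n - Ec * f n := by
    intro n hn
    rw [Finset.mem_Icc] at hn
    unfold Hop
    simp only [hfl]
    rw [if_pos (by omega : n < m), if_pos (by omega : n - 1 < m)]
    by_cases h1 : n + 1 = m
    · rw [if_neg (by omega), h1, hfm]
    · rw [if_pos (by omega)]
  have hr2 : ∀ n ∈ Finset.Icc (m + 1) b, fr (n + 1) + fr (n - 1) + V n * fr n - Ec * fr n =
      Hop V f n - Ec * f n := by
    intro n hn
    rw [Finset.mem_Icc] at hn
    unfold Hop
    simp only [hfr]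
    rw [if_pos (by omega : m < n), if_pos (by omega : m < n + 1)]
    by_cases h1 : n - 1 = m
    · rw [if_neg (by omega), h1, hfm]
    · rw [if_pos (by omega)]
  have hsum1 := hIcc (fun n => f n ^ 2)
  have hsum2 := hIcc (fun n => (Hop V f n - Ec * f n) ^ 2)
  have hnf' : ∑ n ∈ Finset.Icc a b, f n ^ 2 = α ^ 2 + β ^ 2 := hnf
  rw [hnf', hfm] at hsum1
  have hmid : 0 ≤ (Hop V f m - Ec * f m) ^ 2 := sq_nonneg _
  rw [hsum1, hsum2] at htot
  have hl3 : 0 ≤ ∑ n ∈ Finset.Icc a (m - 1), f n ^ 2 := Finset.sum_nonneg fun _ _ => sq_nonneg _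
  have hr3 : 0 ≤ ∑ n ∈ Finset.Icc (m + 1) b, f n ^ 2 := Finset.sum_nonneg fun _ _ => sq_nonneg _
  have hl4 : 0 ≤ ∑ n ∈ Finset.Icc a (m - 1), (Hop V f n - Ec * f n) ^ 2 :=
    Finset.sum_nonneg fun _ _ => sq_nonneg _
  have hr4 : 0 ≤ ∑ n ∈ Finset.Icc (m + 1) b, (Hop V f n - Ec * f n) ^ 2 :=
    Finset.sum_nonneg fun _ _ => sq_nonneg _
  by_contra hcon
  push Not at hcon
  obtain ⟨hcl, hcr⟩ := hcon
  have hL : 0 < ∑ n ∈ Finset.Icc a (m - 1), f n ^ 2 →
      (d / 2) ^ 2 * ∑ n ∈ Finset.Icc a (m - 1), f n ^ 2 <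
        ∑ n ∈ Finset.Icc a (m - 1), (Hop V f n - Ec * f n) ^ 2 := by
    intro hpos
    by_contra hc
    push Not at hc
    obtain ⟨lam, φ, h1, h2⟩ := taskApprox V a (m - 1) Ec (d / 2) fl (by linarith) (by
      intro n hn
      simp only [hfl]
      split_ifs with h3
      · exact hfout n (by omega)
      · rfl) (by rw [hl1]; exact hpos) (by
        rw [hl1, Finset.sum_congr rfl fun n hn => by rw [hl2 n hn]]
        exact hc)
    exact absurd h2 (not_le.2 (hcl lam φ h1))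
  have hR : 0 < ∑ n ∈ Finset.Icc (m + 1) b, f n ^ 2 →
      (d / 2) ^ 2 * ∑ n ∈ Finset.Icc (m + 1) b, f n ^ 2 <
        ∑ n ∈ Finset.Icc (m + 1) b, (Hop V f n - Ec * f n) ^ 2 := by
    intro hpos
    by_contra hc
    push Not at hc
    obtain ⟨lam, φ, h1, h2⟩ := taskApprox V (m + 1) b Ec (d / 2) fr (by linarith) (by
      intro n hn
      simp only [hfr]
      split_ifs with h3
      · exact hfout n (by omega)
      · rfl) (by rw [hr1]; exact hpos) (by
        rw [hr1, Finset.sum_congr rfl fun n hn => by rw [hr2 n hn]]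
        exact hc)
    exact absurd h2 (not_le.2 (hcr lam φ h1))
  rcases hl3.eq_or_lt with hl0 | hl0
  · rcases hr3.eq_or_lt with hr0 | hr0
    · rw [← hl0, ← hr0] at hsum1
      linarith
    · have := hR hr0
      rw [← hl0] at hsum1 htot
      nlinarith
  · have h1 := hL hl0
    rcases hr3.eq_or_lt with hr0 | hr0
    · rw [← hr0] at hsum1 htot
      nlinarith
    · have := hR hr0
      nlinarith

theorem no_eig_empty (V : ℤ → ℝ) (a b : ℤ) (h : b < a) (E : ℝ) (ψ : ℤ → ℝ) :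
    ¬ IsEig V a b E ψ := by
  rintro ⟨_, h2, _⟩
  unfold nsq at h2
  rw [Finset.Icc_eq_empty (by linarith)] at h2
  simp at h2

theorem taskSplit : TaskSplit := by
  intro V a b E E' d ψ ψ' hab h h' hE hd
  have hd0 : 0 ≤ d := (abs_nonneg _).trans hd
  have key := split_one V a b E E' d ψ ψ' h h' hE hd
  by_contra hcon
  push Not at hcon
  have hstep : ∀ k : ℕ, a + k ≤ b →
      ∃ lam φ, IsEig V (a + k + 1) b lam φ ∧ |lam - (E + E') / 2| ≤ d / 2 := by
    intro k
    induction k with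
    | zero =>
      intro _
      rcases key a le_rfl hab with ⟨lam, φ, h1, _⟩ | h1
      · exact absurd h1 (no_eig_empty V a (a - 1) (by omega) lam φ)
      · push_cast
        rw [add_zero]
        exact h1
    | succ k ih =>
      intro hk
      obtain ⟨lam, φ, h1, h2⟩ := ih (by push_cast at hk ⊢; linarith)
      have e1 : a + ((k + 1 : ℕ) : ℤ) = a + k + 1 := by push_cast; ring
      rw [e1] at hk ⊢
      rcases key (a + k + 1) (by omega) hk with ⟨lam', φ', h3, h4⟩ | h3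
      · exfalso
        have h5 := hcon (a + k + 1) (by omega) hk lam' φ' lam φ h3 h1
        have h6 : |lam' - lam| ≤ |lam' - (E + E') / 2| + |lam - (E + E') / 2| := by
          have := abs_sub_le lam' ((E + E') / 2) lam
          rw [abs_sub_comm ((E + E') / 2) lam] at this
          exact this
        linarith
      · exact h3
  obtain ⟨k, hk⟩ := Int.eq_ofNat_of_zero_le (by linarith : 0 ≤ b - a)
  obtain ⟨lam, φ, h1, _⟩ := hstep k (by rw [← hk]; linarith)
  exact no_eig_empty V _ _ (by rw [← hk]; linarith) lam φ h1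

end Pool.Agent.Y661.PP
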