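import Pool.Agent.Y661.PP.Box2

/-!
`TaskChain`, `TaskDelta`, `TaskTop`.
-/

set_option autoImplicit false

open scoped BigOperators ENNReal NNReal Topology
open MeasureTheory Filter

namespace Pool.Agent.Y661.PP

open Pool.Agent.H695R3.PP

theorem summable_box {a b : ℤ} {f : ℤ → ℝ} (h : ∀ n, n < a ∨ b < n → f n = 0) :
    Summable fun n => f n ^ 2 := by
  refine summable_of_ne_finset_zero (s := Finset.Icc a b) fun n hn => ?_
  rw [Finset.mem_Icc] at hn
  rw [h n (by omega)]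
  ring

theorem memlp_iff (f : ℤ → ℝ) : Memℓp f 2 ↔ Summable fun n => f n ^ 2 := by
  rw [memℓp_gen_iff (by norm_num)]
  simp

theorem norm_sq_lpR (f : lp (fun _ : ℤ => ℝ) 2) : ‖f‖ ^ 2 = ∑' n, f n ^ 2 := by
  have h := lp.norm_rpow_eq_tsum (p := 2) (by norm_num) f
  simpa using h

theorem coord_le (f : lp (fun _ : ℤ => ℝ) 2) (n : ℤ) : |f n| ≤ ‖f‖ := by
  have := lp.norm_apply_le_norm (p := 2) (by norm_num) f n
  simpa using this

/-- box functions as vectors -/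
noncomputable def vec {a b : ℤ} (f : ℤ → ℝ) (h : ∀ n, n < a ∨ b < n → f n = 0) :
    lp (fun _ : ℤ => ℝ) 2 := ⟨f, (memlp_iff f).2 (summable_box h)⟩

theorem tsum_box {a b : ℤ} {f : ℤ → ℝ} (h : ∀ n, n < a ∨ b < n → f n = 0) :
    ∑' n, f n ^ 2 = ∑ n ∈ Finset.Icc a b, f n ^ 2 := by
  refine tsum_eq_sum fun n hn => ?_
  rw [Finset.mem_Icc] at hn
  rw [h n (by omega)]
  ring

theorem taskChain : TaskChain := by
  intro V L a τ d k₀ hL hpos hb1 hb2 htd had hs1 hs2 E ψ hψ hψ0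
  -- one step
  have step : ∀ k, k₀ ≤ k → ∀ E ψ, IsEig V (-(L k : ℤ)) (L k) E ψ → a k ≤ |ψ 0| →
      ∃ E' φ, IsEig V (-(L (k + 1) : ℤ)) (L (k + 1)) E' φ ∧ a (k + 1) ≤ |φ 0| ∧
        |E' - E| ≤ 2 * τ k ∧
        ∑ n ∈ Finset.Icc (-(L (k + 1) : ℤ)) (L (k + 1)), (ψ n - φ n) ^ 2 ≤
          (4 * τ k / d (k + 1)) ^ 2 := by
    intro k hk E ψ hψ hψ0
    have h1 := hb1 k hk
    have h2 : |ψ (L k)| < τ k ∧ |ψ (-(L k : ℤ))| < τ k := by
      by_contra hcon
      apply h1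
      refine ⟨E, ψ, hψ, hψ0, ?_⟩
      by_contra h3
      push Not at h3
      exact hcon h3
    obtain ⟨E', φ, h3, h4, h5⟩ := taskStep V (L k) (L (k + 1)) E (τ k) (d (k + 1)) ψ
      (hL (Nat.lt_succ_self k)) (hpos k).2.1 (htd k hk) (hb2 k hk) hψ h2.1.le h2.2.le
    refine ⟨E', φ, h3, ?_, h4, h5⟩
    have hr : 0 ≤ 4 * τ k / d (k + 1) := by
      have := (hpos k).2.1
      have := (hpos (k + 1)).2.2
      positivity
    have h6 : (ψ 0 - φ 0) ^ 2 ≤ (4 * τ k / d (k + 1)) ^ 2 := by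
      refine le_trans ?_ h5
      exact Finset.single_le_sum (f := fun n => (ψ n - φ n) ^ 2) (fun n _ => sq_nonneg _)
        (Finset.mem_Icc.2 ⟨by omega, by omega⟩)
    have h7 : |ψ 0 - φ 0| ≤ 4 * τ k / d (k + 1) := abs_le_of_sq_le_sq h6 hr
    have h8 : |ψ 0| - |φ 0| ≤ |ψ 0 - φ 0| := abs_sub_abs_le_abs_sub _ _
    have h9 := had k hk
    linarith
  -- the sequence
  let S : ℕ → Type := fun j => {p : ℝ × (ℤ → ℝ) // IsEig V (-(L (k₀ + j) : ℤ)) (L (k₀ + j)) p.1 p.2 ∧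
    a (k₀ + j) ≤ |p.2 0|}
  have nxt : ∀ j (p : S j), ∃ q : S (j + 1), |q.1.1 - p.1.1| ≤ 2 * τ (k₀ + j) ∧
      ∑ n ∈ Finset.Icc (-(L (k₀ + j + 1) : ℤ)) (L (k₀ + j + 1)), (p.1.2 n - q.1.2 n) ^ 2 ≤
          (4 * τ (k₀ + j) / d (k₀ + j + 1)) ^ 2 := by
    rintro j ⟨⟨E, ψ⟩, h1, h2⟩
    obtain ⟨E', φ, h3, h4, h5, h6⟩ := step (k₀ + j) (by omega) E ψ h1 h2
    exact ⟨⟨⟨E', φ⟩, h3, h4⟩, h5, h6⟩
  choose nx hnx using nxt
  let s : (j : ℕ) → S j := fun j => Nat.rec (motive := S) ⟨⟨E, ψ⟩, hψ, hψ0⟩ (fun j p => nx j p) j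
  have hs : ∀ j, s (j + 1) = nx j (s j) := fun j => rfl
  set Es : ℕ → ℝ := fun j => (s j).1.1 with hEs
  set ψs : ℕ → ℤ → ℝ := fun j => (s j).1.2 with hψs
  have hE1 : ∀ j, |Es (j + 1) - Es j| ≤ 2 * τ (k₀ + j) := by
    intro j
    simp only [hEs, hs]
    exact (hnx j (s j)).1
  have hψ1 : ∀ j, ∑ n ∈ Finset.Icc (-(L (k₀ + j + 1) : ℤ)) (L (k₀ + j + 1)),
      (ψs j n - ψs (j + 1) n) ^ 2 ≤ (4 * τ (k₀ + j) / d (k₀ + j + 1)) ^ 2 := by
    intro j
    simp only [hψs, hs]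
    exact (hnx j (s j)).2
  have heig : ∀ j, IsEig V (-(L (k₀ + j) : ℤ)) (L (k₀ + j)) (Es j) (ψs j) := fun j => (s j).2.1
  set v : ℕ → lp (fun _ : ℤ => ℝ) 2 := fun j => vec (ψs j) (heig j).1 with hv
  have hvn : ∀ j n, v j n = ψs j n := fun j n => rfl
  have hr : ∀ j, 0 ≤ 4 * τ (k₀ + j) / d (k₀ + j + 1) := by
    intro j
    have := (hpos (k₀ + j)).2.1
    have := (hpos (k₀ + j + 1)).2.2
    positivity
  have hdist : ∀ j, dist (v j) (v j.succ) ≤ 4 * τ (k₀ + j) / d (k₀ + j + 1) := by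
    intro j
    rw [dist_eq_norm]
    refine abs_le_of_sq_le_sq' ?_ (hr j) |>.2
    rw [norm_sq_lpR]
    have h1 : ∀ n, (v j - v j.succ) n = ψs j n - ψs (j + 1) n := fun n => rfl
    simp only [h1]
    rw [tsum_box (a := -(L (k₀ + j + 1) : ℤ)) (b := L (k₀ + j + 1))
      (f := fun n => ψs j n - ψs (j + 1) n)]
    · exact hψ1 j
    · intro n hn
      have h2 : (L (k₀ + j) : ℤ) < L (k₀ + j + 1) := by exact_mod_cast hL (Nat.lt_succ_self _)
      rw [(heig j).1 n (by omega), (heig (j + 1)).1 n (by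
        have : k₀ + (j + 1) = k₀ + j + 1 := rfl
        rw [this]; omega)]
      ring
  have hsum : Summable fun j => 4 * τ (k₀ + j) / d (k₀ + j + 1) := by
    have h1 : Summable fun j => τ (j + k₀) / d (j + k₀ + 1) :=
      (summable_nat_add_iff k₀).2 hs1
    have h2 := h1.mul_left 4
    refine h2.congr fun j => ?_
    rw [add_comm j k₀]
    ring
  have hcau : CauchySeq v := cauchySeq_of_dist_le_of_summable _ hdist hsum
  obtain ⟨w, hw⟩ := cauchySeq_tendsto_of_complete hcau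
  have hEc : CauchySeq Es := by
    refine cauchySeq_of_dist_le_of_summable (fun j => 2 * τ (k₀ + j)) (fun j => ?_) ?_
    · rw [dist_comm, Real.dist_eq]
      exact hE1 j
    · have h1 : Summable fun j => τ (j + k₀) := (summable_nat_add_iff k₀).2 hs2
      refine (h1.mul_left 2).congr fun j => ?_
      rw [add_comm j k₀]
  obtain ⟨e, he⟩ := cauchySeq_tendsto_of_complete hEc
  have hpt : ∀ n, Tendsto (fun j => ψs j n) atTop (𝓝 (w n)) := by
    intro n
    have h1 : Tendsto (fun j => ‖v j - w‖) atTop (𝓝 0) := tendsto_iff_norm_sub_tendsto_zero.1 hw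
    rw [tendsto_iff_norm_sub_tendsto_zero]
    refine squeeze_zero (fun j => norm_nonneg _) (fun j => ?_) h1
    have := coord_le (v j - w) n
    exact this
  refine ⟨e, w, (memlp_iff _).1 (lp.memℓp w), ?_, ?_, ?_⟩
  · intro n
    have h1 : Tendsto (fun j => ψs j (n + 1) + ψs j (n - 1) + V n * ψs j n) atTop
        (𝓝 (w (n + 1) + w (n - 1) + V n * w n)) :=
      ((hpt _).add (hpt _)).add ((hpt _).const_mul _)
    have h2 : Tendsto (fun j => Es j * ψs j n) atTop (𝓝 (e * w n)) := he.mul (hpt n)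
    refine tendsto_nhds_unique_of_eventuallyEq h1 h2 ?_
    have hLt : Tendsto (fun j => (L (k₀ + j) : ℤ)) atTop atTop := by
      have h3 : Tendsto (fun j => k₀ + j) atTop atTop := tendsto_add_atTop_nat k₀ |>.congr
        fun j => by rw [add_comm]
      exact tendsto_natCast_atTop_atTop.comp (hL.tendsto_atTop.comp h3)
    filter_upwards [hLt.eventually_ge_atTop |n|] with j hj
    have h4 := abs_le.1 hj
    exact (heig j).2.2 n (by linarith [h4.1]) h4.2
  · have h1 := lp.memℓp (v 0 - w)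
    exact (memlp_iff _).1 h1
  · have h1 := dist_le_tsum_of_dist_le_of_tendsto₀ _ hdist hsum hw
    rw [dist_eq_norm] at h1
    have h2 := norm_sq_lpR (v 0 - w)
    have h3 : ∑' n, (ψ n - w n) ^ 2 = ‖v 0 - w‖ ^ 2 := h2.symm
    rw [h3]
    have h4 : ∑' j, 4 * τ (k₀ + j) / d (k₀ + j + 1) = 4 * ∑' j, τ (k₀ + j) / d (k₀ + j + 1) := by
      rw [← tsum_mul_left]
      congr 1
      funext j
      ring
    rw [← h4]
    exact pow_le_pow_left₀ (norm_nonneg _) h1 2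

/-! ### complex vectors -/

theorem memlpC_iff (f : ℤ → ℂ) : Memℓp f 2 ↔ Summable fun n => ‖f n‖ ^ 2 := by
  rw [memℓp_gen_iff (by norm_num)]
  simp

theorem norm_sq_lpC (f : lp (fun _ : ℤ => ℂ) 2) : ‖f‖ ^ 2 = ∑' n, ‖f n‖ ^ 2 := by
  have h := lp.norm_rpow_eq_tsum (p := 2) (by norm_num) f
  simpa using h

/-- real square summable functions as complex vectors -/
noncomputable def cv (f : ℤ → ℝ) (h : Summable fun n => f n ^ 2) : lp (fun _ : ℤ => ℂ) 2 :=
  ⟨fun n => (f n : ℂ), (memlpC_iff _).2 (by simpa using h)⟩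

theorem cv_apply (f : ℤ → ℝ) (h : Summable fun n => f n ^ 2) (n : ℤ) : cv f h n = (f n : ℂ) := rfl

theorem cv_norm (f : ℤ → ℝ) (h : Summable fun n => f n ^ 2) : ‖cv f h‖ ^ 2 = ∑' n, f n ^ 2 := by
  rw [norm_sq_lpC]
  simp [cv_apply]

theorem taskDelta : TaskDelta := by
  classical
  intro V L a τ d hL hpos h1 h2 h3 h4 hs1 hs2 ht1 ht2
  rw [← SetLike.mem_coe, Submodule.topologicalClosure_coe, Metric.mem_closure_iff]
  intro ε hε
  obtain ⟨K1, hK1⟩ := eventually_atTop.1 h1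
  obtain ⟨K2, hK2⟩ := eventually_atTop.1 h2
  obtain ⟨K3, hK3⟩ := eventually_atTop.1 h3
  obtain ⟨K4, hK4⟩ := eventually_atTop.1 h4
  have hε2 : 0 < (ε / 4) ^ 2 := by positivity
  obtain ⟨K5, hK5⟩ := eventually_atTop.1 (ht1.eventually (gt_mem_nhds hε2))
  obtain ⟨K6, hK6⟩ := eventually_atTop.1 (ht2.eventually (gt_mem_nhds (by positivity : 0 < ε / 16)))
  set k := K1 + K2 + K3 + K4 + K5 + K6 with hk
  have hch := taskChain V L a τ d k hL hpos (fun j hj => hK1 j (by omega))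
    (fun j hj => hK2 j (by omega)) (fun j hj => hK3 j (by omega)) (fun j hj => hK4 j (by omega))
    hs1 hs2
  obtain ⟨e, ψ, hψ, hδ, hnorm⟩ := taskCompl V (L k)
  set T : ℝ := ∑' j, τ (k + j) / d (k + j + 1) with hT
  have hT0 : 0 ≤ T := tsum_nonneg fun j => by
    have := (hpos (k + j)).2.1
    have := (hpos (k + j + 1)).2.2
    positivity
  -- true eigenfunctions
  have hex : ∀ j : Fin (2 * L k + 1), ∃ φ : ℤ → ℝ, ∃ _ : Summable (fun n => φ n ^ 2),
      (a k ≤ |ψ j 0| → (∃ e' : ℝ, ∀ n, φ (n + 1) + φ (n - 1) + V n * φ n = e' * φ n) ∧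
        Summable (fun n => (ψ j n - φ n) ^ 2) ∧ ∑' n, (ψ j n - φ n) ^ 2 ≤ (4 * T) ^ 2) := by
    intro j
    by_cases hj : a k ≤ |ψ j 0|
    · obtain ⟨e', φ, g1, g2, g3, g4⟩ := hch (e j) (ψ j) (hψ j) hj
      exact ⟨φ, g1, fun _ => ⟨⟨e', g2⟩, g3, g4⟩⟩
    · exact ⟨0, by simp, fun h => absurd h hj⟩
  choose φ hφs hφ using hex
  set J : Finset (Fin (2 * L k + 1)) := Finset.univ.filter fun j => a k ≤ |ψ j 0| with hJ
  set v : lp (fun _ : ℤ => ℂ) 2 := ∑ j ∈ J, ((ψ j 0 : ℝ) : ℂ) • cv (φ j) (hφs j) with hv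
  refine ⟨v, ?_, ?_⟩
  · rw [SetLike.mem_coe]
    refine Submodule.sum_mem _ fun j hj => Submodule.smul_mem _ _ (Submodule.subset_span ?_)
    obtain ⟨⟨e', he'⟩, _⟩ := hφ j (Finset.mem_filter.1 hj).2
    refine ⟨e', fun n => ?_⟩
    simp only [cv_apply]
    exact_mod_cast he' n
  · have hψs : ∀ j, Summable fun n => ψ j n ^ 2 := fun j => summable_box (hψ j).1
    have hbig : ∀ j ∈ J, ‖cv (ψ j) (hψs j) - cv (φ j) (hφs j)‖ ≤ 4 * T := by
      intro j hj
      obtain ⟨_, g1, g2⟩ := hφ j (Finset.mem_filter.1 hj).2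
      have e1 : cv (ψ j) (hψs j) - cv (φ j) (hφs j) = cv (fun n => ψ j n - φ j n) g1 := by
        ext n
        simp only [lp.coeFn_sub, Pi.sub_apply, cv_apply]
        push_cast
        ring
      rw [e1]
      refine abs_le_of_sq_le_sq' ?_ (by positivity) |>.2
      rw [cv_norm]
      exact g2
    have hδ2 : (lp.single 2 (0 : ℤ) (1 : ℂ) : lp (fun _ : ℤ => ℂ) 2) =
        ∑ j, ((ψ j 0 : ℝ) : ℂ) • cv (ψ j) (hψs j) := by
      ext n
      have e1 : (∑ j, ((ψ j 0 : ℝ) : ℂ) • cv (ψ j) (hψs j) : lp (fun _ : ℤ => ℂ) 2) n =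
          ∑ j, ((ψ j 0 : ℝ) : ℂ) * ((ψ j n : ℝ) : ℂ) := by
        rw [lp.coeFn_sum, Finset.sum_apply]
        rfl
      rw [e1, lp.single_apply]
      have e2 := hδ n
      have e3 : (∑ j, ((ψ j 0 : ℝ) : ℂ) * ((ψ j n : ℝ) : ℂ)) =
          (((∑ j, ψ j 0 * ψ j n : ℝ)) : ℂ) := by push_cast; rfl
      rw [e3, ← e2]
      by_cases hn : n = 0
      · subst hn
        simp
      · simp [hn]
    have hsplit : (lp.single 2 (0 : ℤ) (1 : ℂ) : lp (fun _ : ℤ => ℂ) 2) - v =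
        (∑ j ∈ Jᶜ, ((ψ j 0 : ℝ) : ℂ) • cv (ψ j) (hψs j)) +
        ∑ j ∈ J, ((ψ j 0 : ℝ) : ℂ) • (cv (ψ j) (hψs j) - cv (φ j) (hφs j)) := by
      rw [hδ2, ← Finset.sum_compl_add_sum J, hv]
      simp only [smul_sub, Finset.sum_sub_distrib]
      abel
    rw [dist_eq_norm, hsplit]
    -- the small ones
    have hsm : ‖∑ j ∈ Jᶜ, ((ψ j 0 : ℝ) : ℂ) • cv (ψ j) (hψs j)‖ ≤ ε / 4 := by
      set c : Fin (2 * L k + 1) → ℝ := fun j => if j ∈ Jᶜ then ψ j 0 else 0 with hc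
      have hcs : Summable fun n : ℤ => (∑ j, c j * ψ j n) ^ 2 := by
        refine summable_box (a := -(L k : ℤ)) (b := L k) (f := fun n => ∑ j, c j * ψ j n) ?_
        intro n hn
        refine Finset.sum_eq_zero fun j _ => ?_
        rw [(hψ j).1 n hn, mul_zero]
      have e1 : ∑ j ∈ Jᶜ, ((ψ j 0 : ℝ) : ℂ) • cv (ψ j) (hψs j) =
          cv (fun n => ∑ j, c j * ψ j n) hcs := by
        ext n
        rw [lp.coeFn_sum, Finset.sum_apply, cv_apply]
        push_cast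
        rw [← Finset.sum_filter_add_sum_filter_not Finset.univ (fun j => j ∈ Jᶜ)]
        have e2 : ∑ x ∈ Finset.univ.filter (fun j => ¬ j ∈ Jᶜ), ((c x : ℝ) : ℂ) * ((ψ x n : ℝ) : ℂ)
            = 0 := by
          refine Finset.sum_eq_zero fun j hj => ?_
          simp only [hc]
          rw [if_neg (Finset.mem_filter.1 hj).2]
          simp
        rw [e2, add_zero]
        have e3 : Finset.univ.filter (fun j => j ∈ Jᶜ) = Jᶜ := by
          ext j
          simp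
        rw [e3]
        refine Finset.sum_congr rfl fun j hj => ?_
        simp only [hc]
        rw [if_pos hj]
        rfl
      rw [e1]
      refine abs_le_of_sq_le_sq' ?_ (by positivity) |>.2
      rw [cv_norm, tsum_box (a := -(L k : ℤ)) (b := L k) (f := fun n => ∑ j, c j * ψ j n), hnorm]
      · have e4 : ∑ j, c j ^ 2 ≤ (2 * (L k : ℝ) + 1) * a k ^ 2 := by
          have e5 : ∀ j ∈ (Finset.univ : Finset (Fin (2 * L k + 1))), c j ^ 2 ≤ a k ^ 2 := by
            intro j _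
            simp only [hc]
            split_ifs with h
            · have h5 : ¬ (a k ≤ |ψ j 0|) := by
                intro h6
                exact (Finset.mem_compl.1 h) (Finset.mem_filter.2 ⟨Finset.mem_univ _, h6⟩)
              push Not at h5
              rw [← sq_abs (ψ j 0)]
              exact pow_le_pow_left₀ (abs_nonneg _) h5.le 2
            · simpa using sq_nonneg (a k)
          refine (Finset.sum_le_sum e5).trans ?_
          rw [Finset.sum_const, Finset.card_univ, Fintype.card_fin, nsmul_eq_mul]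
          push_cast
          exact le_rfl
        exact e4.trans (hK5 k (by omega)).le
      · intro n hn
        refine Finset.sum_eq_zero fun j _ => ?_
        rw [(hψ j).1 n hn, mul_zero]
    -- the big ones
    have hψ0 : ∀ j, |ψ j 0| ≤ 1 := by
      intro j
      have e1 : ψ j 0 ^ 2 ≤ 1 := by
        rw [← (hψ j).2.1]
        exact Finset.single_le_sum (f := fun n => ψ j n ^ 2) (fun n _ => sq_nonneg _)
          (Finset.mem_Icc.2 ⟨by omega, by omega⟩)
      exact (sq_le_one_iff_abs_le_one _).1 e1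
    have hbg : ‖∑ j ∈ J, ((ψ j 0 : ℝ) : ℂ) • (cv (ψ j) (hψs j) - cv (φ j) (hφs j))‖ ≤ ε / 4 := by
      refine (norm_sum_le _ _).trans ?_
      have e1 : ∀ j ∈ J, ‖((ψ j 0 : ℝ) : ℂ) • (cv (ψ j) (hψs j) - cv (φ j) (hφs j))‖ ≤ 4 * T := by
        intro j hj
        rw [norm_smul, Complex.norm_real, Real.norm_eq_abs]
        calc |ψ j 0| * ‖cv (ψ j) (hψs j) - cv (φ j) (hφs j)‖ ≤ 1 * (4 * T) :=
              mul_le_mul (hψ0 j) (hbig j hj) (norm_nonneg _) zero_le_one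
          _ = 4 * T := one_mul _
      refine (Finset.sum_le_sum e1).trans ?_
      rw [Finset.sum_const, nsmul_eq_mul]
      have e2 : (J.card : ℝ) ≤ 2 * (L k : ℝ) + 1 := by
        have := Finset.card_le_univ J
        rw [Fintype.card_fin] at this
        exact_mod_cast this
      have e3 := (hK6 k (by omega)).le
      calc (J.card : ℝ) * (4 * T) ≤ (2 * (L k : ℝ) + 1) * (4 * T) :=
            mul_le_mul_of_nonneg_right e2 (by positivity)
        _ = 4 * ((2 * (L k : ℝ) + 1) * T) := by ring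
        _ ≤ 4 * (ε / 16) := by gcongr
        _ = ε / 4 := by ring
    calc _ ≤ ‖∑ j ∈ Jᶜ, ((ψ j 0 : ℝ) : ℂ) • cv (ψ j) (hψs j)‖ +
          ‖∑ j ∈ J, ((ψ j 0 : ℝ) : ℂ) • (cv (ψ j) (hψs j) - cv (φ j) (hφs j))‖ := norm_add_le _ _
      _ ≤ ε / 4 + ε / 4 := add_le_add hsm hbg
      _ < ε := by linarith

/-! ### translations -/

/-- translation -/
noncomputable def shf (m : ℤ) : lp (fun _ : ℤ => ℂ) 2 →ₗ[ℂ] lp (fun _ : ℤ => ℂ) 2 where
  toFun f := ⟨fun n => f (n - m), (memlpC_iff _).2 (by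
    have h := (memlpC_iff _).1 (lp.memℓp f)
    exact (Equiv.subRight m).summable_iff.2 h)⟩
  map_add' f g := by ext n; rfl
  map_smul' c f := by ext n; rfl

theorem shf_apply (m : ℤ) (f : lp (fun _ : ℤ => ℂ) 2) (n : ℤ) : shf m f n = f (n - m) := rfl

theorem shf_norm (m : ℤ) (f : lp (fun _ : ℤ => ℂ) 2) : ‖shf m f‖ = ‖f‖ := by
  have h1 : ‖shf m f‖ ^ 2 = ‖f‖ ^ 2 := by
    rw [norm_sq_lpC, norm_sq_lpC]
    exact (Equiv.subRight m).tsum_eq (fun n => ‖f n‖ ^ 2)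
  exact (pow_left_inj₀ (norm_nonneg _) (norm_nonneg _) two_ne_zero).1 h1

theorem shf_single (m : ℤ) : shf m (lp.single 2 (0 : ℤ) (1 : ℂ)) = lp.single 2 m (1 : ℂ) := by
  ext n
  rw [shf_apply, lp.single_apply, lp.single_apply]
  by_cases h : n = m
  · subst h
    simp
  · have h2 : n - m ≠ 0 := fun h3 => h (by linarith)
    simp [h, h2]

theorem shf_span (V : ℤ → ℝ) (m : ℤ) (f : lp (fun _ : ℤ => ℂ) 2)
    (h : f ∈ EigSpan fun n => V (m + n)) : shf m f ∈ EigSpan V := by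
  unfold EigSpan at h ⊢
  refine Submodule.span_induction (p := fun x _ => shf m x ∈ Submodule.span ℂ
    {ψ : lp (fun _ : ℤ => ℂ) 2 | ∃ E : ℝ, ∀ n : ℤ,
      ψ (n + 1) + ψ (n - 1) + (V n : ℂ) * ψ n = (E : ℂ) * ψ n}) ?_ ?_ ?_ ?_ h
  · rintro x ⟨E, hE⟩
    refine Submodule.subset_span ⟨E, fun n => ?_⟩
    have h1 := hE (n - m)
    simp only [shf_apply]
    rw [show n + 1 - m = n - m + 1 by ring, show n - 1 - m = n - m - 1 by ring]
    beta_reduce at h1
    rw [show m + (n - m) = n by ring] at h1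
    exact h1
  · rw [map_zero]
    exact Submodule.zero_mem _
  · intro x y _ _ hx hy
    rw [map_add]
    exact Submodule.add_mem _ hx hy
  · intro c x _ hx
    rw [map_smul]
    exact Submodule.smul_mem _ _ hx

theorem taskTop : TaskTop := by
  intro V h
  have h1 : ∀ m : ℤ, (lp.single 2 m (1 : ℂ) : lp (fun _ : ℤ => ℂ) 2) ∈
      (EigSpan V).topologicalClosure := by
    intro m
    have h2 := h m
    rw [← SetLike.mem_coe, Submodule.topologicalClosure_coe, Metric.mem_closure_iff] at h2 ⊢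
    intro ε hε
    obtain ⟨b, hb, hb2⟩ := h2 ε hε
    refine ⟨shf m b, shf_span V m b hb, ?_⟩
    rw [dist_eq_norm, ← shf_single, ← map_sub, shf_norm, ← dist_eq_norm]
    exact hb2
  rw [eq_top_iff]
  intro f _
  have h3 := lp.hasSum_single (p := 2) (by norm_num) f
  refine (EigSpan V).isClosed_topologicalClosure.mem_of_tendsto h3 (Eventually.of_forall fun s => ?_)
  refine Submodule.sum_mem _ fun i _ => ?_
  have h4 : (lp.single 2 i (f i) : lp (fun _ : ℤ => ℂ) 2) = f i • lp.single 2 i (1 : ℂ) := by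
    ext n
    rw [lp.coeFn_smul, Pi.smul_apply, lp.single_apply, lp.single_apply]
    by_cases hn : n = i
    · subst hn
      simp
    · simp [hn]
  rw [h4]
  exact Submodule.smul_mem _ _ (h1 i)

end Pool.Agent.Y661.PP
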