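import Pool.Agent.H695R3.PP.Stmts

/-!
`TaskClosed`, `TaskClosed2`, `TaskMeas`.
-/

set_option autoImplicit false

open scoped BigOperators ENNReal NNReal Topology
open MeasureTheory Filter

namespace Pool.Agent.Y661.PP

open Pool.Agent.H695R3.PP

theorem closed_snd {X Y : Type} [TopologicalSpace X] [TopologicalSpace Y] (K : Set X)
    (hK : IsCompact K) (D : Set (X × Y)) (hD : IsClosed D) :
    IsClosed {y : Y | ∃ x ∈ K, (x, y) ∈ D} := by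
  haveI : CompactSpace K := isCompact_iff_compactSpace.1 hK
  have h1 : IsClosed {p : K × Y | ((p.1 : X), p.2) ∈ D} :=
    hD.preimage (by fun_prop)
  have h2 := isClosedMap_snd_of_compactSpace _ h1
  convert h2 using 1
  ext y
  simp only [Set.mem_setOf_eq, Set.mem_image, Prod.exists, exists_eq_right, Subtype.exists]
  constructor
  · rintro ⟨x, hx, h⟩
    exact ⟨x, hx, h⟩
  · rintro ⟨x, hx, h⟩
    exact ⟨x, hx, h⟩

/-- the compact set -/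
def KK (R : ℝ) : Set (ℝ × (ℤ → ℝ)) :=
  Set.Icc (-R) R ×ˢ Set.pi Set.univ (fun _ : ℤ => Set.Icc (-1 : ℝ) 1)

theorem KK_compact (R : ℝ) : IsCompact (KK R) :=
  isCompact_Icc.prod (isCompact_univ_pi fun _ => isCompact_Icc)

theorem eig_KK {V : ℤ → ℝ} {a b : ℤ} {E R : ℝ} {ψ : ℤ → ℝ} (h : IsEig V a b E ψ) (hE : |E| ≤ R) :
    (E, ψ) ∈ KK R := by
  refine ⟨abs_le.1 hE, fun n _ => ?_⟩
  by_cases hn : n < a ∨ b < n
  · simp only [h.1 n hn]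
    norm_num
  · push Not at hn
    have h1 : ψ n ^ 2 ≤ 1 := by
      rw [← h.2.1]
      exact Finset.single_le_sum (f := fun n => ψ n ^ 2) (fun n _ => sq_nonneg _)
        (Finset.mem_Icc.2 hn)
    exact abs_le.1 ((sq_le_one_iff_abs_le_one _).1 h1)

theorem eig_closed (a b : ℤ) :
    IsClosed {p : (ℝ × (ℤ → ℝ)) × (ℤ → ℝ) | IsEig p.2 a b p.1.1 p.1.2} := by
  unfold IsEig nsq
  have h1 : IsClosed {p : (ℝ × (ℤ → ℝ)) × (ℤ → ℝ) | ∀ n, n < a ∨ b < n → p.1.2 n = 0} := by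
    simp only [Set.setOf_forall]
    refine isClosed_iInter fun n => isClosed_iInter fun _ => ?_
    exact isClosed_eq (by fun_prop) continuous_const
  have h2 : IsClosed {p : (ℝ × (ℤ → ℝ)) × (ℤ → ℝ) | ∑ n ∈ Finset.Icc a b, p.1.2 n ^ 2 = 1} :=
    isClosed_eq (by fun_prop) continuous_const
  have h3 : IsClosed {p : (ℝ × (ℤ → ℝ)) × (ℤ → ℝ) | ∀ n, a ≤ n → n ≤ b →
      p.1.2 (n + 1) + p.1.2 (n - 1) + p.2 n * p.1.2 n = p.1.1 * p.1.2 n} := by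
    simp only [Set.setOf_forall]
    refine isClosed_iInter fun n => isClosed_iInter fun _ => isClosed_iInter fun _ => ?_
    exact isClosed_eq (by fun_prop) (by fun_prop)
  exact h1.inter (h2.inter h3)

theorem taskClosed : TaskClosed := by
  intro a b R C hC
  have h1 := closed_snd (KK R) (KK_compact R)
    ({p : (ℝ × (ℤ → ℝ)) × (ℤ → ℝ) | IsEig p.2 a b p.1.1 p.1.2} ∩ C) ((eig_closed a b).inter hC)
  convert h1 using 1
  ext V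
  simp only [Set.mem_setOf_eq, Set.mem_inter_iff, Prod.exists]
  constructor
  · rintro ⟨E, ψ, g1, g2, g3⟩
    exact ⟨E, ψ, eig_KK g2 g1, g2, g3⟩
  · rintro ⟨E, ψ, g1, g2, g3⟩
    exact ⟨E, ψ, abs_le.2 g1.1, g2, g3⟩

theorem taskClosed2 : TaskClosed2 := by
  intro a b a' b' R C hC
  have c1 : IsClosed {p : ((ℝ × (ℤ → ℝ)) × (ℝ × (ℤ → ℝ))) × (ℤ → ℝ) |
      IsEig p.2 a b p.1.1.1 p.1.1.2} := by
    have : Continuous fun p : ((ℝ × (ℤ → ℝ)) × (ℝ × (ℤ → ℝ))) × (ℤ → ℝ) => (p.1.1, p.2) := by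
      fun_prop
    exact (eig_closed a b).preimage this
  have c2 : IsClosed {p : ((ℝ × (ℤ → ℝ)) × (ℝ × (ℤ → ℝ))) × (ℤ → ℝ) |
      IsEig p.2 a' b' p.1.2.1 p.1.2.2} := by
    have : Continuous fun p : ((ℝ × (ℤ → ℝ)) × (ℝ × (ℤ → ℝ))) × (ℤ → ℝ) => (p.1.2, p.2) := by
      fun_prop
    exact (eig_closed a' b').preimage this
  have c3 : IsClosed {p : ((ℝ × (ℤ → ℝ)) × (ℝ × (ℤ → ℝ))) × (ℤ → ℝ) | p.1 ∈ C} :=
    hC.preimage continuous_fst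
  have h1 := closed_snd (KK R ×ˢ KK R) ((KK_compact R).prod (KK_compact R)) _
    (c1.inter (c2.inter c3))
  convert h1 using 1
  ext V
  simp only [Set.mem_setOf_eq, Set.mem_inter_iff, Prod.exists, Set.mem_prod]
  constructor
  · rintro ⟨E, ψ, E', ψ', g1, g2, g3, g4, g5⟩
    exact ⟨E, ψ, E', ψ', ⟨eig_KK g3 g1, eig_KK g4 g2⟩, g3, g4, g5⟩
  · rintro ⟨E, ψ, E', ψ', ⟨g1, g2⟩, g3, g4, g5⟩
    exact ⟨E, ψ, E', ψ', abs_le.2 g1.1, abs_le.2 g2.1, g3, g4, g5⟩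

/-- measurable version with one eigenvector -/
theorem meas_one (a b : ℤ) (C : Set (ℝ × (ℤ → ℝ))) (hC : IsClosed C) :
    MeasurableSet {V : ℤ → ℝ | ∃ E ψ, IsEig V a b E ψ ∧ (E, ψ) ∈ C} := by
  have h1 : {V : ℤ → ℝ | ∃ E ψ, IsEig V a b E ψ ∧ (E, ψ) ∈ C} =
      ⋃ R : ℕ, {V : ℤ → ℝ | ∃ E ψ, |E| ≤ (R : ℝ) ∧ IsEig V a b E ψ ∧
        ((E, ψ), V) ∈ {p : (ℝ × (ℤ → ℝ)) × (ℤ → ℝ) | p.1 ∈ C}} := by
    ext V
    simp only [Set.mem_setOf_eq, Set.mem_iUnion]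
    constructor
    · rintro ⟨E, ψ, g1, g2⟩
      obtain ⟨R, hR⟩ := exists_nat_ge |E|
      exact ⟨R, E, ψ, hR, g1, g2⟩
    · rintro ⟨R, E, ψ, _, g1, g2⟩
      exact ⟨E, ψ, g1, g2⟩
  rw [h1]
  exact MeasurableSet.iUnion fun R =>
    (taskClosed a b R _ (hC.preimage continuous_fst)).measurableSet

/-- measurable version with two eigenvectors -/
theorem meas_two (a b a' b' : ℤ) (C : Set ((ℝ × (ℤ → ℝ)) × (ℝ × (ℤ → ℝ)))) (hC : IsClosed C) :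
    MeasurableSet {V : ℤ → ℝ | ∃ E ψ E' ψ', IsEig V a b E ψ ∧ IsEig V a' b' E' ψ' ∧
      ((E, ψ), (E', ψ')) ∈ C} := by
  have h1 : {V : ℤ → ℝ | ∃ E ψ E' ψ', IsEig V a b E ψ ∧ IsEig V a' b' E' ψ' ∧
      ((E, ψ), (E', ψ')) ∈ C} =
      ⋃ R : ℕ, {V : ℤ → ℝ | ∃ E ψ E' ψ', |E| ≤ (R : ℝ) ∧ |E'| ≤ (R : ℝ) ∧ IsEig V a b E ψ ∧
        IsEig V a' b' E' ψ' ∧ ((E, ψ), (E', ψ')) ∈ C} := by
    ext V
    simp only [Set.mem_setOf_eq, Set.mem_iUnion]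
    constructor
    · rintro ⟨E, ψ, E', ψ', g1, g2, g3⟩
      obtain ⟨R, hR⟩ := exists_nat_ge (max |E| |E'|)
      exact ⟨R, E, ψ, E', ψ', (le_max_left _ _).trans hR, (le_max_right _ _).trans hR, g1, g2, g3⟩
    · rintro ⟨R, E, ψ, E', ψ', _, _, g1, g2, g3⟩
      exact ⟨E, ψ, E', ψ', g1, g2, g3⟩
  rw [h1]
  exact MeasurableSet.iUnion fun R => (taskClosed2 a b a' b' R _ hC).measurableSet

theorem taskMeas : TaskMeas := by
  constructor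
  · intro L a τ
    have h1 := meas_one (-(L : ℤ)) L {p : ℝ × (ℤ → ℝ) | a ≤ |p.2 0| ∧
      (τ ≤ |p.2 L| ∨ τ ≤ |p.2 (-(L : ℤ))|)} (by
        have c1 : IsClosed {p : ℝ × (ℤ → ℝ) | a ≤ |p.2 0|} :=
          isClosed_le continuous_const (by fun_prop)
        have c2 : IsClosed {p : ℝ × (ℤ → ℝ) | τ ≤ |p.2 L|} :=
          isClosed_le continuous_const (by fun_prop)
        have c3 : IsClosed {p : ℝ × (ℤ → ℝ) | τ ≤ |p.2 (-(L : ℤ))|} :=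
          isClosed_le continuous_const (by fun_prop)
        exact c1.inter (c2.union c3))
    exact h1
  · intro L d
    have h1 : ∀ k : ℕ, MeasurableSet {V : ℤ → ℝ | ∃ E ψ E' ψ', IsEig V (-(L : ℤ)) L E ψ ∧
        IsEig V (-(L : ℤ)) L E' ψ' ∧ ((E, ψ), (E', ψ')) ∈
        {p : (ℝ × (ℤ → ℝ)) × (ℝ × (ℤ → ℝ)) | 1 / ((k : ℝ) + 1) ≤ |p.1.1 - p.2.1| ∧
          |p.1.1 - p.2.1| ≤ d}} := by
      intro k
      refine meas_two _ _ _ _ _ ?_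
      have c1 : IsClosed {p : (ℝ × (ℤ → ℝ)) × (ℝ × (ℤ → ℝ)) |
          1 / ((k : ℝ) + 1) ≤ |p.1.1 - p.2.1|} := isClosed_le continuous_const (by fun_prop)
      have c2 : IsClosed {p : (ℝ × (ℤ → ℝ)) × (ℝ × (ℤ → ℝ)) | |p.1.1 - p.2.1| ≤ d} :=
        isClosed_le (by fun_prop) continuous_const
      exact c1.inter c2
    have h2 : {V : ℤ → ℝ | Bad2 L d V} = ⋃ k : ℕ, {V : ℤ → ℝ | ∃ E ψ E' ψ',
        IsEig V (-(L : ℤ)) L E ψ ∧ IsEig V (-(L : ℤ)) L E' ψ' ∧ ((E, ψ), (E', ψ')) ∈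
        {p : (ℝ × (ℤ → ℝ)) × (ℝ × (ℤ → ℝ)) | 1 / ((k : ℝ) + 1) ≤ |p.1.1 - p.2.1| ∧
          |p.1.1 - p.2.1| ≤ d}} := by
      ext V
      simp only [Set.mem_setOf_eq, Set.mem_iUnion, Bad2]
      constructor
      · rintro ⟨E, ψ, E', ψ', g1, g2, g3, g4⟩
        have hpos : 0 < |E - E'| := abs_pos.2 (sub_ne_zero.2 g3)
        obtain ⟨k, hk⟩ := exists_nat_one_div_lt hpos
        exact ⟨k, E, ψ, E', ψ', g1, g2, hk.le, g4⟩
      · rintro ⟨k, E, ψ, E', ψ', g1, g2, g3, g4⟩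
        refine ⟨E, ψ, E', ψ', g1, g2, ?_, g4⟩
        rintro rfl
        rw [sub_self, abs_zero] at g3
        have : (0 : ℝ) < 1 / ((k : ℝ) + 1) := by positivity
        linarith
    rw [h2]
    exact MeasurableSet.iUnion h1

end Pool.Agent.Y661.PP
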