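import Pool.Agent.Y661.PP.KS3
import Pool.Agent.Y661.PP.Meas
import Pool.Agent.Y661.PP.Box

/-!
`TaskFE`, `TaskG1`.
-/

set_option autoImplicit false

open scoped BigOperators ENNReal NNReal Topology
open MeasureTheory Filter

namespace Pool.Agent.Y661.PP

open Pool.Agent.H695R3.PP

/-- the last averaging step -/
theorem last_step (ε R E w t p q : ℝ) (hε : 0 < ε) (hε1 : ε ≤ 1) (hR : 1 ≤ R) (hE : |E| ≤ R)
    (hw : |w| ≤ R) (ht : 0 < t) (hpq : 0 < p ^ 2 + q ^ 2) :
    U {s : ℝ | |(E - (w + ε * s)) * p - q| ≤ t} ≤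
      ENNReal.ofReal (8 * R * t / ε * (1 / Real.sqrt (p ^ 2 + q ^ 2))) := by
  set l := Real.sqrt (p ^ 2 + q ^ 2) with hl
  have hlpos : 0 < l := Real.sqrt_pos.2 hpq
  have hl2 : l ^ 2 = p ^ 2 + q ^ 2 := Real.sq_sqrt hpq.le
  rcases le_or_gt (l / (8 * R)) |p| with h | h
  · -- `p` is large
    have hp : 0 < |p| := lt_of_lt_of_le (by positivity) h
    have hp0 : p ≠ 0 := abs_pos.1 hp
    have h1 : {s : ℝ | |(E - (w + ε * s)) * p - q| ≤ t} ⊆
        {s : ℝ | w + ε * s ∈ Set.Icc (E - q / p - t / |p|) (E - q / p + t / |p|)} := by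
      intro s hs
      have h2 : |(E - (w + ε * s)) * p - q| ≤ t := hs
      have h3 : (E - (w + ε * s)) * p - q = p * (E - q / p - (w + ε * s)) := by
        field_simp
        ring
      rw [h3, abs_mul] at h2
      have h4 : |E - q / p - (w + ε * s)| ≤ t / |p| := by
        rw [le_div_iff₀ hp]
        linarith
      have h5 := abs_le.1 h4
      exact ⟨by linarith [h5.2], by linarith [h5.1]⟩
    refine (measure_mono h1).trans ((U_le _ w ε hε).trans ?_)
    rw [Real.volume_Icc, ← ENNReal.ofReal_mul (by positivity)]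
    apply ENNReal.ofReal_le_ofReal
    have h2 : 1 / (2 * ε) * (E - q / p + t / |p| - (E - q / p - t / |p|)) = t / ε * (1 / |p|) := by
      field_simp
      ring
    rw [h2]
    have h3 : 1 / |p| ≤ 8 * R * (1 / l) := by
      rw [mul_one_div, div_le_div_iff₀ hp hlpos]
      rw [div_le_iff₀ (by positivity)] at h
      linarith
    calc t / ε * (1 / |p|) ≤ t / ε * (8 * R * (1 / l)) :=
          mul_le_mul_of_nonneg_left h3 (by positivity)
      _ = _ := by ring
  · -- `p` is small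
    rcases lt_or_ge t (l / 8) with ht2 | ht2
    · have h1 : {s : ℝ | |(E - (w + ε * s)) * p - q| ≤ t} ⊆ (Set.Icc (-1 : ℝ) 1)ᶜ := by
        intro s hs hs1
        have h2 : |(E - (w + ε * s)) * p - q| ≤ t := hs
        have h3 : |E - (w + ε * s)| ≤ 3 * R := by
          have e1 : |ε * s| ≤ 1 := by
            rw [abs_mul, abs_of_pos hε]
            have := abs_le.2 hs1
            nlinarith [abs_nonneg s]
          have e2 := abs_sub_le E 0 (w + ε * s)
          rw [sub_zero, zero_sub, abs_neg] at e2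
          have e3 := abs_add_le w (ε * s)
          linarith
        have h4 : |(E - (w + ε * s)) * p| ≤ 3 * l / 8 := by
          rw [abs_mul]
          have e1 : |p| * (8 * R) < l := by
            rw [lt_div_iff₀ (by positivity)] at h
            exact h
          have e2 : |E - (w + ε * s)| * |p| ≤ 3 * R * |p| :=
            mul_le_mul_of_nonneg_right h3 (abs_nonneg _)
          nlinarith [abs_nonneg p]
        have h5 : l / 2 ≤ |q| := by
          have e1 : |p| * (8 * R) < l := by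
            rw [lt_div_iff₀ (by positivity)] at h
            exact h
          have e2 : |p| ≤ l / 8 := by nlinarith [abs_nonneg p]
          have e3 : p ^ 2 ≤ (l / 8) ^ 2 := by
            rw [← sq_abs]
            exact pow_le_pow_left₀ (abs_nonneg _) e2 2
          have e4 : (l / 2) ^ 2 ≤ q ^ 2 := by nlinarith
          have e5 := sq_le_sq.1 e4
          rwa [abs_of_pos (by positivity : 0 < l / 2)] at e5
        have h6 : |q| ≤ |(E - (w + ε * s)) * p| + |(E - (w + ε * s)) * p - q| := by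
          have := abs_sub_abs_le_abs_sub q ((E - (w + ε * s)) * p)
          rw [abs_sub_comm] at this
          linarith
        linarith
      have h2 : U (Set.Icc (-1 : ℝ) 1)ᶜ = 0 := U_supp
      exact ((measure_mono h1).trans h2.le).trans (zero_le)
    · refine prob_le_one.trans ?_
      rw [← ENNReal.ofReal_one]
      apply ENNReal.ofReal_le_ofReal
      have h1 : 1 ≤ 1 / ε := by rw [le_div_iff₀ hε]; linarith
      have h2 : l ≤ 8 * t := by linarith
      rw [mul_one_div, le_div_iff₀ hlpos, one_mul]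
      have h3 : 8 * R * t / ε = (8 * t) * R * (1 / ε) := by ring
      rw [h3]
      have h4 : 8 * t ≤ 8 * t * R := by nlinarith
      have h5 : 8 * t * R ≤ 8 * t * R * (1 / ε) := by
        have : 0 ≤ 8 * t * R := by positivity
        nlinarith
      linarith

theorem rsol_pos (V : ℤ → ℝ) (E : ℝ) (b : ℤ) (j : ℕ) :
    0 < (rsol V E b j).1 ^ 2 + (rsol V E b j).2 ^ 2 := by
  induction j with
  | zero =>
    show 0 < (1 : ℝ) ^ 2 + (0 : ℝ) ^ 2
    norm_num
  | succ j ih =>
    show 0 < ((E - V (b - j)) * (rsol V E b j).1 - (rsol V E b j).2) ^ 2 + (rsol V E b j).1 ^ 2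
    by_cases h : (rsol V E b j).1 = 0
    · rw [h] at ih ⊢
      nlinarith
    · have : 0 < (rsol V E b j).1 ^ 2 := by positivity
      positivity

theorem taskFE : TaskFE := by
  obtain ⟨c, C, hc, hc2, hC, hJ⟩ := taskJ
  refine ⟨c, 16 * C, hc, hc2, by positivity, ?_⟩
  intro ε R E t W L hε hε1 hR hE hW ht hL
  obtain ⟨M, rfl⟩ : ∃ M, L = M + 1 := ⟨L - 1, by omega⟩
  set ρ : ℝ := 1 - c * ε ^ 2 with hρ
  have hε2 : ε ^ 2 ≤ 1 := pow_le_one₀ hε.le hε1
  have hρ2 : 1 / 2 ≤ ρ := by
    rw [hρ]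
    nlinarith
  have hBm : MeasurableSet {x : ℤ → ℝ |
      |(rsol (fun n => W n + ε * x n) E ((M + 1 : ℕ) : ℤ) (M + 1)).1| ≤ t} := by
    have h1 : Measurable fun x : ℤ → ℝ =>
        |(rsol (fun n => W n + ε * x n) E ((M + 1 : ℕ) : ℤ) (M + 1)).1| :=
      (measurable_fst.comp (rsol_meas W ε E _ (M + 1))).abs
    exact measurableSet_le h1 measurable_const
  rw [resample (((M + 1 : ℕ) : ℤ) - (M : ℕ)) _ hBm]
  have h1 : ∀ x : ℤ → ℝ, U {s | Function.update x (((M + 1 : ℕ) : ℤ) - (M : ℕ)) s ∈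
      {x : ℤ → ℝ | |(rsol (fun n => W n + ε * x n) E ((M + 1 : ℕ) : ℤ) (M + 1)).1| ≤ t}} ≤
      ENNReal.ofReal (8 * R * t / ε) *
        ENNReal.ofReal (1 / rlen (fun n => W n + ε * x n) E ((M + 1 : ℕ) : ℤ) M) := by
    intro x
    set b : ℤ := ((M + 1 : ℕ) : ℤ) with hb
    set v := rsol (fun n => W n + ε * x n) E b M with hv
    have e1 : ∀ s : ℝ, rsol (fun n => W n + ε * Function.update x (b - (M : ℕ)) s n) E b M = v := by
      intro s
      refine rsol_congr _ _ E b M fun i hi => ?_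
      rw [Function.update_of_ne]
      intro h
      have : (i : ℤ) = M := by linarith
      omega
    have e2 : {s | Function.update x (b - (M : ℕ)) s ∈
        {x : ℤ → ℝ | |(rsol (fun n => W n + ε * x n) E b (M + 1)).1| ≤ t}} =
        {s : ℝ | |(E - (W (b - (M : ℕ)) + ε * s)) * v.1 - v.2| ≤ t} := by
      ext s
      show |(E - (W (b - (M : ℕ)) + ε * Function.update x (b - (M : ℕ)) s (b - (M : ℕ)))) *
        (rsol (fun n => W n + ε * Function.update x (b - (M : ℕ)) s n) E b M).1 -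
        (rsol (fun n => W n + ε * Function.update x (b - (M : ℕ)) s n) E b M).2| ≤ t ↔ _
      rw [e1, Function.update_self]
      rfl
    rw [e2, ← ENNReal.ofReal_mul (by positivity)]
    exact last_step ε R E (W (b - (M : ℕ))) t v.1 v.2 hε hε1 hR hE (hW _) ht
      (rsol_pos _ E b M)
  calc ∫⁻ x, U {s | Function.update x (((M + 1 : ℕ) : ℤ) - (M : ℕ)) s ∈
      {x : ℤ → ℝ | |(rsol (fun n => W n + ε * x n) E ((M + 1 : ℕ) : ℤ) (M + 1)).1| ≤ t}} ∂PZ
      ≤ ∫⁻ x, ENNReal.ofReal (8 * R * t / ε) *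
        ENNReal.ofReal (1 / rlen (fun n => W n + ε * x n) E ((M + 1 : ℕ) : ℤ) M) ∂PZ :=
        lintegral_mono h1
    _ = ENNReal.ofReal (8 * R * t / ε) *
        ∫⁻ x, ENNReal.ofReal (1 / rlen (fun n => W n + ε * x n) E ((M + 1 : ℕ) : ℤ) M) ∂PZ :=
        lintegral_const_mul' _ _ ENNReal.ofReal_ne_top
    _ ≤ ENNReal.ofReal (8 * R * t / ε) * ENNReal.ofReal (C / ε * ρ ^ M) := by
        gcongr
        exact hJ ε E W _ M hε hε1
    _ = ENNReal.ofReal (8 * R * t / ε * (C / ε * ρ ^ M)) := by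
        rw [← ENNReal.ofReal_mul (by positivity)]
    _ ≤ ENNReal.ofReal (16 * C * R / ε ^ 2 * t * ρ ^ (M + 1)) := by
        apply ENNReal.ofReal_le_ofReal
        have e1 : 8 * R * t / ε * (C / ε * ρ ^ M) = 8 * C * R / ε ^ 2 * t * ρ ^ M := by
          field_simp
        have e2 : 16 * C * R / ε ^ 2 * t * ρ ^ (M + 1) =
            8 * C * R / ε ^ 2 * t * ρ ^ M * (2 * ρ) := by
          rw [pow_succ]
          ring
        rw [e1, e2]
        have e3 : 0 ≤ 8 * C * R / ε ^ 2 * t * ρ ^ M := by positivity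
        nlinarith

/-- bound of the eigenvalues -/
theorem eig_bound (V : ℤ → ℝ) (a b : ℤ) (E M : ℝ) (ψ : ℤ → ℝ) (h : IsEig V a b E ψ)
    (hV : ∀ n, a ≤ n → n ≤ b → |V n| ≤ M) : |E| ≤ M + 2 := by
  have hne : (Finset.Icc a b).Nonempty := by
    by_contra hc
    rw [Finset.not_nonempty_iff_eq_empty] at hc
    have := h.2.1
    unfold nsq at this
    rw [hc] at this
    simp at this
  obtain ⟨m, hm, hmax⟩ := Finset.exists_max_image (Finset.Icc a b) (fun n => |ψ n|) hne
  rw [Finset.mem_Icc] at hm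
  have hall : ∀ n, |ψ n| ≤ |ψ m| := by
    intro n
    by_cases hn : n < a ∨ b < n
    · rw [h.1 n hn, abs_zero]
      exact abs_nonneg _
    · push Not at hn
      exact hmax n (Finset.mem_Icc.2 hn)
  have hpos : 0 < |ψ m| := by
    by_contra hc
    push Not at hc
    have hz : ∀ n, ψ n = 0 := fun n => abs_nonpos_iff.1 ((hall n).trans hc)
    have := h.2.1
    unfold nsq at this
    simp [hz] at this
  have heq := h.2.2 m hm.1 hm.2
  have h1 : (E - V m) * ψ m = ψ (m + 1) + ψ (m - 1) := by linarith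
  have h2 : |E - V m| * |ψ m| ≤ 2 * |ψ m| := by
    rw [← abs_mul, h1]
    have := abs_add_le (ψ (m + 1)) (ψ (m - 1))
    linarith [hall (m + 1), hall (m - 1)]
  have h3 : |E - V m| ≤ 2 := le_of_mul_le_mul_right h2 hpos
  have h4 := abs_add_le (E - V m) (V m)
  rw [sub_add_cancel] at h4
  linarith [hV m hm.1 hm.2]

/-- an eigenvector of the box is a multiple of the solution from the right -/
theorem eig_rsol (V : ℤ → ℝ) (a b : ℤ) (E : ℝ) (ψ : ℤ → ℝ) (h : IsEig V a b E ψ) (j : ℕ)
    (hj : a ≤ b - j + 1) :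
    ψ (b - j) = ψ b * (rsol V E b j).1 ∧ ψ (b - j + 1) = ψ b * (rsol V E b j).2 := by
  induction j with
  | zero =>
    constructor
    · show ψ (b - ((0 : ℕ) : ℤ)) = ψ b * 1
      simp
    · show ψ (b - ((0 : ℕ) : ℤ) + 1) = ψ b * 0
      rw [Nat.cast_zero, sub_zero, mul_zero]
      exact h.1 _ (Or.inr (by linarith))
  | succ j ih =>
    push_cast at hj
    have h1 := ih (by linarith)
    have h2 := h.2.2 (b - j) (by linarith) (by linarith [Int.natCast_nonneg j])
    constructor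
    · show ψ (b - ((j + 1 : ℕ) : ℤ)) = ψ b * ((E - V (b - j)) * (rsol V E b j).1 - (rsol V E b j).2)
      have e1 : b - ((j + 1 : ℕ) : ℤ) = b - j - 1 := by push_cast; ring
      rw [e1]
      have e2 : ψ (b - j - 1) = (E - V (b - j)) * ψ (b - j) - ψ (b - j + 1) := by linarith
      rw [e2, h1.1, h1.2]
      ring
    · show ψ (b - ((j + 1 : ℕ) : ℤ) + 1) = ψ b * (rsol V E b j).1
      have e1 : b - ((j + 1 : ℕ) : ℤ) + 1 = b - j := by push_cast; ring
      rw [e1]
      exact h1.1

/-- right half of the first bad event -/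
def BadR (L : ℕ) (a τ : ℝ) (V : ℤ → ℝ) : Prop :=
  ∃ E ψ, IsEig V (-(L : ℤ)) L E ψ ∧ a ≤ |ψ 0| ∧ τ ≤ |ψ L|

theorem badR_meas (L : ℕ) (a τ : ℝ) : MeasurableSet {V : ℤ → ℝ | BadR L a τ V} := by
  have h1 := meas_one (-(L : ℤ)) L {p : ℝ × (ℤ → ℝ) | a ≤ |p.2 0| ∧ τ ≤ |p.2 L|} (by
    have c1 : IsClosed {p : ℝ × (ℤ → ℝ) | a ≤ |p.2 0|} :=
      isClosed_le continuous_const (by fun_prop)
    have c2 : IsClosed {p : ℝ × (ℤ → ℝ) | τ ≤ |p.2 L|} :=
      isClosed_le continuous_const (by fun_prop)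
    exact c1.inter c2)
  exact h1

theorem rsol_meas2 (W : ℤ → ℝ) (ε : ℝ) (b : ℤ) (j : ℕ) :
    Measurable fun p : (ℤ → ℝ) × ℝ => rsol (fun n => W n + ε * p.1 n) p.2 b j := by
  induction j with
  | zero => exact measurable_const
  | succ j ih =>
    have h1 : Measurable fun p : (ℤ → ℝ) × ℝ => (rsol (fun n => W n + ε * p.1 n) p.2 b j).1 :=
      measurable_fst.comp ih
    have h2 : Measurable fun p : (ℤ → ℝ) × ℝ => (rsol (fun n => W n + ε * p.1 n) p.2 b j).2 :=
      measurable_snd.comp ih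
    have h3 : Measurable fun p : (ℤ → ℝ) × ℝ => p.2 - (W (b - j) + ε * p.1 (b - j)) := by fun_prop
    exact ((h3.mul h1).sub h2).prodMk h1

theorem box_ae : ∀ᵐ x ∂PZ, ∀ n : ℤ, |x n| ≤ 1 := by
  rw [ae_all_iff]
  intro n
  have h1 := (measurePreserving_eval_infinitePi (fun _ : ℤ => U) n).quasiMeasurePreserving.ae
    U_supp
  filter_upwards [h1] with x hx
  exact abs_le.2 hx

theorem g1_right : ∃ c C : ℝ, 0 < c ∧ c ≤ 1 / 2 ∧ 0 < C ∧ ∀ (ε R a τ : ℝ) (W : ℤ → ℝ) (L : ℕ),
    0 < ε → ε ≤ 1 → 1 ≤ R → (∀ n, |W n| ≤ R) → 0 < a → 0 < τ → 1 ≤ L →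
    PZ {x | BadR L a τ (fun n => W n + ε * x n)} ≤
      ENNReal.ofReal (C * R ^ 2 / (ε ^ 3 * a ^ 2 * τ) * (1 - c * ε ^ 2) ^ L) := by
  obtain ⟨c, C, hc, hc2, hC, hFE⟩ := taskFE
  refine ⟨c, 16 * C, hc, hc2, by positivity, ?_⟩
  intro ε R a τ W L hε hε1 hR hW ha hτ hL
  set ρ : ℝ := 1 - c * ε ^ 2 with hρ
  have hε2 : ε ^ 2 ≤ 1 := pow_le_one₀ hε.le hε1
  have hρ2 : 0 ≤ ρ := by
    rw [hρ]
    nlinarith
  have hmap : Measurable fun (x : ℤ → ℝ) (n : ℤ) => W n + ε * x n := by fun_prop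
  have hBm : MeasurableSet {x : ℤ → ℝ | BadR L a τ (fun n => W n + ε * x n)} :=
    hmap (badR_meas L a τ)
  set Bb : Set (ℤ → ℝ) := {x | ∀ n ∈ Finset.Icc (-(L : ℤ)) L, |x n| ≤ 1} with hBb
  have hBbm : MeasurableSet Bb := by
    have : Bb = ⋂ n ∈ Finset.Icc (-(L : ℤ)) L, {x : ℤ → ℝ | |x n| ≤ 1} := by
      ext x
      simp [hBb]
    rw [this]
    exact Finset.measurableSet_biInter _ fun n _ =>
      measurableSet_le (by fun_prop) measurable_const
  set A : (ℤ → ℝ) → Set ℝ := fun x => {E | |E| ≤ 4 * R ∧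
    |(rsol (fun n => W n + ε * x n) E L L).1| ≤ 1 / τ} with hA
  have hAupd : ∀ x s, A (Function.update x 0 s) = A x := by
    intro x s
    simp only [hA]
    ext E
    have h1 : rsol (fun n => W n + ε * Function.update x 0 s n) E L L =
        rsol (fun n => W n + ε * x n) E L L := by
      refine rsol_congr _ _ E L L fun i hi => ?_
      rw [Function.update_of_ne]
      omega
    show (_ ∧ |(rsol (fun n => W n + ε * Function.update x 0 s n) E L L).1| ≤ 1 / τ) ↔ _
    rw [h1]
    rfl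
  have hSAP := taskSAP W ε (a ^ 2) (-(L : ℤ)) L 0 A
    ({x : ℤ → ℝ | BadR L a τ (fun n => W n + ε * x n)} ∩ Bb) hε (by positivity)
    (hBm.inter hBbm) hAupd (by
      rintro x ⟨⟨E, ψ, h1, h2, h3⟩, hx⟩
      refine ⟨E, ⟨?_, ?_⟩, ψ, h1, ?_⟩
      · have h4 := eig_bound _ _ _ E (2 * R) ψ h1 (by
          intro n hn1 hn2
          have h5 := hx n (Finset.mem_Icc.2 ⟨hn1, hn2⟩)
          have h6 := abs_add_le (W n) (ε * x n)
          have h7 : |ε * x n| ≤ 1 := by
            rw [abs_mul, abs_of_pos hε]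
            nlinarith [abs_nonneg (x n)]
          linarith [hW n])
        linarith
      · have h4 := (eig_rsol _ _ _ E ψ h1 L (by omega)).1
        rw [sub_self] at h4
        have h5 : |ψ 0| ≤ 1 := by
          have h6 : ψ 0 ^ 2 ≤ 1 := by
            rw [← h1.2.1]
            exact Finset.single_le_sum (f := fun n => ψ n ^ 2) (fun n _ => sq_nonneg _)
              (Finset.mem_Icc.2 ⟨by omega, by omega⟩)
          exact (sq_le_one_iff_abs_le_one _).1 h6
        rw [h4, abs_mul] at h5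
        rw [le_div_iff₀ hτ]
        have h7 : |(rsol (fun n => W n + ε * x n) E L L).1| * τ ≤
            |(rsol (fun n => W n + ε * x n) E L L).1| * |ψ L| :=
          mul_le_mul_of_nonneg_left h3 (abs_nonneg _)
        linarith
      · rw [← sq_abs (ψ 0)]
        exact pow_le_pow_left₀ ha.le h2 2)
  have hvol : ∫⁻ x, volume (A x) ∂PZ ≤
      ENNReal.ofReal (C * (4 * R) / ε ^ 2 * (1 / τ) * ρ ^ L) * ENNReal.ofReal (8 * R) := by
    have hjm : MeasurableSet {p : (ℤ → ℝ) × ℝ | |p.2| ≤ 4 * R ∧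
        |(rsol (fun n => W n + ε * p.1 n) p.2 L L).1| ≤ 1 / τ} := by
      have m1 : Measurable fun p : (ℤ → ℝ) × ℝ =>
          |(rsol (fun n => W n + ε * p.1 n) p.2 L L).1| :=
        (measurable_fst.comp (rsol_meas2 W ε L L)).abs
      have m2 : Measurable fun p : (ℤ → ℝ) × ℝ => |p.2| := by fun_prop
      exact (measurableSet_le m2 measurable_const).inter (measurableSet_le m1 measurable_const)
    have h1 : ∀ x, volume (A x) = ∫⁻ E, ({p : (ℤ → ℝ) × ℝ | |p.2| ≤ 4 * R ∧
        |(rsol (fun n => W n + ε * p.1 n) p.2 L L).1| ≤ 1 / τ}.indicator (fun _ => 1)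
          (x, E) : ℝ≥0∞) := by
      intro x
      have m1 : MeasurableSet (A x) := hjm.preimage (measurable_prodMk_left (x := x))
      rw [← lintegral_indicator_one m1]
      rfl
    rw [lintegral_congr h1, lintegral_lintegral_swap]
    · calc ∫⁻ E, (∫⁻ x, ({p : (ℤ → ℝ) × ℝ | |p.2| ≤ 4 * R ∧
        |(rsol (fun n => W n + ε * p.1 n) p.2 L L).1| ≤ 1 / τ}.indicator (fun _ => 1)
          (x, E) : ℝ≥0∞) ∂PZ)
          ≤ ∫⁻ E, (Set.Icc (-(4 * R)) (4 * R)).indicator
            (fun _ => ENNReal.ofReal (C * (4 * R) / ε ^ 2 * (1 / τ) * ρ ^ L)) E := by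
            refine lintegral_mono fun E => ?_
            by_cases hE : |E| ≤ 4 * R
            · rw [Set.indicator_of_mem (show E ∈ Set.Icc (-(4 * R)) (4 * R) from abs_le.1 hE)]
              refine le_trans (le_of_eq ?_) (hFE ε (4 * R) E (1 / τ) W L hε hε1 (by linarith) hE
                (fun n => (hW n).trans (by linarith)) (by positivity) hL)
              have m1 : MeasurableSet {x : ℤ → ℝ |
                  |(rsol (fun n => W n + ε * x n) E L L).1| ≤ 1 / τ} :=
                measurableSet_le ((measurable_fst.comp (rsol_meas W ε E L L)).abs) measurable_const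
              rw [← lintegral_indicator_one m1]
              refine lintegral_congr fun x => ?_
              by_cases hx : |(rsol (fun n => W n + ε * x n) E L L).1| ≤ 1 / τ
              · rw [Set.indicator_of_mem, Set.indicator_of_mem]
                · rfl
                · exact hx
                · exact ⟨hE, hx⟩
              · rw [Set.indicator_of_notMem, Set.indicator_of_notMem]
                · exact hx
                · exact fun h => hx h.2
            · rw [Set.indicator_of_notMem (show E ∉ Set.Icc (-(4 * R)) (4 * R) from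
                fun h => hE (abs_le.2 h))]
              refine le_of_eq ?_
              rw [← lintegral_zero (μ := PZ)]
              refine lintegral_congr fun x => ?_
              rw [Set.indicator_of_notMem]
              exact fun h => hE h.1
        _ = _ := by
            rw [lintegral_indicator measurableSet_Icc, lintegral_const, Measure.restrict_apply
              MeasurableSet.univ, Set.univ_inter, Real.volume_Icc]
            congr 2
            ring
    · exact (measurable_const.indicator hjm).aemeasurable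
  have hsplit : PZ {x | BadR L a τ (fun n => W n + ε * x n)} ≤
      PZ ({x : ℤ → ℝ | BadR L a τ (fun n => W n + ε * x n)} ∩ Bb) := by
    refine measure_mono_ae ?_
    filter_upwards [box_ae] with x hx h
    exact ⟨h, fun n _ => hx n⟩
  refine hsplit.trans (hSAP.trans ?_)
  rw [lintegral_const_mul' _ _ ENNReal.ofReal_ne_top]
  calc ENNReal.ofReal (1 / (2 * ε * a ^ 2)) * ∫⁻ x, volume (A x) ∂PZ
      ≤ ENNReal.ofReal (1 / (2 * ε * a ^ 2)) *
        (ENNReal.ofReal (C * (4 * R) / ε ^ 2 * (1 / τ) * ρ ^ L) * ENNReal.ofReal (8 * R)) := by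
        gcongr
    _ = ENNReal.ofReal (16 * C * R ^ 2 / (ε ^ 3 * a ^ 2 * τ) * ρ ^ L) := by
        rw [← ENNReal.ofReal_mul (by positivity), ← ENNReal.ofReal_mul (by positivity)]
        congr 1
        field_simp
        ring

/-- reflection -/
theorem PZ_refl (B : Set (ℤ → ℝ)) (hB : MeasurableSet B) :
    PZ {x | (fun n => x (-n)) ∈ B} = PZ B := by
  have h := Measure.infinitePi_map_piCongrLeft (X := fun _ : ℤ => ℝ) (fun _ => U) (Equiv.neg ℤ)
  have h1 : ∀ x : ℤ → ℝ, MeasurableEquiv.piCongrLeft (fun _ : ℤ => ℝ) (Equiv.neg ℤ) x =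
      fun n => x (-n) := by
    intro x
    funext n
    have := MeasurableEquiv.piCongrLeft_apply_apply (β := fun _ : ℤ => ℝ) (Equiv.neg ℤ) x (-n)
    simpa using this
  have h2 : Measure.map (fun (x : ℤ → ℝ) (n : ℤ) => x (-n)) PZ = PZ := by
    have e1 : (fun (x : ℤ → ℝ) (n : ℤ) => x (-n)) =
        MeasurableEquiv.piCongrLeft (fun _ : ℤ => ℝ) (Equiv.neg ℤ) := by
      funext x
      exact (h1 x).symm
    rw [e1]
    exact h
  conv_rhs => rw [← h2]
  rw [Measure.map_apply (by fun_prop) hB]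
  rfl

theorem eig_refl (V : ℤ → ℝ) (L : ℕ) (E : ℝ) (ψ : ℤ → ℝ) (h : IsEig V (-(L : ℤ)) L E ψ) :
    IsEig (fun n => V (-n)) (-(L : ℤ)) L E (fun n => ψ (-n)) := by
  refine ⟨fun n hn => h.1 (-n) (by omega), ?_, ?_⟩
  · rw [← h.2.1]
    unfold nsq
    refine Finset.sum_nbij' (fun n => -n) (fun n => -n) ?_ ?_ ?_ ?_ ?_
    · intro n hn
      rw [Finset.mem_Icc] at hn ⊢
      omega
    · intro n hn
      rw [Finset.mem_Icc] at hn ⊢
      omega
    · intro n _
      exact neg_neg n
    · intro n _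
      exact neg_neg n
    · intro n _
      rfl
  · intro n hn1 hn2
    have h1 := h.2.2 (-n) (by omega) (by omega)
    rw [show -n + 1 = -(n - 1) by ring, show -n - 1 = -(n + 1) by ring] at h1
    simp only
    linarith

theorem taskG1 : TaskG1 := by
  obtain ⟨c, C, hc, hc2, hC, h⟩ := g1_right
  refine ⟨c, 2 * C, hc, hc2, by positivity, ?_⟩
  intro ε R a τ W L hε hε1 hR hW ha hτ hL
  have hε2 : ε ^ 2 ≤ 1 := pow_le_one₀ hε.le hε1
  have hρ2 : 0 ≤ 1 - c * ε ^ 2 := by nlinarith
  have h1 := h ε R a τ W L hε hε1 hR hW ha hτ hL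
  have h2 := h ε R a τ (fun n => W (-n)) L hε hε1 hR (fun n => hW _) ha hτ hL
  have hmap : Measurable fun (x : ℤ → ℝ) (n : ℤ) => W (-n) + ε * x n := by fun_prop
  have hBm : MeasurableSet {x : ℤ → ℝ | BadR L a τ (fun n => W (-n) + ε * x n)} :=
    hmap (badR_meas L a τ)
  rw [← PZ_refl _ hBm] at h2
  have h3 : {x | Bad1 L a τ (fun n => W n + ε * x n)} ⊆
      {x | BadR L a τ (fun n => W n + ε * x n)} ∪
      {x : ℤ → ℝ | (fun n => x (-n)) ∈ {x : ℤ → ℝ | BadR L a τ (fun n => W (-n) + ε * x n)}} := by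
    rintro x ⟨E, ψ, g1, g2, g3 | g3⟩
    · exact Or.inl ⟨E, ψ, g1, g2, g3⟩
    · right
      refine ⟨E, fun n => ψ (-n), eig_refl _ L E ψ g1, ?_, g3⟩
      simpa using g2
  refine (measure_mono h3).trans ((measure_union_le _ _).trans ?_)
  calc _ ≤ ENNReal.ofReal (C * R ^ 2 / (ε ^ 3 * a ^ 2 * τ) * (1 - c * ε ^ 2) ^ L) +
        ENNReal.ofReal (C * R ^ 2 / (ε ^ 3 * a ^ 2 * τ) * (1 - c * ε ^ 2) ^ L) := add_le_add h1 h2
    _ = _ := by
        rw [← ENNReal.ofReal_add (by positivity) (by positivity)]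
        congr 1
        ring

end Pool.Agent.Y661.PP
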