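import Pool.Agent.Y661.PP.G1
import Pool.Agent.Y661.PP.Box2

/-!
`TaskG2`.
-/

set_option autoImplicit false

open scoped BigOperators ENNReal NNReal Topology
open MeasureTheory Filter

namespace Pool.Agent.Y661.PP

open Pool.Agent.H695R3.PP

theorem eig_congr {V V' : ℤ → ℝ} {a b : ℤ} {E : ℝ} {ψ : ℤ → ℝ} (h : IsEig V a b E ψ)
    (hV : ∀ n, a ≤ n → n ≤ b → V n = V' n) : IsEig V' a b E ψ :=
  ⟨h.1, h.2.1, fun n h1 h2 => by rw [← hV n h1 h2]; exact h.2.2 n h1 h2⟩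

/-- a site where the eigenvector is large -/
theorem big_site {V : ℤ → ℝ} {a b : ℤ} {E : ℝ} {ψ : ℤ → ℝ} (h : IsEig V a b E ψ) (N : ℝ)
    (hN : 0 < N) (hb : (b - a + 1 : ℤ) ≤ N) : ∃ n, a ≤ n ∧ n ≤ b ∧ 1 / N ≤ ψ n ^ 2 := by
  by_contra hc
  push Not at hc
  have hab : a ≤ b := by
    by_contra hc2
    exact no_eig_empty V a b (by omega) E ψ h
  have h1 : nsq a b ψ < 1 := by
    unfold nsq
    calc ∑ n ∈ Finset.Icc a b, ψ n ^ 2 < ∑ n ∈ Finset.Icc a b, 1 / N := by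
          refine Finset.sum_lt_sum_of_nonempty ⟨a, Finset.mem_Icc.2 ⟨le_rfl, hab⟩⟩ ?_
          intro n hn
          rw [Finset.mem_Icc] at hn
          exact hc n hn.1 hn.2
      _ = ((b - a + 1 : ℤ) : ℝ) * (1 / N) := by
          rw [Finset.sum_const, Int.card_Icc, nsmul_eq_mul]
          congr 1
          have : (((b + 1 - a).toNat : ℕ) : ℤ) = b - a + 1 := by omega
          exact_mod_cast congrArg (Int.cast : ℤ → ℝ) this
      _ ≤ N * (1 / N) := by
          gcongr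
      _ = 1 := by field_simp
  rw [h.2.1] at h1
  exact lt_irrefl _ h1

theorem card_vol (V : ℤ → ℝ) (a b : ℤ) (hab : a ≤ b) (d N : ℝ) (hd : 0 < d)
    (hN : (b - a + 1 : ℤ) ≤ N) :
    volume {E : ℝ | ∃ lam φ, IsEig V a b lam φ ∧ |lam - E| ≤ 3 * d} ≤
      ENNReal.ofReal (N * (6 * d)) := by
  obtain ⟨F, hF, hF2⟩ := taskCard V a b hab
  have h1 : {E : ℝ | ∃ lam φ, IsEig V a b lam φ ∧ |lam - E| ≤ 3 * d} ⊆
      ⋃ lam ∈ F, Set.Icc (lam - 3 * d) (lam + 3 * d) := by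
    rintro E ⟨lam, φ, g1, g2⟩
    simp only [Set.mem_iUnion]
    have g3 := abs_le.1 g2
    exact ⟨lam, hF2 _ _ g1, by linarith [g3.2], by linarith [g3.1]⟩
  refine (measure_mono h1).trans ((measure_biUnion_finset_le _ _).trans ?_)
  have h2 : ∀ lam ∈ F, volume (Set.Icc (lam - 3 * d) (lam + 3 * d)) ≤
      ENNReal.ofReal (6 * d) := by
    intro lam _
    rw [Real.volume_Icc]
    apply ENNReal.ofReal_le_ofReal
    linarith
  refine (Finset.sum_le_card_nsmul _ _ _ h2).trans ?_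
  rw [nsmul_eq_mul, ENNReal.ofReal_mul' (p := N) (by positivity : (0 : ℝ) ≤ 6 * d)]
  gcongr
  rw [← ENNReal.ofReal_natCast]
  apply ENNReal.ofReal_le_ofReal
  refine le_trans ?_ hN
  exact_mod_cast hF

theorem taskG2 : TaskG2 := by
  refine ⟨48, by norm_num, ?_⟩
  intro ε d W L hε hd
  set N : ℝ := 2 * (L : ℝ) + 1 with hN
  have hNpos : 0 < N := by positivity
  set B : ℤ × ℤ → Set (ℤ → ℝ) := fun p => {x | ∃ E ψ E' ψ',
    IsEig (fun n => W n + ε * x n) (-(L : ℤ)) (p.1 - 1) E ψ ∧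
    IsEig (fun n => W n + ε * x n) p.1 L E' ψ' ∧
      |E - E'| ≤ 3 * d ∧ 1 / N ≤ ψ' p.2 ^ 2} with hB
  set S : Finset (ℤ × ℤ) := (Finset.Icc (-(L : ℤ)) L ×ˢ Finset.Icc (-(L : ℤ)) L).filter
    (fun p => -(L : ℤ) < p.1 ∧ p.1 ≤ p.2) with hS
  have hsub : {x | Bad2 L d (fun n => W n + ε * x n)} ⊆ ⋃ p ∈ S, B p := by
    rintro x ⟨E, ψ, E', ψ', g1, g2, g3, g4⟩
    obtain ⟨m, hm1, hm2, lam, φ, lam', φ', k1, k2, k3⟩ :=
      taskSplit _ (-(L : ℤ)) L E E' d ψ ψ' (by omega) g1 g2 g3 g4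
    obtain ⟨n, hn1, hn2, hn3⟩ := big_site k2 N hNpos (by
      rw [hN]
      have : (L : ℤ) - m + 1 ≤ 2 * L + 1 := by omega
      exact_mod_cast this)
    simp only [Set.mem_iUnion]
    refine ⟨(m, n), ?_, lam, φ, lam', φ', k1, k2, k3, hn3⟩
    rw [hS, Finset.mem_filter, Finset.mem_product, Finset.mem_Icc, Finset.mem_Icc]
    simp only
    omega
  have hmap : Measurable fun (x : ℤ → ℝ) (n : ℤ) => W n + ε * x n := by fun_prop
  have hone : ∀ p ∈ S, PZ (B p) ≤ ENNReal.ofReal (3 * N ^ 2 * d / ε) := by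
    rintro ⟨m, n⟩ hp
    rw [hS, Finset.mem_filter, Finset.mem_product, Finset.mem_Icc, Finset.mem_Icc] at hp
    simp only at hp
    have hBm : MeasurableSet (B (m, n)) := by
      refine hmap (meas_two (-(L : ℤ)) (m - 1) m L
        {q : (ℝ × (ℤ → ℝ)) × (ℝ × (ℤ → ℝ)) | |q.1.1 - q.2.1| ≤ 3 * d ∧ 1 / N ≤ q.2.2 n ^ 2} ?_)
      have c1 : IsClosed {q : (ℝ × (ℤ → ℝ)) × (ℝ × (ℤ → ℝ)) | |q.1.1 - q.2.1| ≤ 3 * d} :=
        isClosed_le (by fun_prop) continuous_const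
      have c2 : IsClosed {q : (ℝ × (ℤ → ℝ)) × (ℝ × (ℤ → ℝ)) | 1 / N ≤ q.2.2 n ^ 2} :=
        isClosed_le continuous_const (by fun_prop)
      exact c1.inter c2
    have hSAP := taskSAP W ε (1 / N) m L n
      (fun x => {E : ℝ | ∃ lam φ, IsEig (fun n => W n + ε * x n) (-(L : ℤ)) (m - 1) lam φ ∧
        |lam - E| ≤ 3 * d}) (B (m, n)) hε (by positivity) hBm (by
        intro x s
        ext E
        have hcg : ∀ k, -(L : ℤ) ≤ k → k ≤ m - 1 →
            W k + ε * Function.update x n s k = W k + ε * x k := by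
          intro k _ hk
          rw [Function.update_of_ne (by omega)]
        constructor
        · rintro ⟨lam, φ, g1, g2⟩
          exact ⟨lam, φ, eig_congr g1 hcg, g2⟩
        · rintro ⟨lam, φ, g1, g2⟩
          exact ⟨lam, φ, eig_congr g1 fun k h1 h2 => (hcg k h1 h2).symm, g2⟩) (by
        rintro x ⟨E, ψ, E', ψ', g1, g2, g3, g4⟩
        exact ⟨E', ⟨E, ψ, g1, g3⟩, ψ', g2, g4⟩)
    refine hSAP.trans ?_
    calc (∫⁻ x, ENNReal.ofReal (1 / (2 * ε * (1 / N))) * volume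
        {E : ℝ | ∃ lam φ, IsEig (fun n => W n + ε * x n) (-(L : ℤ)) (m - 1) lam φ ∧
        |lam - E| ≤ 3 * d} ∂PZ) ≤
        (∫⁻ _ : ℤ → ℝ, ENNReal.ofReal (1 / (2 * ε * (1 / N))) *
          ENNReal.ofReal (N * (6 * d)) ∂PZ) := by
          refine lintegral_mono fun x => ?_
          gcongr
          refine card_vol _ _ _ (by omega) d N hd ?_
          rw [hN]
          have : m - 1 - -(L : ℤ) + 1 ≤ 2 * L + 1 := by omega
          exact_mod_cast this
      _ = ENNReal.ofReal (3 * N ^ 2 * d / ε) := by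
          rw [lintegral_const, measure_univ, mul_one, ← ENNReal.ofReal_mul (by positivity)]
          congr 1
          field_simp
          ring
  refine (measure_mono hsub).trans ((measure_biUnion_finset_le _ _).trans ?_)
  refine (Finset.sum_le_card_nsmul _ _ _ hone).trans ?_
  have hcard : (S.card : ℝ) ≤ N ^ 2 := by
    have h1 : S.card ≤ (2 * L + 1) * (2 * L + 1) := by
      refine (Finset.card_filter_le _ _).trans ?_
      rw [Finset.card_product, Int.card_Icc]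
      have : ((L : ℤ) + 1 - -(L : ℤ)).toNat = 2 * L + 1 := by omega
      rw [this]
    have h2 : (S.card : ℝ) ≤ ((2 * L + 1) * (2 * L + 1) : ℕ) := by exact_mod_cast h1
    refine h2.trans (le_of_eq ?_)
    push_cast
    rw [hN]
    ring
  rw [nsmul_eq_mul, ← ENNReal.ofReal_natCast, ← ENNReal.ofReal_mul (by positivity)]
  apply ENNReal.ofReal_le_ofReal
  have h3 : N ≤ 2 * ((L : ℝ) + 1) := by
    rw [hN]
    linarith
  calc (S.card : ℝ) * (3 * N ^ 2 * d / ε) ≤ N ^ 2 * (3 * N ^ 2 * d / ε) := by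
        gcongr
    _ = 3 * N ^ 4 * d / ε := by ring
    _ ≤ 3 * (2 * ((L : ℝ) + 1)) ^ 4 * d / ε := by
        gcongr
    _ = _ := by ring

end Pool.Agent.Y661.PP
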