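import Pool.Agent.H695R3.PP.Stmts

/-!
`TaskGroup`, `TaskTransfer`, `TaskNum`.
-/

set_option autoImplicit false

open scoped BigOperators ENNReal NNReal Topology
open MeasureTheory Filter

namespace Pool.Agent.Y661.PP

open Pool.Agent.H695R3.PP

theorem no_torsion {Ω : Type} [AddCommGroup Ω] [TopologicalSpace Ω] [T2Space Ω] [Infinite Ω]
    (α : Ω) (hd : Dense (Set.range (fun n : ℤ => n • α))) (j : ℤ) (hj : j ≠ 0) : j • α ≠ 0 := by
  intro h
  have h1 : (Set.range (fun n : ℤ => n • α)) ⊆ (fun n : ℤ => n • α) '' Set.Icc 0 |j| := by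
    rintro _ ⟨n, rfl⟩
    refine ⟨n % |j|, ⟨Int.emod_nonneg _ (abs_ne_zero.2 hj),
      (Int.emod_lt_of_pos _ (abs_pos.2 hj)).le⟩, ?_⟩
    have h2 : |j| • α = 0 := by
      rcases abs_choice j with h3 | h3
      · rw [h3, h]
      · rw [h3, neg_smul, h, neg_zero]
    have h3 : n % |j| + |j| * (n / |j|) = n := Int.emod_add_mul_ediv n |j|
    simp only
    conv_rhs => rw [← h3, add_smul, mul_comm, mul_smul, h2, smul_zero, add_zero]
  have h2 : (Set.range (fun n : ℤ => n • α)).Finite := ((Set.finite_Icc _ _).image _).subset h1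
  have h3 : (Set.range (fun n : ℤ => n • α)) = Set.univ := by
    rw [← h2.isClosed.closure_eq]
    exact hd.closure_eq
  rw [h3] at h2
  exact Set.infinite_univ h2

theorem taskGroup : TaskGroup := by
  intro Ω _ _ _ _ _ _ _ α hd N
  set F : Set Ω := (fun j : ℤ => j • α) '' {j : ℤ | j ≠ 0 ∧ |j| ≤ (N : ℤ)} with hF
  have hFfin : F.Finite := by
    refine Set.Finite.image _ ((Set.finite_Icc (-(N : ℤ)) N).subset ?_)
    rintro j ⟨_, hj⟩
    exact abs_le.1 hj
  have h0 : (0 : Ω) ∈ Fᶜ := by
    rintro ⟨j, ⟨hj, _⟩, hj2⟩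
    exact no_torsion α hd j hj hj2
  obtain ⟨H, hH⟩ := ProfiniteGrp.exist_openNormalAddSubgroup_sub_open_nhds_of_zero
    hFfin.isClosed.isOpen_compl h0
  refine ⟨H.toAddSubgroup, H.isOpen', ?_, ?_⟩
  · exact AddSubgroup.quotient_finite_of_isOpen _ H.isOpen'
  · intro j hj hj2 hmem
    exact hH hmem ⟨j, ⟨hj, hj2⟩, rfl⟩

theorem taskTransfer : TaskTransfer := by
  intro Q _ q L W ε B hq hB hloc
  set I : Finset ℤ := Finset.Icc (-(L : ℤ)) L with hI
  set g : (I → ℝ) → (ℤ → ℝ) := fun y n => W n + ε * (if h : n ∈ I then y ⟨n, h⟩ else 0) with hg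
  have hgm : Measurable g := by
    rw [hg]
    refine measurable_pi_lambda _ fun n => ?_
    by_cases h : n ∈ I
    · simp only [h, dif_pos]
      fun_prop
    · simp only [h, dif_neg, not_false_eq_true]
      exact measurable_const
  have h1 : PZ {x | (fun n => W n + ε * x n) ∈ B} = Measure.pi (fun _ : I => U) (g ⁻¹' B) := by
    have e1 := Measure.infinitePi_map_restrict (μ := fun _ : ℤ => U) (I := I)
    rw [← e1, Measure.map_apply (by fun_prop) (hgm hB)]
    show PZ _ = PZ _
    congr 1
    ext x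
    refine hloc _ _ ?_
    intro n hn1 hn2
    have hn : n ∈ I := Finset.mem_Icc.2 ⟨hn1, hn2⟩
    simp [hg, hn, Finset.restrict]
  have h2 : Measure.pi (fun _ : Q => U) {η | (fun n => W n + ε * η (q n)) ∈ B} =
      Measure.pi (fun _ : I => U) (g ⁻¹' B) := by
    have e0 : ProbabilityTheory.iIndepFun (fun (i : Q) (ω : Q → ℝ) => ω i)
        (Measure.pi fun _ : Q => U) :=
      ProbabilityTheory.iIndepFun_pi (X := fun (_ : Q) (x : ℝ) => x)
        (fun i => aemeasurable_id)
    have e1 : ProbabilityTheory.iIndepFun (fun (i : I) (ω : Q → ℝ) => ω (q i))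
        (Measure.pi fun _ : Q => U) := by
      refine ProbabilityTheory.iIndepFun.precomp (g := fun i : I => q i) ?_ e0
      intro i j hij
      exact Subtype.ext (hq (Finset.mem_Icc.1 i.2) (Finset.mem_Icc.1 j.2) hij)
    rw [ProbabilityTheory.iIndepFun_iff_map_fun_eq_pi_map (fun i : I =>
      (measurable_pi_apply (q i)).aemeasurable)] at e1
    have e2 : (fun i : I => Measure.map (fun ω : Q → ℝ => ω (q i)) (Measure.pi fun _ : Q => U)) =
        fun _ : I => U := by
      funext i
      exact (measurePreserving_eval (fun _ : Q => U) (q i)).map_eq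
    rw [e2] at e1
    rw [← e1, Measure.map_apply (by fun_prop) (hgm hB)]
    congr 1
    ext η
    refine hloc _ _ ?_
    intro n hn1 hn2
    have hn : n ∈ I := Finset.mem_Icc.2 ⟨hn1, hn2⟩
    simp [hg, hn]
  rw [h1, h2]

theorem taskNum : TaskNum := by
  intro κ A hκ hA
  have hA0 : 0 < A := by linarith
  have hsum : Summable (fun k : ℕ => A ^ k * Real.exp (-(κ * 4 ^ k))) := by
    refine summable_of_ratio_test_tendsto_lt_one (l := 0) one_pos ?_ ?_
    · exact Eventually.of_forall fun n => by positivity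
    · have h1 : ∀ n : ℕ, ‖A ^ (n + 1) * Real.exp (-(κ * 4 ^ (n + 1)))‖ /
          ‖A ^ n * Real.exp (-(κ * 4 ^ n))‖ = A * Real.exp (-(3 * κ * 4 ^ n)) := by
        intro n
        rw [Real.norm_of_nonneg (by positivity), Real.norm_of_nonneg (by positivity),
          div_eq_iff (by positivity)]
        have : Real.exp (-(κ * 4 ^ (n + 1))) =
            Real.exp (-(3 * κ * 4 ^ n)) * Real.exp (-(κ * 4 ^ n)) := by
          rw [← Real.exp_add]
          congr 1
          ring
        rw [this, pow_succ]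
        ring
      simp_rw [h1]
      have h2 : Tendsto (fun n : ℕ => 3 * κ * (4 : ℝ) ^ n) atTop atTop :=
        (tendsto_pow_atTop_atTop_of_one_lt (by norm_num)).const_mul_atTop (by positivity)
      have h3 := (Real.tendsto_exp_neg_atTop_nhds_zero.comp h2).const_mul A
      rw [mul_zero] at h3
      exact h3
  refine ⟨hsum, ?_⟩
  have hs1 : Summable (fun k : ℕ => Real.exp (-(κ * 4 ^ k))) := by
    refine Summable.of_nonneg_of_le (fun k => by positivity) (fun k => ?_) hsum
    have : 1 ≤ A ^ k := one_le_pow₀ hA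
    nlinarith [Real.exp_pos (-(κ * 4 ^ k))]
  have h1 := tendsto_sum_nat_add (fun k : ℕ => A ^ k * Real.exp (-(κ * 4 ^ k)))
  refine squeeze_zero ?_ ?_ h1
  · intro k
    exact mul_nonneg (by positivity) (tsum_nonneg fun j => by positivity)
  · intro k
    rw [← tsum_mul_left]
    have hs2 : Summable fun j : ℕ => Real.exp (-(κ * 4 ^ (k + j))) := by
      have := (summable_nat_add_iff k).2 hs1
      refine this.congr fun j => ?_
      rw [add_comm]
    have hs3 : Summable fun j : ℕ => A ^ (j + k) * Real.exp (-(κ * 4 ^ (j + k))) :=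
      (summable_nat_add_iff k).2 hsum
    refine (hs2.mul_left _).tsum_le_tsum (fun j => ?_) hs3
    rw [add_comm j k]
    refine mul_le_mul_of_nonneg_right ?_ (by positivity)
    exact pow_le_pow_right₀ hA (by omega)

end Pool.Agent.Y661.PP
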