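import Pool.Agent.Y661.PP.SA

/-!
`TaskIso`, `TaskAvg`.
-/

set_option autoImplicit false

open scoped BigOperators ENNReal NNReal Topology
open MeasureTheory Filter

namespace Pool.Agent.Y661.PP

open Pool.Agent.H695R3.PP

theorem UR_sq (c z : ℝ) (g : ℝ → ℝ≥0∞) :
    UR c g z ^ 2 = ENNReal.ofReal |(z ^ 2)⁻¹| * g (c - z⁻¹) ^ 2 := by
  unfold UR
  rw [mul_pow, ← ENNReal.ofReal_pow (by positivity)]
  congr 2
  rw [abs_inv, abs_pow, inv_pow]

theorem UR_meas (c : ℝ) (g : ℝ → ℝ≥0∞) (hg : Measurable g) : Measurable (UR c g) := by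
  unfold UR
  exact (by fun_prop : Measurable fun z : ℝ => ENNReal.ofReal |z|⁻¹).mul
    (hg.comp (by fun_prop : Measurable fun z : ℝ => c - z⁻¹))

theorem cov_inv (c : ℝ) (s : Set ℝ) (hs : MeasurableSet s) (h0 : ∀ z ∈ s, z ≠ 0)
    (G : ℝ → ℝ≥0∞) :
    ∫⁻ y in (fun z => c - z⁻¹) '' s, G y = ∫⁻ z in s, ENNReal.ofReal |(z ^ 2)⁻¹| * G (c - z⁻¹) := by
  refine lintegral_image_eq_lintegral_abs_deriv_mul hs (fun z hz => ?_) ?_ G
  · have h1 := (hasDerivAt_inv (h0 z hz)).const_sub c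
    simp only [neg_neg] at h1
    exact h1.hasDerivWithinAt
  · intro z _ z' _ h
    have h1 : c - z⁻¹ = c - z'⁻¹ := h
    have h2 : z⁻¹ = z'⁻¹ := by linarith
    exact inv_injective h2

theorem taskIso : TaskIso := by
  intro c g hg
  constructor
  · unfold nsqL
    have h1 := cov_inv c ({0}ᶜ) (measurableSet_singleton 0).compl (fun z hz => hz)
      (fun y => g y ^ 2)
    have h2 : (fun z : ℝ => c - z⁻¹) '' ({0}ᶜ) = {c}ᶜ := by
      ext y
      simp only [Set.mem_image, Set.mem_compl_iff, Set.mem_singleton_iff]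
      constructor
      · rintro ⟨z, hz, rfl⟩ h
        have : z⁻¹ = 0 := by linarith
        exact hz (inv_eq_zero.1 this)
      · intro hy
        refine ⟨(c - y)⁻¹, ?_, ?_⟩
        · intro h
          exact hy (by linarith [inv_eq_zero.1 h])
        · rw [inv_inv]
          ring
    rw [h2] at h1
    have h3 : ∀ x : ℝ, (volume.restrict ({x}ᶜ : Set ℝ)) = volume := by
      intro x
      rw [restrict_compl_singleton]
    rw [h3, h3] at h1
    rw [h1]
    refine lintegral_congr fun z => ?_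
    exact UR_sq c z g
  · have hs : MeasurableSet {z : ℝ | 1 < |z|} := measurableSet_lt measurable_const (by fun_prop)
    have h1 := cov_inv c {z : ℝ | 1 < |z|} hs (fun z hz h => by
      rw [h] at hz
      simp at hz
      linarith) (fun y => g y ^ 2)
    have h2 : ∫⁻ z in {z : ℝ | 1 < |z|}, UR c g z ^ 2 =
        ∫⁻ y in (fun z => c - z⁻¹) '' {z : ℝ | 1 < |z|}, g y ^ 2 := by
      rw [h1]
      refine lintegral_congr fun z => ?_
      exact UR_sq c z g
    rw [h2]
    refine lintegral_mono_set ?_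
    rintro y ⟨z, hz, rfl⟩
    have hz1 : 1 < |z| := hz
    have h3 : |z⁻¹| ≤ 1 := by
      rw [abs_inv]
      exact inv_le_one_of_one_le₀ hz1.le
    have h4 := abs_le.1 h3
    exact ⟨by linarith [h4.2], by linarith [h4.1]⟩

theorem avg_meas (ε : ℝ) (g : ℝ → ℝ≥0∞) (hg : Measurable g) : Measurable (avg ε g) := by
  unfold avg
  exact (hg.comp (by fun_prop : Measurable fun p : ℝ × ℝ => p.1 + ε * p.2)).lintegral_prod_right'

/-- Jensen / Cauchy-Schwarz -/
theorem jensen {Ω : Type} [MeasurableSpace Ω] (μ : Measure Ω) [IsProbabilityMeasure μ]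
    (X : Ω → ℝ≥0∞) (hX : Measurable X) : (∫⁻ s, X s ∂μ) ^ 2 ≤ ∫⁻ s, X s ^ 2 ∂μ := by
  have h := ENNReal.lintegral_mul_le_Lp_mul_Lq μ (Real.HolderConjugate.two_two) hX.aemeasurable
    (measurable_const (a := (1 : ℝ≥0∞))).aemeasurable
  simp only [Pi.mul_apply, mul_one, ENNReal.one_rpow, lintegral_const, measure_univ] at h
  calc (∫⁻ s, X s ∂μ) ^ 2 ≤ ((∫⁻ s, X s ^ (2 : ℝ) ∂μ) ^ (1 / 2 : ℝ)) ^ 2 := by gcongr
    _ = ∫⁻ s, X s ^ 2 ∂μ := by
        rw [← ENNReal.rpow_natCast, ← ENNReal.rpow_mul]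
        norm_num

theorem U_ac : U ≪ volume := by
  unfold U
  exact (Measure.smul_absolutelyContinuous).trans Measure.restrict_le_self.absolutelyContinuous

theorem U_supp : ∀ᵐ s ∂U, s ∈ Set.Icc (-1 : ℝ) 1 := by
  unfold U
  exact (Measure.smul_absolutelyContinuous (c := ENNReal.ofReal (1 / 2))).ae_le
    (ae_restrict_mem measurableSet_Icc)

theorem avg_sq_le (ε : ℝ) (g : ℝ → ℝ≥0∞) (hg : Measurable g) (x : ℝ) :
    avg ε g x ^ 2 ≤ ∫⁻ s, g (x + ε * s) ^ 2 ∂U :=
  jensen U (fun s => g (x + ε * s)) (hg.comp (by fun_prop))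

theorem taskAvg : TaskAvg := by
  intro ε g hε hε1 hg
  have hm2 : Measurable fun p : ℝ × ℝ => g (p.1 + ε * p.2) ^ 2 :=
    (hg.comp (by fun_prop : Measurable fun p : ℝ × ℝ => p.1 + ε * p.2)).pow_const 2
  refine ⟨avg_meas ε g hg, ?_, ?_, ?_⟩
  · unfold nsqL
    calc ∫⁻ x, avg ε g x ^ 2 ≤ ∫⁻ x, ∫⁻ s, g (x + ε * s) ^ 2 ∂U :=
          lintegral_mono fun x => avg_sq_le ε g hg x
      _ = ∫⁻ s, (∫⁻ x, g (x + ε * s) ^ 2) ∂U := lintegral_lintegral_swap hm2.aemeasurable
      _ = ∫⁻ s, (∫⁻ x, g x ^ 2) ∂U := by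
          refine lintegral_congr fun s => ?_
          exact lintegral_add_right_eq_self (fun x => g x ^ 2) (ε * s)
      _ = ∫⁻ x, g x ^ 2 := by simp
  · intro c
    calc ∫⁻ y in Set.Icc (c - 1) (c + 1), avg ε g y ^ 2
        ≤ ∫⁻ y in Set.Icc (c - 1) (c + 1), ∫⁻ s, g (y + ε * s) ^ 2 ∂U :=
          lintegral_mono fun x => avg_sq_le ε g hg x
      _ = ∫⁻ s, (∫⁻ y in Set.Icc (c - 1) (c + 1), g (y + ε * s) ^ 2) ∂U :=
          lintegral_lintegral_swap hm2.aemeasurable
      _ ≤ ∫⁻ _, (∫⁻ y in Set.Icc (c - 2) (c + 2), g y ^ 2) ∂U := by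
          refine lintegral_mono_ae ?_
          filter_upwards [U_supp] with s hs
          rw [← lintegral_indicator measurableSet_Icc, ← lintegral_indicator measurableSet_Icc]
          rw [← lintegral_add_right_eq_self (fun x => (Set.Icc (c - 2) (c + 2)).indicator
            (fun y => g y ^ 2) x) (ε * s)]
          refine lintegral_mono fun x => ?_
          by_cases hx : x ∈ Set.Icc (c - 1) (c + 1)
          · rw [Set.indicator_of_mem hx, Set.indicator_of_mem]
            have h1 : |ε * s| ≤ 1 := by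
              rw [abs_mul, abs_of_pos hε]
              have := abs_le.2 hs
              nlinarith [abs_nonneg s]
            have h2 := abs_le.1 h1
            exact ⟨by linarith [hx.1, h2.1], by linarith [hx.2, h2.2]⟩
          · rw [Set.indicator_of_notMem hx]
            exact zero_le
      _ = ∫⁻ y in Set.Icc (c - 2) (c + 2), g y ^ 2 := by simp
  · intro x
    have h1 : avg ε g x ^ 2 ≤ ENNReal.ofReal (1 / ε) * nsqL g := by
      refine (avg_sq_le ε g hg x).trans ?_
      unfold U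
      rw [lintegral_smul_measure]
      have h2 : ∫⁻ s in Set.Icc (-1 : ℝ) 1, g (x + ε * s) ^ 2 ≤ ∫⁻ s, g (x + ε * s) ^ 2 :=
        setLIntegral_le_lintegral _ _
      have h3 : ∫⁻ s, g (x + ε * s) ^ 2 = ENNReal.ofReal (1 / ε) * nsqL g := by
        have h4 := lintegral_map (μ := volume) (f := fun y => g (x + y) ^ 2)
          (g := fun s : ℝ => ε * s) ((hg.comp (by fun_prop)).pow_const 2) (by fun_prop)
        rw [Real.map_volume_mul_left hε.ne', lintegral_smul_measure] at h4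
        have h5 : ∫⁻ y, g (x + y) ^ 2 = nsqL g :=
          lintegral_add_left_eq_self (fun y => g y ^ 2) x
        rw [h5, abs_inv, abs_of_pos hε, ← one_div] at h4
        exact h4.symm
      calc ENNReal.ofReal (1 / 2) * ∫⁻ s in Set.Icc (-1 : ℝ) 1, g (x + ε * s) ^ 2
          ≤ 1 * ∫⁻ s, g (x + ε * s) ^ 2 := by
            gcongr
            · rw [ENNReal.ofReal_le_one]
              norm_num
        _ = _ := by rw [one_mul, h3]
    have h2 : avg ε g x = (avg ε g x ^ 2) ^ (1 / 2 : ℝ) := by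
      rw [← ENNReal.rpow_natCast, ← ENNReal.rpow_mul]
      norm_num
    rw [h2]
    calc (avg ε g x ^ 2) ^ (1 / 2 : ℝ) ≤ (ENNReal.ofReal (1 / ε) * nsqL g) ^ (1 / 2 : ℝ) := by
          gcongr
      _ = ENNReal.ofReal (1 / Real.sqrt ε) * nsqL g ^ (1 / 2 : ℝ) := by
          rw [ENNReal.mul_rpow_of_nonneg _ _ (by norm_num), ENNReal.ofReal_rpow_of_pos
            (by positivity)]
          congr 2
          rw [← Real.sqrt_eq_rpow, Real.sqrt_div zero_le_one, Real.sqrt_one]

theorem avg_congr {ε : ℝ} (hε : 0 < ε) {g g' : ℝ → ℝ≥0∞} (h : g =ᵐ[volume] g') :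
    avg ε g = avg ε g' := by
  funext x
  unfold avg
  refine lintegral_congr_ae ?_
  refine U_ac.ae_le ?_
  have h1 : ∀ᵐ y : ℝ, g y = g' y := h
  have h2 : Measure.QuasiMeasurePreserving (fun s : ℝ => x + ε * s) volume volume := by
    have e1 : Measure.QuasiMeasurePreserving (fun s : ℝ => ε * s) volume volume := by
      refine ⟨by fun_prop, ?_⟩
      rw [Real.map_volume_mul_left hε.ne']
      exact Measure.smul_absolutelyContinuous
    have e2 : MeasurePreserving (fun s : ℝ => x + s) volume volume :=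
      measurePreserving_add_left volume x
    exact e2.quasiMeasurePreserving.comp e1
  exact h2.ae h1

end Pool.Agent.Y661.PP
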