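import Pool.Agent.Y661.PP.KS1

/-!
`TaskDich`.
-/

set_option autoImplicit false

open scoped BigOperators ENNReal NNReal Topology
open MeasureTheory Filter

namespace Pool.Agent.Y661.PP

open Pool.Agent.H695R3.PP

theorem var_ineq {Ω : Type} [MeasurableSpace Ω] (μ : Measure Ω) [IsProbabilityMeasure μ]
    (X : Ω → ℝ≥0∞) (hX : Measurable X) :
    ∫⁻ s, ENNReal.ofReal (((X s).toReal - (∫⁻ s, X s ∂μ).toReal) ^ 2) ∂μ + (∫⁻ s, X s ∂μ) ^ 2 ≤
      ∫⁻ s, X s ^ 2 ∂μ := by
  by_cases h : ∫⁻ s, X s ^ 2 ∂μ = ⊤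
  · rw [h]
    exact le_top
  have hfin : ∀ᵐ s ∂μ, X s < ⊤ := by
    filter_upwards [ae_lt_top (hX.pow_const 2) h] with s hs
    by_contra hc
    rw [not_lt, top_le_iff] at hc
    rw [hc] at hs
    simp at hs
  set Y : Ω → ℝ := fun s => (X s).toReal with hY
  have hYm : Measurable Y := hX.ennreal_toReal
  have hY0 : ∀ s, 0 ≤ Y s := fun s => ENNReal.toReal_nonneg
  have e1 : ∀ᵐ s ∂μ, X s = ENNReal.ofReal (Y s) := by
    filter_upwards [hfin] with s hs
    rw [ENNReal.ofReal_toReal hs.ne]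
  have e2 : ∀ᵐ s ∂μ, X s ^ 2 = ENNReal.ofReal (Y s ^ 2) := by
    filter_upwards [e1] with s hs
    rw [hs, ENNReal.ofReal_pow (hY0 s)]
  have hI2 : Integrable (fun s => Y s ^ 2) μ := by
    refine ⟨(hYm.pow_const 2).aestronglyMeasurable, ?_⟩
    rw [hasFiniteIntegral_iff_ofReal (Eventually.of_forall fun s => sq_nonneg _),
      ← lintegral_congr_ae e2]
    exact lt_top_iff_ne_top.2 h
  have hI1 : Integrable Y μ := by
    refine Integrable.mono' (hI2.add (integrable_const (1 : ℝ))) hYm.aestronglyMeasurable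
      (Eventually.of_forall fun s => ?_)
    rw [Real.norm_eq_abs, abs_of_nonneg (hY0 s)]
    simp only [Pi.add_apply]
    nlinarith [sq_nonneg (Y s - 1), hY0 s]
  set m : ℝ := ∫ s, Y s ∂μ with hm
  have hm0 : 0 ≤ m := integral_nonneg hY0
  have g1 : ∫⁻ s, X s ∂μ = ENNReal.ofReal m := by
    rw [lintegral_congr_ae e1, hm, ofReal_integral_eq_lintegral_ofReal hI1
      (Eventually.of_forall hY0)]
  have g2 : ∫⁻ s, X s ^ 2 ∂μ = ENNReal.ofReal (∫ s, Y s ^ 2 ∂μ) := by
    rw [lintegral_congr_ae e2, ofReal_integral_eq_lintegral_ofReal hI2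
      (Eventually.of_forall fun s => sq_nonneg _)]
  have g3 : (∫⁻ s, X s ∂μ).toReal = m := by rw [g1, ENNReal.toReal_ofReal hm0]
  have hI3 : Integrable (fun s => (Y s - m) ^ 2) μ := by
    have : (fun s => (Y s - m) ^ 2) = fun s => (Y s ^ 2 - (2 * m) * Y s) + m ^ 2 := by
      funext s
      ring
    rw [this]
    exact (hI2.sub (hI1.const_mul _)).add (integrable_const _)
  have g4 : ∫ s, (Y s - m) ^ 2 ∂μ = (∫ s, Y s ^ 2 ∂μ) - m ^ 2 := by
    have : (fun s => (Y s - m) ^ 2) = fun s => (Y s ^ 2 - (2 * m) * Y s) + m ^ 2 := by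
      funext s
      ring
    have k1 : ∫ s, ((Y s ^ 2 - (2 * m) * Y s) + m ^ 2) ∂μ =
        (∫ s, (Y s ^ 2 - (2 * m) * Y s) ∂μ) + ∫ _, m ^ 2 ∂μ :=
      integral_add (hI2.sub (hI1.const_mul _)) (integrable_const _)
    have k2 : ∫ s, (Y s ^ 2 - (2 * m) * Y s) ∂μ = (∫ s, Y s ^ 2 ∂μ) - ∫ s, (2 * m) * Y s ∂μ :=
      integral_sub hI2 (hI1.const_mul _)
    rw [this, k1, k2, integral_const_mul, ← hm]
    simp
    ring
  rw [g3]
  have g5 : ∫⁻ s, ENNReal.ofReal ((Y s - m) ^ 2) ∂μ = ENNReal.ofReal ((∫ s, Y s ^ 2 ∂μ) - m ^ 2) := by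
    rw [← g4, ofReal_integral_eq_lintegral_ofReal hI3 (Eventually.of_forall fun s => sq_nonneg _)]
  rw [g5, g1, g2, ← ENNReal.ofReal_pow hm0, ← ENNReal.ofReal_add]
  · rw [sub_add_cancel]
  · rw [← g4]
    exact integral_nonneg fun s => sq_nonneg _
  · positivity

theorem U_quarter (a : ℝ) (h1 : -1 ≤ a) (h2 : a + 1 / 2 ≤ 1) :
    U (Set.Icc a (a + 1 / 2)) = ENNReal.ofReal (1 / 4) := by
  unfold U
  rw [Measure.smul_apply, Measure.restrict_apply measurableSet_Icc, Set.Icc_inter_Icc]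
  have e1 : max a (-1) = a := max_eq_left h1
  have e2 : min (a + 1 / 2) 1 = a + 1 / 2 := min_eq_left h2
  rw [e1, e2, Real.volume_Icc, smul_eq_mul, ← ENNReal.ofReal_mul (by norm_num)]
  congr 1
  ring

/-- a good shift in an interval of shifts -/
theorem good_shift (Φ : ℝ → ℝ≥0∞) (hΦ : Measurable Φ) (D : ℝ≥0∞) (h : ∫⁻ s, Φ s ∂U ≤ D) (a : ℝ)
    (h1 : -1 ≤ a) (h2 : a + 1 / 2 ≤ 1) : ∃ s ∈ Set.Icc a (a + 1 / 2), Φ s ≤ 4 * D := by
  have hU := U_quarter a h1 h2
  obtain ⟨s, hs, hs2⟩ := exists_le_setLAverage (μ := U) (s := Set.Icc a (a + 1 / 2)) (f := Φ)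
    (by rw [hU]; simp) (by rw [hU]; exact ENNReal.ofReal_ne_top) hΦ.aemeasurable.restrict
  refine ⟨s, hs, hs2.trans ?_⟩
  rw [setLAverage_eq, hU]
  have h3 : ∫⁻ s in Set.Icc a (a + 1 / 2), Φ s ∂U ≤ D := (setLIntegral_le_lintegral _ _).trans h
  calc (∫⁻ s in Set.Icc a (a + 1 / 2), Φ s ∂U) / ENNReal.ofReal (1 / 4)
      ≤ D / ENNReal.ofReal (1 / 4) := by gcongr
    _ = 4 * D := by
        rw [div_eq_mul_inv, ← ENNReal.ofReal_inv_of_pos (by norm_num), mul_comm]
        congr 1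
        norm_num

/-- squared distance of a function and its translate -/
noncomputable def qd (G : ℝ → ℝ) (t : ℝ) : ℝ≥0∞ := ∫⁻ x, ENNReal.ofReal ((G (x + t) - G x) ^ 2)

theorem qd_mul (G : ℝ → ℝ) (hG : Measurable G) (t : ℝ) (j : ℕ) :
    qd G (j * t) ≤ (j : ℝ≥0∞) ^ 2 * qd G t := by
  have h1 : ∀ x, (G (x + j * t) - G x) ^ 2 ≤
      j * ∑ i ∈ Finset.range j, (G (x + i * t + t) - G (x + i * t)) ^ 2 := by
    intro x
    have e1 : G (x + j * t) - G x =
        ∑ i ∈ Finset.range j, (G (x + i * t + t) - G (x + i * t)) := by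
      have e2 := Finset.sum_range_sub (fun i : ℕ => G (x + i * t)) j
      rw [Nat.cast_zero, zero_mul, add_zero] at e2
      rw [← e2]
      refine Finset.sum_congr rfl fun i _ => ?_
      push_cast
      congr 2
      ring
    rw [e1]
    have e3 := sq_sum_le_card_mul_sum_sq (s := Finset.range j)
      (f := fun i => G (x + i * t + t) - G (x + i * t))
    rw [Finset.card_range] at e3
    exact e3
  unfold qd
  calc ∫⁻ x, ENNReal.ofReal ((G (x + j * t) - G x) ^ 2)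
      ≤ ∫⁻ x, (j : ℝ≥0∞) * ∑ i ∈ Finset.range j,
          ENNReal.ofReal ((G (x + i * t + t) - G (x + i * t)) ^ 2) := by
        refine lintegral_mono fun x => ?_
        refine (ENNReal.ofReal_le_ofReal (h1 x)).trans ?_
        rw [ENNReal.ofReal_mul (by positivity), ENNReal.ofReal_natCast,
          ENNReal.ofReal_sum_of_nonneg fun i _ => sq_nonneg _]
    _ = (j : ℝ≥0∞) * ∑ i ∈ Finset.range j,
          ∫⁻ x, ENNReal.ofReal ((G (x + i * t + t) - G (x + i * t)) ^ 2) := by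
        rw [lintegral_const_mul, lintegral_finsetSum]
        · intro i _
          have : Measurable fun x : ℝ => (G (x + i * t + t) - G (x + i * t)) ^ 2 :=
            ((hG.comp (by fun_prop)).sub (hG.comp (by fun_prop))).pow_const 2
          exact this.ennreal_ofReal
        · refine Finset.measurable_sum _ fun i _ => ?_
          have : Measurable fun x : ℝ => (G (x + i * t + t) - G (x + i * t)) ^ 2 :=
            ((hG.comp (by fun_prop)).sub (hG.comp (by fun_prop))).pow_const 2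
          exact this.ennreal_ofReal
    _ = (j : ℝ≥0∞) * ∑ i ∈ Finset.range j, ∫⁻ x, ENNReal.ofReal ((G (x + t) - G x) ^ 2) := by
        congr 1
        refine Finset.sum_congr rfl fun i _ => ?_
        exact lintegral_add_right_eq_self (fun x => ENNReal.ofReal ((G (x + t) - G x) ^ 2)) (i * t)
    _ = _ := by
        rw [Finset.sum_const, Finset.card_range, nsmul_eq_mul]
        ring

theorem sq_three (u v w : ℝ) : (u - v) ^ 2 ≤ 2 * (u - w) ^ 2 + 2 * (v - w) ^ 2 := by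
  nlinarith [sq_nonneg (u + v - 2 * w)]

theorem dich_shift (ε : ℝ) (g : ℝ → ℝ≥0∞) (hg : Measurable g)
    (hN : nsqL g ≠ ⊤) : ∃ t : ℝ, (∃ r : ℝ, 1 ≤ r ∧ r ≤ 2 ∧ t = ε * r) ∧
      qd (fun x => (g x).toReal) t ≤ 16 * (nsqL g - nsqL (avg ε g)) := by
  set G : ℝ → ℝ := fun x => (g x).toReal with hG
  have hGm : Measurable G := hg.ennreal_toReal
  set H : ℝ → ℝ := fun x => (avg ε g x).toReal with hH
  have hHm : Measurable H := (avg_meas ε g hg).ennreal_toReal
  set Φ : ℝ → ℝ≥0∞ := fun s => ∫⁻ x, ENNReal.ofReal ((G (x + ε * s) - H x) ^ 2) with hΦ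
  have hjm : Measurable fun p : ℝ × ℝ => ENNReal.ofReal ((G (p.2 + ε * p.1) - H p.2) ^ 2) := by
    have : Measurable fun p : ℝ × ℝ => (G (p.2 + ε * p.1) - H p.2) ^ 2 :=
      ((hGm.comp (by fun_prop)).sub (hHm.comp (by fun_prop))).pow_const 2
    exact this.ennreal_ofReal
  have hΦm : Measurable Φ := hjm.lintegral_prod_right'
  have hm2 : Measurable fun p : ℝ × ℝ => g (p.1 + ε * p.2) ^ 2 :=
    (hg.comp (by fun_prop : Measurable fun p : ℝ × ℝ => p.1 + ε * p.2)).pow_const 2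
  have h1 : ∫⁻ s, Φ s ∂U + nsqL (avg ε g) ≤ nsqL g := by
    have e1 : ∫⁻ s, Φ s ∂U = ∫⁻ x, ∫⁻ s, ENNReal.ofReal ((G (x + ε * s) - H x) ^ 2) ∂U := by
      rw [hΦ]
      exact lintegral_lintegral_swap hjm.aemeasurable
    rw [e1]
    unfold nsqL
    rw [← lintegral_add_right _ ((avg_meas ε g hg).pow_const 2)]
    calc ∫⁻ x, (∫⁻ s, ENNReal.ofReal ((G (x + ε * s) - H x) ^ 2) ∂U) + avg ε g x ^ 2
        ≤ ∫⁻ x, ∫⁻ s, g (x + ε * s) ^ 2 ∂U := by
          refine lintegral_mono fun x => ?_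
          exact var_ineq U (fun s => g (x + ε * s)) (hg.comp (by fun_prop))
      _ = ∫⁻ s, (∫⁻ x, g (x + ε * s) ^ 2) ∂U := lintegral_lintegral_swap hm2.aemeasurable
      _ = ∫⁻ s, (∫⁻ x, g x ^ 2) ∂U := by
          refine lintegral_congr fun s => ?_
          exact lintegral_add_right_eq_self (fun x => g x ^ 2) (ε * s)
      _ = ∫⁻ x, g x ^ 2 := by simp
  set D := nsqL g - nsqL (avg ε g) with hD
  have hA : nsqL (avg ε g) ≠ ⊤ := ne_top_of_le_ne_top hN (le_trans le_add_self h1)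
  have h2 : ∫⁻ s, Φ s ∂U ≤ D := ENNReal.le_sub_of_add_le_right hA h1
  obtain ⟨s1, hs1, hs1'⟩ := good_shift Φ hΦm D h2 (1 / 2) (by norm_num) (by norm_num)
  obtain ⟨s0, hs0, hs0'⟩ := good_shift Φ hΦm D h2 (-1) (by norm_num) (by norm_num)
  refine ⟨ε * (s1 - s0), ⟨s1 - s0, ?_, ?_, rfl⟩, ?_⟩
  · linarith [hs1.1, hs0.2]
  · linarith [hs1.2, hs0.1]
  · unfold qd
    rw [← lintegral_add_right_eq_self (fun x => ENNReal.ofReal
      ((G (x + ε * (s1 - s0)) - G x) ^ 2)) (ε * s0)]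
    calc ∫⁻ x, ENNReal.ofReal ((G (x + ε * s0 + ε * (s1 - s0)) - G (x + ε * s0)) ^ 2)
        ≤ ∫⁻ x, (2 * ENNReal.ofReal ((G (x + ε * s1) - H x) ^ 2) +
            2 * ENNReal.ofReal ((G (x + ε * s0) - H x) ^ 2)) := by
          refine lintegral_mono fun x => ?_
          have e1 : x + ε * s0 + ε * (s1 - s0) = x + ε * s1 := by ring
          rw [e1]
          refine (ENNReal.ofReal_le_ofReal (sq_three _ _ (H x))).trans ?_
          rw [ENNReal.ofReal_add (by positivity) (by positivity), ENNReal.ofReal_mul (by norm_num),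
            ENNReal.ofReal_mul (by norm_num)]
          simp
      _ = 2 * Φ s1 + 2 * Φ s0 := by
          have m1 : ∀ s, Measurable fun x => ENNReal.ofReal ((G (x + ε * s) - H x) ^ 2) := by
            intro s
            have : Measurable fun x : ℝ => (G (x + ε * s) - H x) ^ 2 :=
              ((hGm.comp (by fun_prop)).sub hHm).pow_const 2
            exact this.ennreal_ofReal
          rw [lintegral_add_left ((m1 s1).const_mul 2), lintegral_const_mul _ (m1 s1),
            lintegral_const_mul _ (m1 s0)]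
      _ ≤ 2 * (4 * D) + 2 * (4 * D) := by gcongr
      _ = 16 * D := by ring

theorem window (G : ℝ → ℝ) (hG : Measurable G) (y c : ℝ) :
    ∫⁻ x in Set.Icc y (y + 4), ENNReal.ofReal (G x ^ 2) ≤
      2 * (∫⁻ x in Set.Icc (y + c) (y + c + 4), ENNReal.ofReal (G x ^ 2)) + 2 * qd G c := by
  have h1 : ∫⁻ x in Set.Icc (y + c) (y + c + 4), ENNReal.ofReal (G x ^ 2) =
      ∫⁻ x in Set.Icc y (y + 4), ENNReal.ofReal (G (x + c) ^ 2) := by
    rw [← lintegral_indicator measurableSet_Icc, ← lintegral_indicator measurableSet_Icc,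
      ← lintegral_add_right_eq_self _ c]
    refine lintegral_congr fun x => ?_
    by_cases hx : x ∈ Set.Icc y (y + 4)
    · rw [Set.indicator_of_mem hx, Set.indicator_of_mem]
      exact ⟨by linarith [hx.1], by linarith [hx.2]⟩
    · rw [Set.indicator_of_notMem hx, Set.indicator_of_notMem]
      intro h
      exact hx ⟨by linarith [h.1], by linarith [h.2]⟩
  have m1 : Measurable fun x => ENNReal.ofReal (G (x + c) ^ 2) := by
    have : Measurable fun x : ℝ => G (x + c) ^ 2 := (hG.comp (by fun_prop)).pow_const 2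
    exact this.ennreal_ofReal
  have m2 : Measurable fun x => ENNReal.ofReal ((G (x + c) - G x) ^ 2) := by
    have : Measurable fun x : ℝ => (G (x + c) - G x) ^ 2 :=
      ((hG.comp (by fun_prop)).sub hG).pow_const 2
    exact this.ennreal_ofReal
  rw [h1]
  calc ∫⁻ x in Set.Icc y (y + 4), ENNReal.ofReal (G x ^ 2)
      ≤ ∫⁻ x in Set.Icc y (y + 4), (2 * ENNReal.ofReal (G (x + c) ^ 2) +
          2 * ENNReal.ofReal ((G (x + c) - G x) ^ 2)) := by
        refine lintegral_mono fun x => ?_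
        have e1 : G x ^ 2 ≤ 2 * G (x + c) ^ 2 + 2 * (G (x + c) - G x) ^ 2 := by
          nlinarith [sq_nonneg (2 * G (x + c) - G x)]
        refine (ENNReal.ofReal_le_ofReal e1).trans ?_
        rw [ENNReal.ofReal_add (by positivity) (by positivity), ENNReal.ofReal_mul (by norm_num),
          ENNReal.ofReal_mul (by norm_num)]
        simp
    _ = 2 * (∫⁻ x in Set.Icc y (y + 4), ENNReal.ofReal (G (x + c) ^ 2)) +
          2 * ∫⁻ x in Set.Icc y (y + 4), ENNReal.ofReal ((G (x + c) - G x) ^ 2) := by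
        rw [lintegral_add_left (m1.const_mul 2), lintegral_const_mul _ m1,
          lintegral_const_mul _ m2]
    _ ≤ _ := by
        gcongr
        exact setLIntegral_le_lintegral _ _

theorem taskDich : TaskDich := by
  refine ⟨107712, by norm_num, ?_⟩
  intro ε g y hε hε1 hg
  by_cases hN : nsqL g = ⊤
  · rw [hN]
    have : ENNReal.ofReal (1 / 8) * ⊤ = (⊤ : ℝ≥0∞) := by
      rw [ENNReal.mul_top]
      simp
    rw [this, top_add]
    exact le_top
  obtain ⟨t, ⟨r, hr1, hr2, htr⟩, hq⟩ := dich_shift ε g hg hN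
  have hA : nsqL (avg ε g) ≤ nsqL g := (Pool.Agent.Y661.PP.taskAvg ε g hε hε1 hg).2.1
  set G : ℝ → ℝ := fun x => (g x).toReal with hG
  have hGm : Measurable G := hg.ennreal_toReal
  set D := nsqL g - nsqL (avg ε g) with hD
  have hDA : D + nsqL (avg ε g) = nsqL g := tsub_add_cancel_of_le hA
  have htpos : 0 < t := by rw [htr]; positivity
  have htε : ε ≤ t := by rw [htr]; nlinarith
  set n : ℕ := ⌈5 / t⌉₊ with hn
  have hn1 : 5 / t ≤ n := Nat.le_ceil _
  have hn2 : (n : ℝ) < 5 / t + 1 := Nat.ceil_lt_add_one (by positivity)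
  have hn3 : (n : ℝ) ≤ 6 / ε := by
    have h1 : 5 / t ≤ 5 / ε := div_le_div_of_nonneg_left (by norm_num) hε htε
    have h2 : 1 ≤ 1 / ε := by rw [le_div_iff₀ hε]; linarith
    have h3 : 5 / ε + 1 / ε = 6 / ε := by ring
    linarith
  set T : ℝ := n * t with hT
  have hT5 : 5 ≤ T := by
    rw [div_le_iff₀ htpos] at hn1
    exact hn1
  -- finiteness
  have hgfin : ∀ᵐ x, g x < ⊤ := by
    have h1 := ae_lt_top (hg.pow_const 2) hN
    filter_upwards [h1] with s hs
    by_contra hc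
    rw [not_lt, top_le_iff] at hc
    rw [hc] at hs
    simp at hs
  have hgG : ∀ᵐ x, g x ^ 2 = ENNReal.ofReal (G x ^ 2) := by
    filter_upwards [hgfin] with x hx
    rw [ENNReal.ofReal_pow ENNReal.toReal_nonneg, ENNReal.ofReal_toReal hx.ne]
  set w : ℕ → ℝ≥0∞ := fun k => ∫⁻ x in Set.Icc (y + k * T) (y + k * T + 4),
    ENNReal.ofReal (G x ^ 2) with hw
  have hw0 : ∫⁻ x in Set.Icc y (y + 4), g x ^ 2 =
      ∫⁻ x in Set.Icc y (y + 4), ENNReal.ofReal (G x ^ 2) :=
    lintegral_congr_ae (ae_restrict_of_ae hgG)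
  have hNG : nsqL g = ∫⁻ x, ENNReal.ofReal (G x ^ 2) := lintegral_congr_ae hgG
  set W0 := ∫⁻ x in Set.Icc y (y + 4), g x ^ 2 with hW0
  have hk : ∀ k : ℕ, W0 ≤ 2 * w k + 32 * ((k : ℝ≥0∞) ^ 2 * (n : ℝ≥0∞) ^ 2) * D := by
    intro k
    rw [hw0]
    refine (window G hGm y (k * T)).trans ?_
    have h1 : qd G (k * T) ≤ ((k : ℝ≥0∞) ^ 2 * (n : ℝ≥0∞) ^ 2) * (16 * D) := by
      have h2 := qd_mul G hGm t (k * n)
      have h3 : ((k * n : ℕ) : ℝ) * t = k * T := by
        rw [hT]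
        push_cast
        ring
      rw [h3] at h2
      refine h2.trans ?_
      push_cast
      rw [mul_pow]
      gcongr
    calc 2 * (∫⁻ x in Set.Icc (y + k * T) (y + k * T + 4), ENNReal.ofReal (G x ^ 2)) +
          2 * qd G (k * T) ≤ 2 * w k + 2 * (((k : ℝ≥0∞) ^ 2 * (n : ℝ≥0∞) ^ 2) * (16 * D)) := by
          gcongr
      _ = _ := by ring
  have hsumw : ∑ k ∈ Finset.Icc 1 16, w k ≤ nsqL g := by
    rw [hw, ← lintegral_biUnion_finset]
    · rw [hNG]
      exact setLIntegral_le_lintegral _ _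
    · intro i _ j _ hij
      rw [Function.onFun, Set.disjoint_left]
      intro x hx hx'
      rcases lt_or_gt_of_ne hij with h | h
      · have h1 : ((i : ℝ) + 1) ≤ j := by exact_mod_cast h
        nlinarith [hx.2, hx'.1]
      · have h1 : ((j : ℝ) + 1) ≤ i := by exact_mod_cast h
        nlinarith [hx.1, hx'.2]
    · intro k _
      exact measurableSet_Icc
  have hsum : 16 * W0 ≤ 2 * nsqL g + 47872 * (n : ℝ≥0∞) ^ 2 * D := by
    calc 16 * W0 = ∑ _k ∈ Finset.Icc 1 16, W0 := by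
          rw [Finset.sum_const, Nat.card_Icc, nsmul_eq_mul]
          norm_num
      _ ≤ ∑ k ∈ Finset.Icc 1 16, (2 * w k + 32 * ((k : ℝ≥0∞) ^ 2 * (n : ℝ≥0∞) ^ 2) * D) :=
          Finset.sum_le_sum fun k _ => hk k
      _ = 2 * ∑ k ∈ Finset.Icc 1 16, w k +
          (∑ k ∈ Finset.Icc 1 16, ((k : ℕ) : ℝ≥0∞) ^ 2) * (32 * (n : ℝ≥0∞) ^ 2 * D) := by
          rw [Finset.sum_add_distrib, ← Finset.mul_sum, Finset.sum_mul]
          congr 1
          refine Finset.sum_congr rfl fun k _ => ?_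
          ring
      _ ≤ 2 * nsqL g + 1496 * (32 * (n : ℝ≥0∞) ^ 2 * D) := by
          gcongr
          have : (∑ k ∈ Finset.Icc 1 16, k ^ 2 : ℕ) = 1496 := by decide
          have h2 : (∑ k ∈ Finset.Icc 1 16, ((k : ℕ) : ℝ≥0∞) ^ 2) =
              ((∑ k ∈ Finset.Icc 1 16, k ^ 2 : ℕ) : ℝ≥0∞) := by push_cast; rfl
          rw [h2, this]
          norm_num
      _ = _ := by ring
  -- back to real numbers
  have hD_top : D ≠ ⊤ := ne_top_of_le_ne_top hN tsub_le_self
  have hW_top : W0 ≠ ⊤ := ne_top_of_le_ne_top hN (setLIntegral_le_lintegral _ _)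
  have hfin : 2 * nsqL g + 47872 * (n : ℝ≥0∞) ^ 2 * D ≠ ⊤ := by
    refine ENNReal.add_ne_top.2 ⟨ENNReal.mul_ne_top (by norm_num) hN, ?_⟩
    exact ENNReal.mul_ne_top (ENNReal.mul_ne_top (by norm_num)
      (ENNReal.pow_ne_top (ENNReal.natCast_ne_top _))) hD_top
  have hreal := (ENNReal.toReal_le_toReal (ENNReal.mul_ne_top (by norm_num) hW_top) hfin).2 hsum
  rw [ENNReal.toReal_add (ENNReal.mul_ne_top (by norm_num) hN)
    (ENNReal.mul_ne_top (ENNReal.mul_ne_top (by norm_num)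
      (ENNReal.pow_ne_top (ENNReal.natCast_ne_top _))) hD_top)] at hreal
  simp only [ENNReal.toReal_mul, ENNReal.toReal_ofNat, ENNReal.toReal_pow,
    ENNReal.toReal_natCast] at hreal
  have hD0 : 0 ≤ D.toReal := ENNReal.toReal_nonneg
  have hn4 : (n : ℝ) ^ 2 ≤ 36 / ε ^ 2 := by
    have := pow_le_pow_left₀ (Nat.cast_nonneg n) hn3 2
    rw [div_pow] at this
    norm_num at this
    exact this
  have hfinal : W0.toReal ≤ 1 / 8 * (nsqL g).toReal + 107712 / ε ^ 2 * D.toReal := by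
    have h1 : (n : ℝ) ^ 2 * D.toReal ≤ 36 / ε ^ 2 * D.toReal :=
      mul_le_mul_of_nonneg_right hn4 hD0
    have h2 : 107712 / ε ^ 2 * D.toReal = 2992 * (36 / ε ^ 2 * D.toReal) := by ring
    rw [h2]
    nlinarith
  have h8 : W0 ≤ ENNReal.ofReal (1 / 8) * nsqL g + ENNReal.ofReal (107712 / ε ^ 2) * D := by
    rw [← ENNReal.ofReal_toReal hW_top]
    refine (ENNReal.ofReal_le_ofReal hfinal).trans ?_
    rw [ENNReal.ofReal_add (by positivity) (by positivity), ENNReal.ofReal_mul (by norm_num),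
      ENNReal.ofReal_mul (by positivity), ENNReal.ofReal_toReal hN, ENNReal.ofReal_toReal hD_top]
  calc W0 + ENNReal.ofReal (107712 / ε ^ 2) * nsqL (avg ε g)
      ≤ (ENNReal.ofReal (1 / 8) * nsqL g + ENNReal.ofReal (107712 / ε ^ 2) * D) +
        ENNReal.ofReal (107712 / ε ^ 2) * nsqL (avg ε g) := by gcongr
    _ = ENNReal.ofReal (1 / 8) * nsqL g + ENNReal.ofReal (107712 / ε ^ 2) *
        (D + nsqL (avg ε g)) := by ring
    _ = _ := by rw [hDA]

end Pool.Agent.Y661.PP
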