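import Pool.Agent.Y661.PP.KS2

/-!
`TaskContr`, `TaskJ`.
-/

set_option autoImplicit false

open scoped BigOperators ENNReal NNReal Topology
open MeasureTheory Filter

namespace Pool.Agent.Y661.PP

open Pool.Agent.H695R3.PP

theorem taskContr : TaskContr := by
  obtain ⟨C, hC, hdich⟩ := taskDich
  have hC0 : 0 < C := by linarith
  refine ⟨5 / (16 * C), by positivity, ?_, ?_⟩
  · rw [div_le_iff₀ (by positivity)]
    linarith
  intro ε c₁ g hε hε1 hg
  have hcε : 5 / (16 * C) * ε ^ 2 ≤ 1 / 2 := by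
    have h1 : ε ^ 2 ≤ 1 := pow_le_one₀ hε.le hε1
    have h2 : 5 / (16 * C) ≤ 1 / 2 := by
      rw [div_le_iff₀ (by positivity)]
      linarith
    calc 5 / (16 * C) * ε ^ 2 ≤ 1 / 2 * 1 := mul_le_mul h2 h1 (by positivity) (by norm_num)
      _ = 1 / 2 := by norm_num
  by_cases hN : nsqL g = ⊤
  · rw [hN, ENNReal.mul_top]
    · exact le_top
    · rw [Ne, ENNReal.ofReal_eq_zero]
      linarith
  obtain ⟨m1, a1, a2, _⟩ := taskAvg ε g hε hε1 hg
  obtain ⟨i1, i2⟩ := taskIso c₁ (avg ε g) m1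
  set k := UR c₁ (avg ε g) with hk
  have mk : Measurable k := UR_meas c₁ _ m1
  obtain ⟨_, b1, _, _⟩ := taskAvg ε k hε hε1 mk
  have d1 := hdich ε g (c₁ - 2) hε hε1 hg
  have d2 := hdich ε k (-2) hε hε1 mk
  have e1 : c₁ - 2 + 4 = c₁ + 2 := by ring
  have e2 : (-2 : ℝ) + 4 = 2 := by norm_num
  rw [e1] at d1
  rw [e2] at d2
  have a2' := a2 c₁
  -- decomposition of the norm of k
  have hdec : nsqL k ≤ (∫⁻ x in Set.Icc (-2 : ℝ) 2, k x ^ 2) +
      ∫⁻ z in {z : ℝ | 1 < |z|}, k z ^ 2 := by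
    unfold nsqL
    have hu : (Set.univ : Set ℝ) ⊆ Set.Icc (-2 : ℝ) 2 ∪ {z : ℝ | 1 < |z|} := by
      intro z _
      by_cases hz : 1 < |z|
      · exact Or.inr hz
      · left
        push Not at hz
        have := abs_le.1 hz
        exact ⟨by linarith [this.1], by linarith [this.2]⟩
    calc ∫⁻ x, k x ^ 2 = ∫⁻ x in Set.univ, k x ^ 2 := by rw [Measure.restrict_univ]
      _ ≤ ∫⁻ x in Set.Icc (-2 : ℝ) 2 ∪ {z : ℝ | 1 < |z|}, k x ^ 2 := lintegral_mono_set hu
      _ ≤ _ := lintegral_union_le _ _ _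
  -- real numbers
  have fB : nsqL (avg ε g) ≠ ⊤ := ne_top_of_le_ne_top hN a1
  have fk : nsqL k ≠ ⊤ := by rw [i1]; exact fB
  have fe : nsqL (avg ε k) ≠ ⊤ := ne_top_of_le_ne_top fk b1
  set K := ENNReal.ofReal (C / ε ^ 2) with hK
  have fK : K ≠ ⊤ := ENNReal.ofReal_ne_top
  have f8 : ENNReal.ofReal (1 / 8) ≠ ⊤ := ENNReal.ofReal_ne_top
  have t8 : (ENNReal.ofReal (1 / 8)).toReal = 1 / 8 := ENNReal.toReal_ofReal (by norm_num)
  have tK : K.toReal = C / ε ^ 2 := ENNReal.toReal_ofReal (by positivity)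
  set N := nsqL g with hNd
  set B := nsqL (avg ε g) with hB
  set e := nsqL (avg ε k) with he
  set w1 := ∫⁻ x in Set.Icc (c₁ - 2) (c₁ + 2), g x ^ 2 with hw1
  set w2 := ∫⁻ x in Set.Icc (-2 : ℝ) 2, k x ^ 2 with hw2
  have fw1 : w1 ≠ ⊤ := ne_top_of_le_ne_top hN (setLIntegral_le_lintegral _ _)
  have fw2 : w2 ≠ ⊤ := ne_top_of_le_ne_top fk (setLIntegral_le_lintegral _ _)
  rw [i1] at hdec d2 b1
  have hdec2 : B ≤ w2 + w1 := hdec.trans (by gcongr; exact i2.trans a2')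
  have r1 := (ENNReal.toReal_le_toReal fB (ENNReal.add_ne_top.2 ⟨fw2, fw1⟩)).2 hdec2
  rw [ENNReal.toReal_add fw2 fw1] at r1
  have r2 := (ENNReal.toReal_le_toReal
    (ENNReal.add_ne_top.2 ⟨fw1, ENNReal.mul_ne_top fK fB⟩)
    (ENNReal.add_ne_top.2 ⟨ENNReal.mul_ne_top f8 hN, ENNReal.mul_ne_top fK hN⟩)).2 d1
  rw [ENNReal.toReal_add fw1 (ENNReal.mul_ne_top fK fB),
    ENNReal.toReal_add (ENNReal.mul_ne_top f8 hN) (ENNReal.mul_ne_top fK hN),
    ENNReal.toReal_mul, ENNReal.toReal_mul, ENNReal.toReal_mul, t8, tK] at r2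
  have r3 := (ENNReal.toReal_le_toReal
    (ENNReal.add_ne_top.2 ⟨fw2, ENNReal.mul_ne_top fK fe⟩)
    (ENNReal.add_ne_top.2 ⟨ENNReal.mul_ne_top f8 fB, ENNReal.mul_ne_top fK fB⟩)).2 d2
  rw [ENNReal.toReal_add fw2 (ENNReal.mul_ne_top fK fe),
    ENNReal.toReal_add (ENNReal.mul_ne_top f8 fB) (ENNReal.mul_ne_top fK fB),
    ENNReal.toReal_mul, ENNReal.toReal_mul, ENNReal.toReal_mul, t8, tK] at r3
  have r4 := (ENNReal.toReal_le_toReal fe fB).2 b1
  have hN0 : 0 ≤ N.toReal := ENNReal.toReal_nonneg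
  have hfinal : e.toReal ≤ (1 - 5 / (16 * C) * ε ^ 2) * N.toReal := by
    rcases le_or_gt (N.toReal / 2) B.toReal with h | h
    · -- K (N - e) ≥ 5 N / 16
      have h1 : 5 / 16 * N.toReal ≤ C / ε ^ 2 * (N.toReal - e.toReal) := by
        have : C / ε ^ 2 * (N.toReal - e.toReal) = C / ε ^ 2 * N.toReal - C / ε ^ 2 * e.toReal := by
          ring
        rw [this]
        nlinarith
      have h2 : 5 / 16 * N.toReal * ε ^ 2 ≤ C * (N.toReal - e.toReal) := by
        have h3 := mul_le_mul_of_nonneg_right h1 (sq_nonneg ε)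
        have h4 : C / ε ^ 2 * (N.toReal - e.toReal) * ε ^ 2 = C * (N.toReal - e.toReal) := by
          field_simp
        rw [h4] at h3
        exact h3
      have h5 : 5 / (16 * C) * ε ^ 2 * N.toReal ≤ N.toReal - e.toReal := by
        have h6 : 5 / (16 * C) * ε ^ 2 * N.toReal = (5 / 16 * N.toReal * ε ^ 2) / C := by
          field_simp
        rw [h6, div_le_iff₀ (by linarith)]
        linarith
      linarith
    · have h1 : 5 / (16 * C) * ε ^ 2 * N.toReal ≤ 1 / 2 * N.toReal :=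
        mul_le_mul_of_nonneg_right hcε hN0
      linarith
  rw [← ENNReal.ofReal_toReal fe]
  refine (ENNReal.ofReal_le_ofReal hfinal).trans ?_
  rw [ENNReal.ofReal_mul (by linarith), ENNReal.ofReal_toReal hN]

/-! ### the averaged inverse length -/

/-- resampling of one coordinate, for integrals -/
theorem resample_lint (m : ℤ) (f : (ℤ → ℝ) → ℝ≥0∞) (hf : Measurable f) :
    ∫⁻ x, f x ∂PZ = ∫⁻ x, ∫⁻ s, f (Function.update x m s) ∂U ∂PZ := by
  have h := Pool.Agent.H853R3.PP.Resample.taskResample ℤ (fun _ => ℝ) (fun _ => U) m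
  have h2 : PZ = Measure.map (fun p : (ℤ → ℝ) × ℝ => Function.update p.1 m p.2) (PZ.prod U) := by
    unfold PZ
    exact h.symm
  conv_lhs => rw [h2]
  rw [lintegral_map hf (measurable_upd2 m)]
  exact lintegral_prod (fun p : (ℤ → ℝ) × ℝ => f (Function.update p.1 m p.2))
    (hf.comp (measurable_upd2 m)).aemeasurable

/-- one averaging step for functions on the plane -/
noncomputable def Av (ε c : ℝ) (F : ℝ × ℝ → ℝ≥0∞) (v : ℝ × ℝ) : ℝ≥0∞ :=
  ∫⁻ s, F ((c - ε * s) * v.1 - v.2, v.1) ∂U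

theorem Av_meas (ε c : ℝ) (F : ℝ × ℝ → ℝ≥0∞) (hF : Measurable F) : Measurable (Av ε c F) := by
  unfold Av
  exact (hF.comp (by fun_prop : Measurable fun p : (ℝ × ℝ) × ℝ =>
    ((c - ε * p.2) * p.1.1 - p.1.2, p.1.1))).lintegral_prod_right'

theorem rsol_meas (W : ℤ → ℝ) (ε E : ℝ) (b : ℤ) (j : ℕ) :
    Measurable fun x : ℤ → ℝ => rsol (fun n => W n + ε * x n) E b j := by
  induction j with
  | zero => exact measurable_const
  | succ j ih =>
    have h1 : Measurable fun x : ℤ → ℝ => (rsol (fun n => W n + ε * x n) E b j).1 :=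
      measurable_fst.comp ih
    have h2 : Measurable fun x : ℤ → ℝ => (rsol (fun n => W n + ε * x n) E b j).2 :=
      measurable_snd.comp ih
    have h3 : Measurable fun x : ℤ → ℝ => E - (W (b - j) + ε * x (b - j)) := by fun_prop
    exact ((h3.mul h1).sub h2).prodMk h1

theorem rsol_congr (V V' : ℤ → ℝ) (E : ℝ) (b : ℤ) (j : ℕ) (h : ∀ i : ℕ, i < j → V (b - i) = V' (b - i)) :
    rsol V E b j = rsol V' E b j := by
  induction j with
  | zero => rfl
  | succ j ih =>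
    show (((E - V (b - j)) * (rsol V E b j).1 - (rsol V E b j).2, (rsol V E b j).1) : ℝ × ℝ) =
      ((E - V' (b - j)) * (rsol V' E b j).1 - (rsol V' E b j).2, (rsol V' E b j).1)
    rw [ih fun i hi => h i (by omega), h j (Nat.lt_succ_self j)]

theorem step_av (W : ℤ → ℝ) (ε E : ℝ) (b : ℤ) (j : ℕ) (F : ℝ × ℝ → ℝ≥0∞) (hF : Measurable F) :
    ∫⁻ x, F (rsol (fun n => W n + ε * x n) E b (j + 1)) ∂PZ =
      ∫⁻ x, Av ε (E - W (b - j)) F (rsol (fun n => W n + ε * x n) E b j) ∂PZ := by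
  rw [resample_lint (b - j) (fun x => F (rsol (fun n => W n + ε * x n) E b (j + 1)))
    (hF.comp (rsol_meas W ε E b (j + 1)))]
  refine lintegral_congr fun x => ?_
  unfold Av
  refine lintegral_congr fun s => ?_
  have h1 : rsol (fun n => W n + ε * Function.update x (b - (j : ℤ)) s n) E b j =
      rsol (fun n => W n + ε * x n) E b j := by
    refine rsol_congr _ _ E b j fun i hi => ?_
    rw [Function.update_of_ne]
    intro h
    have : (i : ℤ) = j := by linarith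
    omega
  have h2 : rsol (fun n => W n + ε * Function.update x (b - (j : ℤ)) s n) E b (j + 1) =
      ((E - W (b - j) - ε * s) * (rsol (fun n => W n + ε * x n) E b j).1 -
        (rsol (fun n => W n + ε * x n) E b j).2, (rsol (fun n => W n + ε * x n) E b j).1) := by
    show (((E - (W (b - j) + ε * Function.update x (b - (j : ℤ)) s (b - j))) *
      (rsol (fun n => W n + ε * Function.update x (b - (j : ℤ)) s n) E b j).1 -
      (rsol (fun n => W n + ε * Function.update x (b - (j : ℤ)) s n) E b j).2,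
      (rsol (fun n => W n + ε * Function.update x (b - (j : ℤ)) s n) E b j).1) : ℝ × ℝ) = _
    rw [h1, Function.update_self]
    congr 2
    ring
  rw [h2]

/-- the iterated averages: `Fi i` is obtained after `i` averaging steps, starting from the end -/
noncomputable def Fi (W : ℤ → ℝ) (ε E : ℝ) (b : ℤ) (L : ℕ) : ℕ → ℝ × ℝ → ℝ≥0∞
  | 0 => fun v => ENNReal.ofReal (1 / Real.sqrt (v.1 ^ 2 + v.2 ^ 2))
  | (i + 1) => Av ε (E - W (b - (L - i - 1 : ℕ))) (Fi W ε E b L i)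

theorem Fi_meas (W : ℤ → ℝ) (ε E : ℝ) (b : ℤ) (L i : ℕ) : Measurable (Fi W ε E b L i) := by
  induction i with
  | zero =>
    unfold Fi
    fun_prop
  | succ i ih => exact Av_meas _ _ _ ih

theorem Fi_eq (W : ℤ → ℝ) (ε E : ℝ) (b : ℤ) (L i : ℕ) (hi : i ≤ L) :
    ∫⁻ x, Fi W ε E b L 0 (rsol (fun n => W n + ε * x n) E b L) ∂PZ =
      ∫⁻ x, Fi W ε E b L i (rsol (fun n => W n + ε * x n) E b (L - i)) ∂PZ := by
  induction i with
  | zero => rfl
  | succ i ih =>
    rw [ih (by omega)]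
    have h1 : L - i = (L - (i + 1)) + 1 := by omega
    rw [h1, step_av W ε E b (L - (i + 1)) _ (Fi_meas W ε E b L i)]
    have h2 : L - i - 1 = L - (i + 1) := by omega
    refine lintegral_congr fun x => ?_
    show _ = Av ε (E - W (b - (L - i - 1 : ℕ))) (Fi W ε E b L i) _
    rw [h2]

theorem Fi_hom (W : ℤ → ℝ) (ε E : ℝ) (b : ℤ) (L i : ℕ) (lam : ℝ) (hl : lam ≠ 0) (v : ℝ × ℝ) :
    Fi W ε E b L i (lam * v.1, lam * v.2) = ENNReal.ofReal |lam|⁻¹ * Fi W ε E b L i v := by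
  induction i generalizing v with
  | zero =>
    unfold Fi
    simp only
    rw [← ENNReal.ofReal_mul (by positivity)]
    congr 1
    have h1 : (lam * v.1) ^ 2 + (lam * v.2) ^ 2 = lam ^ 2 * (v.1 ^ 2 + v.2 ^ 2) := by ring
    rw [h1, Real.sqrt_mul (sq_nonneg _), Real.sqrt_sq_eq_abs, one_div, mul_inv, one_div]
  | succ i ih =>
    show Av ε _ (Fi W ε E b L i) _ = _ * Av ε _ (Fi W ε E b L i) v
    unfold Av
    rw [← lintegral_const_mul']
    · refine lintegral_congr fun s => ?_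
      simp only
      rw [← ih]
      congr 2
      ring
    · exact ENNReal.ofReal_ne_top

/-- one-dimensional profile -/
noncomputable def gi (W : ℤ → ℝ) (ε E : ℝ) (b : ℤ) (L i : ℕ) (x : ℝ) : ℝ≥0∞ :=
  Fi W ε E b L i (x, 1)

theorem gi_meas (W : ℤ → ℝ) (ε E : ℝ) (b : ℤ) (L i : ℕ) : Measurable (gi W ε E b L i) :=
  (Fi_meas W ε E b L i).comp (by fun_prop)

theorem U_neg (f : ℝ → ℝ≥0∞) : ∫⁻ s, f (-s) ∂U = ∫⁻ s, f s ∂U := by
  unfold U
  rw [lintegral_smul_measure, lintegral_smul_measure]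
  congr 1
  rw [← lintegral_indicator measurableSet_Icc, ← lintegral_indicator measurableSet_Icc,
    ← lintegral_neg_eq_self (fun s => (Set.Icc (-1 : ℝ) 1).indicator (fun s => f s) s)]
  refine lintegral_congr fun s => ?_
  by_cases h : s ∈ Set.Icc (-1 : ℝ) 1
  · rw [Set.indicator_of_mem h, Set.indicator_of_mem]
    exact ⟨by linarith [h.2], by linarith [h.1]⟩
  · rw [Set.indicator_of_notMem h, Set.indicator_of_notMem]
    intro h'
    exact h ⟨by linarith [h'.2], by linarith [h'.1]⟩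

theorem avg_sub (ε : ℝ) (g : ℝ → ℝ≥0∞) (x : ℝ) : ∫⁻ s, g (x - ε * s) ∂U = avg ε g x := by
  unfold avg
  rw [← U_neg]
  refine lintegral_congr fun s => ?_
  congr 1
  ring

theorem gi_succ (W : ℤ → ℝ) (ε E : ℝ) (b : ℤ) (L i : ℕ) :
    gi W ε E b L (i + 1) =ᵐ[volume]
      UR (E - W (b - (L - i - 1 : ℕ))) (avg ε (gi W ε E b L i)) := by
  have h0 : ∀ᵐ x : ℝ, x ≠ 0 := by
    rw [ae_iff]
    simp
  filter_upwards [h0] with x hx
  unfold UR
  rw [← avg_sub]
  rw [← lintegral_const_mul' _ _ ENNReal.ofReal_ne_top]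
  show Av ε _ (Fi W ε E b L i) (x, 1) = _
  unfold Av
  refine lintegral_congr fun s => ?_
  unfold gi
  rw [← Fi_hom W ε E b L i x hx]
  congr 2
  · field_simp
    ring
  · simp

theorem nsq_g0 (W : ℤ → ℝ) (ε E : ℝ) (b : ℤ) (L : ℕ) : nsqL (gi W ε E b L 0) ≤ ENNReal.ofReal 4 := by
  unfold nsqL gi Fi
  have h1 : ∀ x : ℝ, ENNReal.ofReal (1 / Real.sqrt (((x, (1 : ℝ)) : ℝ × ℝ).1 ^ 2 +
      ((x, (1 : ℝ)) : ℝ × ℝ).2 ^ 2)) ^ 2 = ENNReal.ofReal ((1 + x ^ 2)⁻¹) := by
    intro x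
    rw [← ENNReal.ofReal_pow (by positivity), div_pow, Real.sq_sqrt (by positivity)]
    congr 1
    show (1 : ℝ) ^ 2 / (x ^ 2 + 1 ^ 2) = (1 + x ^ 2)⁻¹
    rw [one_pow, one_div, add_comm]
  rw [lintegral_congr h1, ← ofReal_integral_eq_lintegral_ofReal integrable_inv_one_add_sq
    (Eventually.of_forall fun x => by positivity), integral_univ_inv_one_add_sq]
  exact ENNReal.ofReal_le_ofReal Real.pi_le_four

theorem sqrt_bound (a : ℝ≥0∞) (r : ℝ) (hr : 0 ≤ r) (h : a ≤ ENNReal.ofReal (4 * r ^ 2)) :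
    a ^ (1 / 2 : ℝ) ≤ ENNReal.ofReal (2 * r) := by
  calc a ^ (1 / 2 : ℝ) ≤ (ENNReal.ofReal (4 * r ^ 2)) ^ (1 / 2 : ℝ) := by gcongr
    _ = ENNReal.ofReal (2 * r) := by
      rw [ENNReal.ofReal_rpow_of_nonneg (by positivity) (by norm_num), ← Real.sqrt_eq_rpow]
      congr 1
      rw [show 4 * r ^ 2 = (2 * r) ^ 2 by ring, Real.sqrt_sq (by positivity)]

theorem taskJ : TaskJ := by
  obtain ⟨c, hc, hc2, hcontr⟩ := taskContr
  refine ⟨c / 4, 4, by positivity, by linarith, by norm_num, ?_⟩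
  intro ε E W b L hε hε1
  set ρ : ℝ := 1 - c / 4 * ε ^ 2 with hρ
  have hε2 : ε ^ 2 ≤ 1 := pow_le_one₀ hε.le hε1
  have hε20 : 0 < ε ^ 2 := by positivity
  have hρ1 : ρ ≤ 1 := by
    rw [hρ]
    nlinarith
  have hρ2 : 7 / 8 ≤ ρ := by
    rw [hρ]
    nlinarith
  have hρ4 : 1 - c * ε ^ 2 ≤ ρ ^ 4 := by
    have h1 := one_add_mul_le_pow (a := -(c / 4 * ε ^ 2)) (by nlinarith) 4
    have h2 : (1 : ℝ) + -(c / 4 * ε ^ 2) = ρ := by rw [hρ]; ring
    rw [h2] at h1
    refine le_trans (le_of_eq ?_) h1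
    push_cast
    ring
  have hlen : ∀ x : ℤ → ℝ, ENNReal.ofReal (1 / rlen (fun n => W n + ε * x n) E b L) =
      Fi W ε E b L 0 (rsol (fun n => W n + ε * x n) E b L) := fun x => rfl
  rw [lintegral_congr hlen]
  -- the norms
  set G := gi W ε E b L with hG
  have hGm : ∀ i, Measurable (G i) := gi_meas W ε E b L
  have hnorm : ∀ i, nsqL (G (i + 1)) = nsqL (avg ε (G i)) := by
    intro i
    have h1 : nsqL (G (i + 1)) = nsqL (UR (E - W (b - (L - i - 1 : ℕ))) (avg ε (G i))) := by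
      unfold nsqL
      refine lintegral_congr_ae ?_
      filter_upwards [gi_succ W ε E b L i] with x hx
      rw [hG, hx]
    rw [h1]
    exact (taskIso _ _ (avg_meas ε _ (hGm i))).1
  have hcon : ∀ i, nsqL (avg ε (G (i + 1))) ≤ ENNReal.ofReal (1 - c * ε ^ 2) * nsqL (G i) := by
    intro i
    rw [avg_congr hε (gi_succ W ε E b L i)]
    exact hcontr ε _ (G i) hε hε1 (hGm i)
  have havg : ∀ i, nsqL (avg ε (G i)) ≤ nsqL (G i) := fun i => (taskAvg ε _ hε hε1 (hGm i)).2.1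
  have hbd : ∀ i, nsqL (avg ε (G i)) ≤ ENNReal.ofReal (4 * (ρ ^ i) ^ 2) ∧
      nsqL (avg ε (G (i + 1))) ≤ ENNReal.ofReal (4 * (ρ ^ (i + 1)) ^ 2) := by
    intro i
    induction i with
    | zero =>
      constructor
      · refine (havg 0).trans ((nsq_g0 W ε E b L).trans ?_)
        norm_num
      · refine (hcon 0).trans ?_
        calc ENNReal.ofReal (1 - c * ε ^ 2) * nsqL (G 0)
            ≤ ENNReal.ofReal (1 - c * ε ^ 2) * ENNReal.ofReal 4 := by
              gcongr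
              exact nsq_g0 W ε E b L
          _ = ENNReal.ofReal ((1 - c * ε ^ 2) * 4) := by
              rw [ENNReal.ofReal_mul (by nlinarith)]
          _ ≤ ENNReal.ofReal (4 * (ρ ^ (0 + 1)) ^ 2) := by
              apply ENNReal.ofReal_le_ofReal
              have h3 : ρ ^ 4 ≤ ρ ^ 2 := pow_le_pow_of_le_one (by linarith) hρ1 (by norm_num)
              rw [zero_add, pow_one]
              linarith
    | succ i ih =>
      refine ⟨ih.2, ?_⟩
      refine (hcon (i + 1)).trans ?_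
      rw [hnorm]
      calc ENNReal.ofReal (1 - c * ε ^ 2) * nsqL (avg ε (G i))
          ≤ ENNReal.ofReal (1 - c * ε ^ 2) * ENNReal.ofReal (4 * (ρ ^ i) ^ 2) := by
            gcongr
            exact ih.1
        _ = ENNReal.ofReal ((1 - c * ε ^ 2) * (4 * (ρ ^ i) ^ 2)) := by
            rw [← ENNReal.ofReal_mul (by nlinarith)]
        _ ≤ ENNReal.ofReal (ρ ^ 4 * (4 * (ρ ^ i) ^ 2)) := by
            apply ENNReal.ofReal_le_ofReal
            exact mul_le_mul_of_nonneg_right hρ4 (by positivity)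
        _ = _ := by
            congr 1
            ring
  rcases Nat.lt_or_ge L 2 with hL | hL
  · -- trivial cases
    have h1 : ∀ i ≤ L, ∀ v : ℝ × ℝ, 1 ≤ v.1 ^ 2 + v.2 ^ 2 → Fi W ε E b L 0 v ≤ 1 := by
      intro i _ v hv
      unfold Fi
      rw [ENNReal.ofReal_le_one, div_le_one (Real.sqrt_pos.2 (by linarith))]
      exact Real.one_le_sqrt.2 hv
    have h2 : ∫⁻ x, Fi W ε E b L 0 (rsol (fun n => W n + ε * x n) E b L) ∂PZ ≤ 1 := by
      have h3 : ∀ x : ℤ → ℝ, Fi W ε E b L 0 (rsol (fun n => W n + ε * x n) E b L) ≤ 1 := by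
        intro x
        refine h1 0 (Nat.zero_le _) _ ?_
        interval_cases L
        · show (1 : ℝ) ≤ (1 : ℝ) ^ 2 + (0 : ℝ) ^ 2
          norm_num
        · have h4 : (rsol (fun n => W n + ε * x n) E b 1).2 = 1 := rfl
          rw [h4]
          nlinarith [sq_nonneg (rsol (fun n => W n + ε * x n) E b 1).1]
      calc ∫⁻ x, Fi W ε E b L 0 (rsol (fun n => W n + ε * x n) E b L) ∂PZ ≤ ∫⁻ _, 1 ∂PZ :=
            lintegral_mono h3
        _ = 1 := by simp
    refine h2.trans ?_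
    rw [← ENNReal.ofReal_one]
    apply ENNReal.ofReal_le_ofReal
    have h5 : 1 ≤ 1 / ε := by rw [le_div_iff₀ hε]; linarith
    have h6 : (7 / 8 : ℝ) ≤ ρ ^ L := by
      interval_cases L
      · norm_num
      · simpa using hρ2
    calc (1 : ℝ) ≤ 4 * (1 / ε) * (7 / 8) := by nlinarith
      _ ≤ 4 / ε * ρ ^ L := by
        rw [mul_one_div]
        exact mul_le_mul_of_nonneg_left h6 (by positivity)
  · obtain ⟨M, rfl⟩ : ∃ M, L = M + 2 := ⟨L - 2, by omega⟩
    rw [Fi_eq W ε E b (M + 2) (M + 2) le_rfl, Nat.sub_self]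
    have h1 : ∀ x : ℤ → ℝ, Fi W ε E b (M + 2) (M + 2) (rsol (fun n => W n + ε * x n) E b 0) =
        avg ε (G (M + 1)) (E - W b) := by
      intro x
      show Av ε (E - W (b - ((M + 2 - (M + 1) - 1 : ℕ) : ℤ))) (Fi W ε E b (M + 2) (M + 1)) (1, 0) = _
      rw [← avg_sub]
      unfold Av
      refine lintegral_congr fun s => ?_
      have h2 : ((M + 2 - (M + 1) - 1 : ℕ) : ℤ) = 0 := by
        have : M + 2 - (M + 1) - 1 = 0 := by omega
        rw [this]
        rfl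
      rw [h2, sub_zero]
      show Fi W ε E b (M + 2) (M + 1) _ = Fi W ε E b (M + 2) (M + 1) _
      congr 2
      simp
    rw [lintegral_congr h1]
    simp only [lintegral_const, measure_univ, mul_one]
    refine ((taskAvg ε _ hε hε1 (hGm (M + 1))).2.2.2 (E - W b)).trans ?_
    rw [hnorm]
    have h2 := sqrt_bound _ (ρ ^ M) (by positivity) (hbd M).1
    calc ENNReal.ofReal (1 / Real.sqrt ε) * nsqL (avg ε (G M)) ^ (1 / 2 : ℝ)
        ≤ ENNReal.ofReal (1 / Real.sqrt ε) * ENNReal.ofReal (2 * ρ ^ M) := by gcongr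
      _ = ENNReal.ofReal (1 / Real.sqrt ε * (2 * ρ ^ M)) := by
          rw [← ENNReal.ofReal_mul (by positivity)]
      _ ≤ ENNReal.ofReal (4 / ε * ρ ^ (M + 2)) := by
          apply ENNReal.ofReal_le_ofReal
          have h3 : ε ≤ Real.sqrt ε := by
            apply Real.le_sqrt_of_sq_le
            nlinarith
          have h4 : 1 / Real.sqrt ε ≤ 1 / ε := one_div_le_one_div_of_le hε h3
          have h5 : (1 : ℝ) / 2 ≤ ρ ^ 2 := by nlinarith
          have h6 : 2 * ρ ^ M ≤ 4 * ρ ^ (M + 2) := by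
            rw [pow_add]
            have : 0 ≤ ρ ^ M := by positivity
            nlinarith
          calc 1 / Real.sqrt ε * (2 * ρ ^ M) ≤ 1 / ε * (4 * ρ ^ (M + 2)) :=
                mul_le_mul h4 h6 (by positivity) (by positivity)
            _ = 4 / ε * ρ ^ (M + 2) := by ring

end Pool.Agent.Y661.PP
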