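import Pool.Agent.Y661.PP.G2
import Pool.Agent.Y661.PP.Chain
import Pool.Agent.Y661.PP.Grp

/-!
Choice of the parameters.
-/

set_option autoImplicit false

open scoped BigOperators ENNReal NNReal Topology
open MeasureTheory Filter

namespace Pool.Agent.Y661.PP

open Pool.Agent.H695R3.PP

theorem params (κ : ℝ) (hκ : 0 < κ) (V : ℤ → ℝ)
    (h1 : ∀ᶠ k : ℕ in atTop, ¬ Bad1 (16 ^ k) (Real.exp (-(κ / 8 * 4 ^ k)))
      (Real.exp (-(κ / 2 * 4 ^ k))) V)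
    (h2 : ∀ᶠ k : ℕ in atTop, ¬ Bad2 (16 ^ k) (Real.exp (-(κ / 16 * 4 ^ k))) V) :
    lp.single 2 (0 : ℤ) (1 : ℂ) ∈ (EigSpan V).topologicalClosure := by
  have hr : ∀ k : ℕ, Real.exp (-(κ / 2 * 4 ^ k)) / Real.exp (-(κ / 16 * 4 ^ (k + 1))) =
      Real.exp (-(κ / 4 * 4 ^ k)) := by
    intro k
    rw [← Real.exp_sub]
    congr 1
    ring
  have hinf : Tendsto (fun k : ℕ => κ / 8 * (4 : ℝ) ^ k) atTop atTop :=
    (tendsto_pow_atTop_atTop_of_one_lt (by norm_num)).const_mul_atTop (by positivity)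
  have hx : Tendsto (fun k : ℕ => Real.exp (-(κ / 8 * 4 ^ k))) atTop (𝓝 0) :=
    Real.tendsto_exp_neg_atTop_nhds_zero.comp hinf
  have hx5 : ∀ᶠ k : ℕ in atTop, Real.exp (-(κ / 8 * 4 ^ k)) ≤ 1 / 5 :=
    hx.eventually (Iic_mem_nhds (by norm_num))
  have e2 : ∀ k : ℕ, Real.exp (-(κ / 4 * 4 ^ k)) = Real.exp (-(κ / 8 * 4 ^ k)) ^ 2 := by
    intro k
    rw [← Real.exp_nat_mul]
    congr 1
    push_cast
    ring
  have e4 : ∀ k : ℕ, Real.exp (-(κ / 2 * 4 ^ k)) = Real.exp (-(κ / 8 * 4 ^ k)) ^ 4 := by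
    intro k
    rw [← Real.exp_nat_mul]
    congr 1
    push_cast
    ring
  have e5 : ∀ k : ℕ, Real.exp (-(κ / 16 * 4 ^ (k + 1))) = Real.exp (-(κ / 8 * 4 ^ k)) ^ 2 := by
    intro k
    rw [← e2]
    congr 1
    ring
  have e6 : ∀ k : ℕ, Real.exp (-(κ / 8 * 4 ^ (k + 1))) = Real.exp (-(κ / 8 * 4 ^ k)) ^ 4 := by
    intro k
    rw [← e4]
    congr 1
    ring
  have hn4 := taskNum (κ / 4) 16 (by positivity) (by norm_num)
  refine taskDelta V (fun k => 16 ^ k) (fun k => Real.exp (-(κ / 8 * 4 ^ k)))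
    (fun k => Real.exp (-(κ / 2 * 4 ^ k))) (fun k => Real.exp (-(κ / 16 * 4 ^ k))) ?_ ?_ h1 ?_ ?_ ?_
    ?_ ?_ ?_ ?_
  · exact pow_right_strictMono₀ (by norm_num)
  · intro k
    exact ⟨Real.exp_pos _, Real.exp_pos _, Real.exp_pos _⟩
  · exact (tendsto_add_atTop_nat 1).eventually h2
  · filter_upwards [hx5] with k hk
    rw [e4, e5]
    have := Real.exp_pos (-(κ / 8 * 4 ^ k))
    set x := Real.exp (-(κ / 8 * 4 ^ k))
    have h3 : x ^ 2 ≤ 1 / 25 := by nlinarith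
    nlinarith [sq_nonneg x]
  · filter_upwards [hx5] with k hk
    rw [mul_div_assoc, hr, e6, e2]
    have := Real.exp_pos (-(κ / 8 * 4 ^ k))
    set x := Real.exp (-(κ / 8 * 4 ^ k))
    have h3 : x ^ 2 ≤ 1 / 5 * x := by nlinarith
    have h4 : x ^ 4 ≤ 1 / 5 * x := by
      have : x ^ 4 = x ^ 2 * x ^ 2 := by ring
      rw [this]
      have h5 : x ^ 2 ≤ 1 := by nlinarith
      nlinarith [sq_nonneg x]
    linarith
  · simp only [hr]
    have := (taskNum (κ / 4) 1 (by positivity) le_rfl).1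
    simpa using this
  · have := (taskNum (κ / 2) 1 (by positivity) le_rfl).1
    simpa using this
  · have h3 := hn4.1.tendsto_atTop_zero.const_mul 3
    rw [mul_zero] at h3
    refine squeeze_zero (fun k => by positivity) (fun k => ?_) h3
    rw [← e2]
    have h4 : (1 : ℝ) ≤ 16 ^ k := one_le_pow₀ (by norm_num)
    push_cast
    have := Real.exp_pos (-(κ / 4 * 4 ^ k))
    nlinarith
  · have h3 := hn4.2.const_mul 3
    rw [mul_zero] at h3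
    refine squeeze_zero (fun k => ?_) (fun k => ?_) h3
    · exact mul_nonneg (by positivity) (tsum_nonneg fun j => by positivity)
    · have h5 : ∀ j : ℕ, Real.exp (-(κ / 2 * 4 ^ (k + j))) /
          Real.exp (-(κ / 16 * 4 ^ (k + j + 1))) = Real.exp (-(κ / 4 * 4 ^ (k + j))) :=
        fun j => hr (k + j)
      simp only [h5]
      have h4 : (1 : ℝ) ≤ 16 ^ k := one_le_pow₀ (by norm_num)
      have h6 : 0 ≤ ∑' j : ℕ, Real.exp (-(κ / 4 * 4 ^ (k + j))) :=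
        tsum_nonneg fun j => by positivity
      push_cast
      nlinarith

theorem bound1 (c C R e₀ : ℝ) (hc : 0 < c) (hc2 : c ≤ 1 / 2) (hC : 0 < C) (he : 0 < e₀)
    (he1 : e₀ ≤ 1) (k : ℕ) :
    C * R ^ 2 / ((e₀ / 2 ^ k) ^ 3 * Real.exp (-(c * e₀ ^ 2 / 8 * 4 ^ k)) ^ 2 *
      Real.exp (-(c * e₀ ^ 2 / 2 * 4 ^ k))) * (1 - c * (e₀ / 2 ^ k) ^ 2) ^ (16 ^ k) ≤
    C * R ^ 2 / e₀ ^ 3 * (8 ^ k * Real.exp (-(c * e₀ ^ 2 / 4 * 4 ^ k))) := by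
  have h1 : (e₀ / 2 ^ k) ^ 2 ≤ 1 := by
    apply pow_le_one₀ (by positivity)
    rw [div_le_one (by positivity)]
    exact he1.trans (one_le_pow₀ (by norm_num))
  have h2 : (1 - c * (e₀ / 2 ^ k) ^ 2) ^ (16 ^ k) ≤ Real.exp (-(c * e₀ ^ 2 * 4 ^ k)) := by
    calc (1 - c * (e₀ / 2 ^ k) ^ 2) ^ (16 ^ k) ≤ Real.exp (-(c * (e₀ / 2 ^ k) ^ 2)) ^ (16 ^ k) := by
          refine pow_le_pow_left₀ (by nlinarith) ?_ _
          have := Real.add_one_le_exp (-(c * (e₀ / 2 ^ k) ^ 2))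
          linarith
      _ = Real.exp (-(c * e₀ ^ 2 * 4 ^ k)) := by
          rw [← Real.exp_nat_mul]
          congr 1
          push_cast
          have h3 : (16 : ℝ) ^ k = 4 ^ k * 4 ^ k := by rw [← mul_pow]; norm_num
          have h4 : ((2 : ℝ) ^ k) ^ 2 = 4 ^ k := by rw [← pow_mul, mul_comm, pow_mul]; norm_num
          rw [div_pow, h3, h4]
          field_simp
  set x := Real.exp (-(c * e₀ ^ 2 / 8 * 4 ^ k)) with hx
  have hxp : 0 < x := Real.exp_pos _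
  have e2 : Real.exp (-(c * e₀ ^ 2 / 4 * 4 ^ k)) = x ^ 2 := by
    rw [hx, ← Real.exp_nat_mul]
    congr 1
    push_cast
    ring
  have e4 : Real.exp (-(c * e₀ ^ 2 / 2 * 4 ^ k)) = x ^ 4 := by
    rw [hx, ← Real.exp_nat_mul]
    congr 1
    push_cast
    ring
  have e8 : Real.exp (-(c * e₀ ^ 2 * 4 ^ k)) = x ^ 8 := by
    rw [hx, ← Real.exp_nat_mul]
    congr 1
    push_cast
    ring
  rw [e8] at h2
  rw [e2, e4]
  have h8 : ((2 : ℝ) ^ k) ^ 3 = 8 ^ k := by rw [← pow_mul, mul_comm, pow_mul]; norm_num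
  calc C * R ^ 2 / ((e₀ / 2 ^ k) ^ 3 * x ^ 2 * x ^ 4) * (1 - c * (e₀ / 2 ^ k) ^ 2) ^ (16 ^ k)
      ≤ C * R ^ 2 / ((e₀ / 2 ^ k) ^ 3 * x ^ 2 * x ^ 4) * x ^ 8 :=
        mul_le_mul_of_nonneg_left h2 (by positivity)
    _ = _ := by
        rw [div_pow, h8]
        field_simp

theorem bound2 (κ C e₀ : ℝ) (hC : 0 < C) (he : 0 < e₀) (k : ℕ) :
    C * (((16 ^ k : ℕ) : ℝ) + 1) ^ 4 * Real.exp (-(κ / 16 * 4 ^ k)) / (e₀ / 2 ^ k) ≤
      16 * C / e₀ * (131072 ^ k * Real.exp (-(κ / 16 * 4 ^ k))) := by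
  have h1 : ((16 ^ k : ℕ) : ℝ) + 1 ≤ 2 * 16 ^ k := by
    push_cast
    have : (1 : ℝ) ≤ 16 ^ k := one_le_pow₀ (by norm_num)
    linarith
  have h2 : (((16 ^ k : ℕ) : ℝ) + 1) ^ 4 ≤ (2 * 16 ^ k) ^ 4 :=
    pow_le_pow_left₀ (by positivity) h1 4
  have h3 : ((2 : ℝ) * 16 ^ k) ^ 4 * 2 ^ k = 16 * 131072 ^ k := by
    rw [mul_pow, ← pow_mul, mul_comm k 4, pow_mul, mul_assoc, ← mul_pow]
    norm_num
  calc C * (((16 ^ k : ℕ) : ℝ) + 1) ^ 4 * Real.exp (-(κ / 16 * 4 ^ k)) / (e₀ / 2 ^ k)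
      = C * Real.exp (-(κ / 16 * 4 ^ k)) / e₀ * ((((16 ^ k : ℕ) : ℝ) + 1) ^ 4 * 2 ^ k) := by
        field_simp
    _ ≤ C * Real.exp (-(κ / 16 * 4 ^ k)) / e₀ * ((2 * 16 ^ k) ^ 4 * 2 ^ k) := by
        gcongr
    _ = _ := by
        rw [h3]
        ring

end Pool.Agent.Y661.PP
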