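import Pool.Agent.H695R3.PP.Stmts
import Pool.Agent.H853R3.PP.TaskResample

/-!
Spectral averaging on finite boxes: `TaskSA`, `TaskSAP`.
-/

set_option autoImplicit false

open scoped BigOperators ENNReal NNReal
open MeasureTheory

namespace Pool.Agent.Y661.PP

open Pool.Agent.H695R3.PP

theorem tele (w : ℤ → ℝ) (a b : ℤ) (h : a ≤ b + 1) :
    ∑ n ∈ Finset.Icc a b, (w n - w (n - 1)) = w b - w (a - 1) := by
  obtain ⟨k, hk⟩ := Int.eq_ofNat_of_zero_le (by linarith : 0 ≤ b + 1 - a)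
  induction k generalizing b with
  | zero =>
    have hb : b = a - 1 := by push_cast at hk; linarith
    subst hb
    simp
  | succ k ih =>
    have hb : a ≤ b := by push_cast at hk; linarith
    have h1 : Finset.Icc a b = insert b (Finset.Icc a (b - 1)) := by
      ext n
      simp only [Finset.mem_Icc, Finset.mem_insert]
      omega
    rw [h1, Finset.sum_insert (by simp), ih (b - 1) (by linarith) (by push_cast at hk ⊢; linarith)]
    ring

/-- Green's identity. -/
theorem green (a b : ℤ) (f g : ℤ → ℝ) (hf : ∀ n, n < a ∨ b < n → f n = 0)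
    (hg : ∀ n, n < a ∨ b < n → g n = 0) :
    ∑ n ∈ Finset.Icc a b, g n * (f (n + 1) + f (n - 1)) =
      ∑ n ∈ Finset.Icc a b, f n * (g (n + 1) + g (n - 1)) := by
  rcases le_or_gt a (b + 1) with h | h
  · have h1 := tele (fun n => g n * f (n + 1) - f n * g (n + 1)) a b h
    have h2 : ∑ n ∈ Finset.Icc a b, ((g n * f (n + 1) - f n * g (n + 1)) -
        (g (n - 1) * f (n - 1 + 1) - f (n - 1) * g (n - 1 + 1))) =
        ∑ n ∈ Finset.Icc a b, (g n * (f (n + 1) + f (n - 1)) - f n * (g (n + 1) + g (n - 1))) := by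
      refine Finset.sum_congr rfl fun n _ => ?_
      rw [sub_add_cancel]
      ring
    rw [h2, Finset.sum_sub_distrib] at h1
    have e1 := hf (b + 1) (Or.inr (by linarith))
    have e2 := hg (b + 1) (Or.inr (by linarith))
    have e3 := hf (a - 1) (Or.inl (by linarith))
    have e4 := hg (a - 1) (Or.inl (by linarith))
    simp only [e1, e2, e3, e4] at h1
    linarith
  · rw [Finset.Icc_eq_empty (by linarith)]
    simp

theorem ip_le (a b : ℤ) (f g : ℤ → ℝ) (hf : nsq a b f = 1) (hg : nsq a b g = 1) :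
    |∑ n ∈ Finset.Icc a b, f n * g n| ≤ 1 := by
  have h := Finset.sum_mul_sq_le_sq_mul_sq (Finset.Icc a b) f g
  unfold nsq at hf hg
  rw [hf, hg] at h
  rw [← sq_le_one_iff_abs_le_one]
  linarith

/-- comparison of two eigenpairs for different values at one site -/
theorem pair_cmp (V : ℤ → ℝ) (a b m : ℤ) (t t' E E' : ℝ) (ψ ψ' : ℤ → ℝ)
    (h : IsEig (Function.update V m t) a b E ψ) (h' : IsEig (Function.update V m t') a b E' ψ')
    (hm : a ≤ m ∧ m ≤ b) :
    |t - t'| * |ψ m * ψ' m| ≤ |E - E'| := by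
  have hg := green a b ψ ψ' h.1 h'.1
  have h1 : ∑ n ∈ Finset.Icc a b, ψ' n * (ψ (n + 1) + ψ (n - 1)) =
      ∑ n ∈ Finset.Icc a b, ψ' n * ((E - Function.update V m t n) * ψ n) := by
    refine Finset.sum_congr rfl fun n hn => ?_
    rw [Finset.mem_Icc] at hn
    have := h.2.2 n hn.1 hn.2
    congr 1
    linarith
  have h2 : ∑ n ∈ Finset.Icc a b, ψ n * (ψ' (n + 1) + ψ' (n - 1)) =
      ∑ n ∈ Finset.Icc a b, ψ n * ((E' - Function.update V m t' n) * ψ' n) := by
    refine Finset.sum_congr rfl fun n hn => ?_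
    rw [Finset.mem_Icc] at hn
    have := h'.2.2 n hn.1 hn.2
    congr 1
    linarith
  rw [h1, h2] at hg
  have h3 : ∑ n ∈ Finset.Icc a b, (ψ' n * ((E - Function.update V m t n) * ψ n) -
      ψ n * ((E' - Function.update V m t' n) * ψ' n)) = 0 := by
    rw [Finset.sum_sub_distrib]
    linarith
  have h4 : ∑ n ∈ Finset.Icc a b, (ψ' n * ((E - Function.update V m t n) * ψ n) -
      ψ n * ((E' - Function.update V m t' n) * ψ' n)) =
      (E - E') * ∑ n ∈ Finset.Icc a b, ψ n * ψ' n -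
      ∑ n ∈ Finset.Icc a b, (if n = m then (t - t') * (ψ m * ψ' m) else 0) := by
    rw [Finset.mul_sum, ← Finset.sum_sub_distrib]
    refine Finset.sum_congr rfl fun n _ => ?_
    by_cases hn : n = m
    · subst hn
      simp only [Function.update_self, if_true]
      ring
    · rw [Function.update_of_ne hn, Function.update_of_ne hn, if_neg hn]
      ring
  rw [h4, Finset.sum_ite_eq' (Finset.Icc a b) m (fun _ => (t - t') * (ψ m * ψ' m)),
    if_pos (Finset.mem_Icc.2 hm)] at h3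
  have h5 : (t - t') * (ψ m * ψ' m) = (E - E') * ∑ n ∈ Finset.Icc a b, ψ n * ψ' n := by linarith
  rw [← abs_mul, h5, abs_mul]
  calc |E - E'| * |∑ n ∈ Finset.Icc a b, ψ n * ψ' n| ≤ |E - E'| * 1 :=
        mul_le_mul_of_nonneg_left (ip_le a b ψ ψ' h.2.1 h'.2.1) (abs_nonneg _)
    _ = _ := mul_one _

theorem site_mem {a b m : ℤ} {ψ : ℤ → ℝ} {κ : ℝ} (hκ : 0 < κ)
    (h : ∀ n, n < a ∨ b < n → ψ n = 0) (hm : κ ≤ ψ m ^ 2) : a ≤ m ∧ m ≤ b := by
  by_contra hcon
  have : m < a ∨ b < m := by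
    by_contra h2
    push Not at h2
    exact hcon h2
  rw [h m this] at hm
  nlinarith

theorem taskSA : TaskSA := by
  intro V a b m A κ hκ
  set T : Set ℝ := {t : ℝ | ∃ E ∈ A, ∃ ψ, IsEig (Function.update V m t) a b E ψ ∧ κ ≤ ψ m ^ 2}
    with hT
  have key : ∀ t t' E E' ψ ψ', IsEig (Function.update V m t) a b E ψ → κ ≤ ψ m ^ 2 →
      IsEig (Function.update V m t') a b E' ψ' → κ ≤ ψ' m ^ 2 → κ * |t - t'| ≤ |E - E'| := by
    intro t t' E E' ψ ψ' h1 h2 h3 h4
    have hm := site_mem hκ h1.1 h2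
    refine le_trans ?_ (pair_cmp V a b m t t' E E' ψ ψ' h1 h3 hm)
    rw [mul_comm]
    refine mul_le_mul_of_nonneg_left ?_ (abs_nonneg _)
    refine abs_le_of_sq_le_sq' ?_ (abs_nonneg _) |>.2
    rw [sq_abs, mul_pow, sq]
    exact mul_le_mul h2 h4 hκ.le (sq_nonneg _)
  set A' : Set ℝ := {E ∈ A | ∃ t ψ, IsEig (Function.update V m t) a b E ψ ∧ κ ≤ ψ m ^ 2} with hA'
  have hF : ∀ E : ℝ, ∃ t : ℝ, E ∈ A' → ∃ ψ, IsEig (Function.update V m t) a b E ψ ∧
      κ ≤ ψ m ^ 2 := by
    intro E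
    by_cases h : E ∈ A'
    · obtain ⟨_, t, ψ, h1⟩ := h
      exact ⟨t, fun _ => ⟨ψ, h1⟩⟩
    · exact ⟨0, fun h' => absurd h' h⟩
  choose F hF using hF
  have hTF : T ⊆ F '' A' := by
    rintro t ⟨E, hE, ψ, h1, h2⟩
    have hEA : E ∈ A' := ⟨hE, t, ψ, h1, h2⟩
    obtain ⟨ψ', h3, h4⟩ := hF E hEA
    have h5 := key (F E) t E E ψ' ψ h3 h4 h1 h2
    rw [sub_self, abs_zero] at h5
    have h6 : |F E - t| ≤ 0 := by
      by_contra h7
      push Not at h7
      nlinarith
    exact ⟨E, hEA, by linarith [abs_nonpos_iff.1 h6]⟩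
  have hLip : LipschitzOnWith (1 / κ).toNNReal F A' := by
    refine LipschitzOnWith.of_dist_le_mul fun E hE E' hE' => ?_
    obtain ⟨ψ, h1, h2⟩ := hF E hE
    obtain ⟨ψ', h3, h4⟩ := hF E' hE'
    have h5 := key (F E) (F E') E E' ψ ψ' h1 h2 h3 h4
    rw [Real.dist_eq, Real.dist_eq, Real.coe_toNNReal _ (by positivity)]
    rw [one_div, ← div_eq_inv_mul, le_div_iff₀ hκ]
    linarith
  calc volume T ≤ volume (F '' A') := measure_mono hTF
    _ = Measure.hausdorffMeasure 1 (F '' A') := by rw [hausdorffMeasure_real]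
    _ ≤ ((1 / κ).toNNReal : ℝ≥0∞) ^ (1 : ℝ) * Measure.hausdorffMeasure 1 A' :=
        hLip.hausdorffMeasure_image_le zero_le_one
    _ = ENNReal.ofReal (1 / κ) * volume A' := by
        rw [hausdorffMeasure_real, ENNReal.rpow_one]
        rfl
    _ ≤ ENNReal.ofReal (1 / κ) * volume A := by
        gcongr
        exact fun E hE => hE.1

theorem U_le (T : Set ℝ) (w ε : ℝ) (hε : 0 < ε) :
    U {s : ℝ | w + ε * s ∈ T} ≤ ENNReal.ofReal (1 / (2 * ε)) * volume T := by
  unfold U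
  rw [Measure.smul_apply, smul_eq_mul]
  have h1 : (volume.restrict (Set.Icc (-1 : ℝ) 1)) {s : ℝ | w + ε * s ∈ T} ≤
      volume {s : ℝ | w + ε * s ∈ T} := Measure.restrict_apply_le _ _
  have h2 : volume {s : ℝ | w + ε * s ∈ T} = ENNReal.ofReal (1 / ε) * volume T := by
    have e1 : {s : ℝ | w + ε * s ∈ T} = (fun s => ε * s) ⁻¹' ((fun s => w + s) ⁻¹' T) := rfl
    rw [e1, Real.volume_preimage_mul_left hε.ne', measure_preimage_add]
    congr 2
    rw [abs_of_pos (by positivity), one_div]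
  calc ENNReal.ofReal (1 / 2) * (volume.restrict (Set.Icc (-1 : ℝ) 1)) {s : ℝ | w + ε * s ∈ T}
      ≤ ENNReal.ofReal (1 / 2) * (ENNReal.ofReal (1 / ε) * volume T) := by
        rw [← h2]
        gcongr
    _ = ENNReal.ofReal (1 / (2 * ε)) * volume T := by
        rw [← mul_assoc, ← ENNReal.ofReal_mul (by norm_num)]
        congr 2
        field_simp

theorem measurable_upd2 (m : ℤ) :
    Measurable (fun p : (ℤ → ℝ) × ℝ => Function.update p.1 m p.2) :=
  Pool.Agent.H853R3.PP.Resample.measurable_upd (X := fun _ : ℤ => ℝ) m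

/-- resampling of one coordinate -/
theorem resample (m : ℤ) (B : Set (ℤ → ℝ)) (hB : MeasurableSet B) :
    PZ B = ∫⁻ x, U {s | Function.update x m s ∈ B} ∂PZ := by
  have h := Pool.Agent.H853R3.PP.Resample.taskResample ℤ (fun _ => ℝ) (fun _ => U) m
  have h2 : PZ = Measure.map (fun p : (ℤ → ℝ) × ℝ => Function.update p.1 m p.2) (PZ.prod U) := by
    unfold PZ
    exact h.symm
  conv_lhs => rw [h2]
  rw [Measure.map_apply (measurable_upd2 m) hB,
    Measure.prod_apply ((measurable_upd2 m) hB)]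
  rfl

theorem taskSAP : TaskSAP := by
  intro W ε κ a b m A B hε hκ hB hA h
  rw [resample m B hB]
  refine lintegral_mono fun x => ?_
  set T : Set ℝ := {t : ℝ | ∃ E ∈ A x, ∃ ψ,
    IsEig (Function.update (fun n => W n + ε * x n) m t) a b E ψ ∧ κ ≤ ψ m ^ 2} with hT
  have h1 : {s : ℝ | Function.update x m s ∈ B} ⊆ {s : ℝ | W m + ε * s ∈ T} := by
    intro s hs
    obtain ⟨E, hE, ψ, h2, h3⟩ := h _ hs
    refine ⟨E, by rwa [hA] at hE, ψ, ?_, h3⟩
    convert h2 using 1
    funext n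
    by_cases hn : n = m
    · subst hn
      simp
    · simp [Function.update_of_ne hn]
  calc U {s : ℝ | Function.update x m s ∈ B} ≤ U {s : ℝ | W m + ε * s ∈ T} := measure_mono h1
    _ ≤ ENNReal.ofReal (1 / (2 * ε)) * volume T := U_le T _ ε hε
    _ ≤ ENNReal.ofReal (1 / (2 * ε)) * (ENNReal.ofReal (1 / κ) * volume (A x)) := by
        gcongr
        exact taskSA _ a b m (A x) κ hκ
    _ = ENNReal.ofReal (1 / (2 * ε * κ)) * volume (A x) := by
        rw [← mul_assoc, ← ENNReal.ofReal_mul (by positivity)]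
        congr 2
        field_simp

end Pool.Agent.Y661.PP
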